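import Mathlib

set_option autoImplicit false

/-!
Base functions for the tight immersion: a symmetric bump `e` supported on `[-1,1]`, its
distribution function `p`, the truncated first moment `q`, and the functions `a`, `B`, `D`.
-/

namespace Pool.Agent.Lib.MP_d43ca8_gt

open Set Real MeasureTheory intervalIntegral
open scoped ContDiff

noncomputable section

/-- unnormalised bump -/
def e0 (t : ℝ) : ℝ := expNegInvGlue (1 - t ^ 2)

lemma e0_contDiff : ContDiff ℝ ∞ e0 := by
  unfold e0
  exact expNegInvGlue.contDiff.comp (contDiff_const.sub (contDiff_id.pow 2))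

lemma e0_cont : Continuous e0 := e0_contDiff.continuous

lemma e0_nonneg (t : ℝ) : 0 ≤ e0 t := expNegInvGlue.nonneg _

lemma e0_pos {t : ℝ} (h1 : -1 < t) (h2 : t < 1) : 0 < e0 t :=
  expNegInvGlue.pos_of_pos (by nlinarith)

lemma e0_zero {t : ℝ} (h : 1 ≤ t ∨ t ≤ -1) : e0 t = 0 := by
  apply expNegInvGlue.zero_of_nonpos
  rcases h with h | h <;> nlinarith

lemma e0_neg (t : ℝ) : e0 (-t) = e0 t := by simp [e0]

/-- total mass -/
def I0 : ℝ := ∫ t in (-1 : ℝ)..1, e0 t

lemma I0_pos : 0 < I0 :=
  intervalIntegral_pos_of_pos_on (e0_cont.intervalIntegrable _ _)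
    (fun x hx => e0_pos hx.1 hx.2) (by norm_num)

/-- normalised bump -/
def e (t : ℝ) : ℝ := e0 t / I0

lemma e_contDiff : ContDiff ℝ ∞ e := e0_contDiff.div_const _

lemma e_cont : Continuous e := e_contDiff.continuous

lemma e_nonneg (t : ℝ) : 0 ≤ e t := div_nonneg (e0_nonneg t) I0_pos.le

lemma e_pos {t : ℝ} (h1 : -1 < t) (h2 : t < 1) : 0 < e t := div_pos (e0_pos h1 h2) I0_pos

lemma e_zero {t : ℝ} (h : 1 ≤ t ∨ t ≤ -1) : e t = 0 := by simp [e, e0_zero h]

lemma e_neg (t : ℝ) : e (-t) = e t := by simp [e, e0_neg]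

/-- distribution function -/
def p (r : ℝ) : ℝ := ∫ t in (-1 : ℝ)..r, e t

lemma hasDerivAt_p (r : ℝ) : HasDerivAt p (e r) r :=
  (e_cont.integral_hasStrictDerivAt (-1) r).hasDerivAt

lemma integral_e : ∫ t in (-1 : ℝ)..1, e t = 1 := by
  unfold e
  rw [intervalIntegral.integral_div]
  exact div_self I0_pos.ne'

lemma p_one : p 1 = 1 := integral_e

lemma p_of_le {r : ℝ} (h : r ≤ -1) : p r = 0 := by
  unfold p
  rw [intervalIntegral.integral_congr (g := fun _ => (0 : ℝ))]
  · simp
  · intro t ht
    rw [uIcc_of_ge h] at ht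
    exact e_zero (Or.inr ht.2)

lemma p_of_ge {r : ℝ} (h : 1 ≤ r) : p r = 1 := by
  have h1 : ∫ t in (1 : ℝ)..r, e t = 0 := by
    rw [intervalIntegral.integral_congr (g := fun _ => (0 : ℝ))]
    · simp
    · intro t ht
      rw [uIcc_of_le h] at ht
      exact e_zero (Or.inl ht.1)
  have h2 := intervalIntegral.integral_add_adjacent_intervals (μ := volume)
    (e_cont.intervalIntegrable (-1) 1) (e_cont.intervalIntegrable 1 r)
  unfold p
  rw [← h2, h1, integral_e, add_zero]

lemma p_mono : Monotone p :=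
  monotone_of_deriv_nonneg (fun r => (hasDerivAt_p r).differentiableAt)
    (fun r => by rw [(hasDerivAt_p r).deriv]; exact e_nonneg r)

lemma p_nonneg (r : ℝ) : 0 ≤ p r := by
  rcases le_total r (-1) with h | h
  · rw [p_of_le h]
  · rw [← p_of_le (le_refl (-1 : ℝ))]; exact p_mono h

lemma p_le_one (r : ℝ) : p r ≤ 1 := by
  rcases le_total 1 r with h | h
  · rw [p_of_ge h]
  · rw [← p_one]; exact p_mono h

lemma p_strictMonoOn : StrictMonoOn p (Icc (-1) 1) := by
  apply strictMonoOn_of_deriv_pos (convex_Icc _ _)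
  · exact fun r _ => (hasDerivAt_p r).continuousAt.continuousWithinAt
  · intro r hr
    rw [interior_Icc] at hr
    rw [(hasDerivAt_p r).deriv]
    exact e_pos hr.1 hr.2

lemma p_pos {r : ℝ} (h : -1 < r) : 0 < p r := by
  rcases le_total 1 r with h1 | h1
  · rw [p_of_ge h1]; norm_num
  · rw [← p_of_le (le_refl (-1 : ℝ))]
    exact p_strictMonoOn ⟨le_refl _, by norm_num⟩ ⟨h.le, h1⟩ h

lemma p_lt_one {r : ℝ} (h : r < 1) : p r < 1 := by
  rcases le_total r (-1) with h1 | h1
  · rw [p_of_le h1]; norm_num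
  · rw [← p_one]
    exact p_strictMonoOn ⟨h1, h.le⟩ ⟨by norm_num, le_refl _⟩ h

lemma p_neg (r : ℝ) : p (-r) = 1 - p r := by
  have h1 : p (-r) = ∫ t in r..1, e t := by
    unfold p
    have := intervalIntegral.integral_comp_neg (a := r) (b := 1) e
    simp only [e_neg] at this
    rw [this]
  have h2 := intervalIntegral.integral_add_adjacent_intervals (μ := volume)
    (e_cont.intervalIntegrable (-1) r) (e_cont.intervalIntegrable r 1)
  rw [integral_e] at h2
  rw [h1]
  unfold p
  linarith

/-- truncated first moment -/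
def q (r : ℝ) : ℝ := ∫ t in r..1, t * e t

lemma te_cont : Continuous fun t => t * e t := continuous_id.mul e_cont

lemma q_eq (r : ℝ) : q r = q (-1) - ∫ t in (-1 : ℝ)..r, t * e t := by
  have h2 := intervalIntegral.integral_add_adjacent_intervals (μ := volume)
    (te_cont.intervalIntegrable (-1) r) (te_cont.intervalIntegrable r 1)
  unfold q
  linarith

lemma hasDerivAt_q (r : ℝ) : HasDerivAt q (-(r * e r)) r := by
  have h := (te_cont.integral_hasStrictDerivAt (-1) r).hasDerivAt
  have h2 : q = fun r => q (-1) - ∫ t in (-1 : ℝ)..r, t * e t := funext q_eq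
  rw [h2]
  simpa using h.const_sub (q (-1))

lemma q_neg (r : ℝ) : q (-r) = q r := by
  have h0 : ∫ t in (-r)..r, t * e t = 0 := by
    have := intervalIntegral.integral_comp_neg (a := -r) (b := r) (fun t => t * e t)
    simp only [e_neg, neg_neg] at this
    have h3 : ∫ x in (-r)..r, -x * e x = - ∫ x in (-r)..r, x * e x := by
      rw [← intervalIntegral.integral_neg]
      congr 1
      funext x
      ring
    rw [h3] at this
    linarith
  have h2 := intervalIntegral.integral_add_adjacent_intervals (μ := volume)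
    (te_cont.intervalIntegrable (-r) r) (te_cont.intervalIntegrable r 1)
  unfold q
  linarith

lemma q_of_ge {r : ℝ} (h : 1 ≤ r) : q r = 0 := by
  unfold q
  rw [intervalIntegral.integral_congr (g := fun _ => (0 : ℝ))]
  · simp
  · intro t ht
    rw [uIcc_of_ge h] at ht
    simp [e_zero (Or.inl ht.1)]

lemma q_of_le {r : ℝ} (h : r ≤ -1) : q r = 0 := by
  rw [← q_neg]; exact q_of_ge (by linarith)

lemma q_pos {r : ℝ} (h1 : -1 < r) (h2 : r < 1) : 0 < q r := by
  have key : ∀ s : ℝ, 0 ≤ s → s < 1 → 0 < q s := by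
    intro s hs hs1
    exact intervalIntegral_pos_of_pos_on (te_cont.intervalIntegrable _ _)
      (fun x hx => mul_pos (by linarith [hx.1]) (e_pos (by linarith [hx.1]) hx.2)) hs1
  rcases le_total 0 r with h | h
  · exact key r h h2
  · rw [← q_neg]; exact key (-r) (by linarith) (by linarith)

lemma q_nonneg (r : ℝ) : 0 ≤ q r := by
  rcases le_or_gt r (-1) with h | h
  · rw [q_of_le h]
  · rcases le_or_gt 1 r with h1 | h1
    · rw [q_of_ge h1]
    · exact (q_pos h h1).le

lemma q_cont : Continuous q :=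
  continuous_iff_continuousAt.mpr fun r => (hasDerivAt_q r).continuousAt

/-- normalising constant for `a` -/
def K : ℝ := 3 / ∫ t in (-1 : ℝ)..1, q t

lemma K_pos : 0 < K :=
  div_pos (by norm_num) (intervalIntegral_pos_of_pos_on (q_cont.intervalIntegrable _ _)
    (fun x hx => q_pos hx.1 hx.2) (by norm_num))

/-- the first coordinate function -/
def a (r : ℝ) : ℝ := K * ∫ t in (-1 : ℝ)..r, q t

lemma hasDerivAt_a (r : ℝ) : HasDerivAt a (K * q r) r :=
  ((q_cont.integral_hasStrictDerivAt (-1) r).hasDerivAt).const_mul K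

lemma a_one : a 1 = 3 := by
  unfold a K
  rw [div_mul_cancel₀]
  exact (intervalIntegral_pos_of_pos_on (q_cont.intervalIntegrable _ _)
    (fun x hx => q_pos hx.1 hx.2) (by norm_num)).ne'

lemma a_of_le {r : ℝ} (h : r ≤ -1) : a r = 0 := by
  unfold a
  rw [intervalIntegral.integral_congr (g := fun _ => (0 : ℝ))]
  · simp
  · intro t ht
    rw [uIcc_of_ge h] at ht
    exact q_of_le ht.2

lemma a_of_ge {r : ℝ} (h : 1 ≤ r) : a r = 3 := by
  have h1 : ∫ t in (1 : ℝ)..r, q t = 0 := by
    rw [intervalIntegral.integral_congr (g := fun _ => (0 : ℝ))]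
    · simp
    · intro t ht
      rw [uIcc_of_le h] at ht
      exact q_of_ge ht.1
  have h2 := intervalIntegral.integral_add_adjacent_intervals (μ := volume)
    (q_cont.intervalIntegrable (-1) 1) (q_cont.intervalIntegrable 1 r)
  have h3 := a_one
  unfold a at h3 ⊢
  rw [← h2, h1, add_zero, h3]

lemma a_neg (r : ℝ) : a (-r) = 3 - a r := by
  have h1 : ∫ t in (-1 : ℝ)..(-r), q t = ∫ t in r..1, q t := by
    have := intervalIntegral.integral_comp_neg (a := r) (b := 1) q
    simp only [q_neg] at this
    rw [this]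
  have h2 := intervalIntegral.integral_add_adjacent_intervals (μ := volume)
    (q_cont.intervalIntegrable (-1) r) (q_cont.intervalIntegrable r 1)
  have h3 := a_one
  unfold a at h3 ⊢
  rw [h1]
  rw [← h2] at h3
  linarith

lemma a_strictMonoOn : StrictMonoOn a (Icc (-1) 1) := by
  apply strictMonoOn_of_deriv_pos (convex_Icc _ _)
  · exact fun r _ => (hasDerivAt_a r).continuousAt.continuousWithinAt
  · intro r hr
    rw [interior_Icc] at hr
    rw [(hasDerivAt_a r).deriv]
    exact mul_pos K_pos (q_pos hr.1 hr.2)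

lemma a_mono : Monotone a :=
  monotone_of_deriv_nonneg (fun r => (hasDerivAt_a r).differentiableAt)
    (fun r => by rw [(hasDerivAt_a r).deriv]; exact mul_nonneg K_pos.le (q_nonneg r))

lemma a_nonneg (r : ℝ) : 0 ≤ a r := by
  rcases le_total r (-1) with h | h
  · rw [a_of_le h]
  · rw [← a_of_le (le_refl (-1 : ℝ))]; exact a_mono h

lemma a_le (r : ℝ) : a r ≤ 3 := by
  rcases le_total 1 r with h | h
  · rw [a_of_ge h]
  · rw [← a_one]; exact a_mono h

/-- smooth version of `max r 0` -/
def B (r : ℝ) : ℝ := r * p r + q r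

/-- smooth version of `min r 0` -/
def D (r : ℝ) : ℝ := r - B r

lemma B_add_D (r : ℝ) : B r + D r = r := by unfold D; ring

lemma hasDerivAt_B (r : ℝ) : HasDerivAt B (p r) r := by
  have h := ((hasDerivAt_id r).mul (hasDerivAt_p r)).add (hasDerivAt_q r)
  have h' : HasDerivAt B (1 * p r + id r * e r + -(r * e r)) r := h
  convert h' using 1
  simp

lemma hasDerivAt_D (r : ℝ) : HasDerivAt D (1 - p r) r :=
  (hasDerivAt_id r).sub (hasDerivAt_B r)

lemma D_eq (r : ℝ) : D r = r * (1 - p r) - q r := by unfold D B; ring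

lemma B_neg (r : ℝ) : B (-r) = - D r := by
  rw [D_eq]; unfold B; rw [p_neg, q_neg]; ring

lemma D_neg (r : ℝ) : D (-r) = - B r := by
  rw [D_eq, p_neg, q_neg]; unfold B; ring

lemma B_of_le {r : ℝ} (h : r ≤ -1) : B r = 0 := by simp [B, p_of_le h, q_of_le h]

lemma B_of_ge {r : ℝ} (h : 1 ≤ r) : B r = r := by simp [B, p_of_ge h, q_of_ge h]

lemma D_of_le {r : ℝ} (h : r ≤ -1) : D r = r := by simp [D, B_of_le h]

lemma D_of_ge {r : ℝ} (h : 1 ≤ r) : D r = 0 := by simp [D, B_of_ge h]

lemma B_mono : Monotone B :=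
  monotone_of_deriv_nonneg (fun r => (hasDerivAt_B r).differentiableAt)
    (fun r => by rw [(hasDerivAt_B r).deriv]; exact p_nonneg r)

lemma D_mono : Monotone D :=
  monotone_of_deriv_nonneg (fun r => (hasDerivAt_D r).differentiableAt)
    (fun r => by rw [(hasDerivAt_D r).deriv]; linarith [p_le_one r])

lemma B_nonneg (r : ℝ) : 0 ≤ B r := by
  rcases le_total r (-1) with h | h
  · rw [B_of_le h]
  · rw [← B_of_le (le_refl (-1 : ℝ))]; exact B_mono h

lemma D_nonpos (r : ℝ) : D r ≤ 0 := by
  have := B_nonneg (-r)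
  rw [B_neg] at this
  linarith

lemma B_pos {r : ℝ} (h : -1 < r) : 0 < B r := by
  rcases le_or_gt 0 r with h0 | h0
  · rcases le_or_gt 1 r with h1 | h1
    · rw [B_of_ge h1]; linarith
    · unfold B
      have := q_pos h h1
      have := mul_nonneg h0 (p_nonneg r)
      linarith
  · have hs : StrictMonoOn B (Icc (-1) 1) := by
      apply strictMonoOn_of_deriv_pos (convex_Icc _ _)
      · exact fun r _ => (hasDerivAt_B r).continuousAt.continuousWithinAt
      · intro r hr
        rw [interior_Icc] at hr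
        rw [(hasDerivAt_B r).deriv]
        exact p_pos hr.1
    rw [← B_of_le (le_refl (-1 : ℝ))]
    exact hs ⟨le_refl _, by norm_num⟩ ⟨h.le, by linarith⟩ h

lemma D_neg_of_lt {r : ℝ} (h : r < 1) : D r < 0 := by
  have := B_pos (r := -r) (by linarith)
  rw [B_neg] at this
  linarith

lemma p_contDiff : ContDiff ℝ ∞ p := by
  rw [contDiff_infty_iff_deriv]
  refine ⟨fun r => (hasDerivAt_p r).differentiableAt, ?_⟩
  have : deriv p = e := funext fun r => (hasDerivAt_p r).deriv
  rw [this]; exact e_contDiff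

lemma q_contDiff : ContDiff ℝ ∞ q := by
  rw [contDiff_infty_iff_deriv]
  refine ⟨fun r => (hasDerivAt_q r).differentiableAt, ?_⟩
  have : deriv q = fun r => -(r * e r) := funext fun r => (hasDerivAt_q r).deriv
  rw [this]; exact (contDiff_id.mul e_contDiff).neg

lemma a_contDiff : ContDiff ℝ ∞ a := by
  rw [contDiff_infty_iff_deriv]
  refine ⟨fun r => (hasDerivAt_a r).differentiableAt, ?_⟩
  have : deriv a = fun r => K * q r := funext fun r => (hasDerivAt_a r).deriv
  rw [this]; exact contDiff_const.mul q_contDiff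

lemma B_contDiff : ContDiff ℝ ∞ B := (contDiff_id.mul p_contDiff).add q_contDiff

lemma D_contDiff : ContDiff ℝ ∞ D := contDiff_id.sub B_contDiff

/-- `B < a` on `(-1, 1)`. -/
lemma B_lt_a {r : ℝ} (h1 : -1 < r) (h2 : r < 1) : B r < a r := by
  -- `R = a' - B'`
  set R : ℝ → ℝ := fun t => K * q t - p t with hR
  have hRd : ∀ t, HasDerivAt R (-((K * t + 1) * e t)) t := by
    intro t
    have h : HasDerivAt R (K * (-(t * e t)) - e t) t :=
      ((hasDerivAt_q t).const_mul K).sub (hasDerivAt_p t)
    have h2 : K * (-(t * e t)) - e t = -((K * t + 1) * e t) := by ring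
    rw [h2] at h
    exact h
  have hFd : ∀ t, HasDerivAt (fun t => a t - B t) (R t) t :=
    fun t => (hasDerivAt_a t).sub (hasDerivAt_B t)
  have hRm1 : R (-1) = 0 := by
    simp [hR, q_of_le (le_refl (-1 : ℝ)), p_of_le (le_refl (-1 : ℝ))]
  have hKpos := K_pos
  -- for `t ≤ -1/K`, `R t ≥ 0` ; beyond it `R` is nonincreasing
  have hinc : ∀ t, -1 ≤ t → K * t + 1 ≤ 0 → 0 ≤ R t := by
    intro t ht hKt
    have hm : MonotoneOn R (Icc (-1) t) := by
      apply monotoneOn_of_deriv_nonneg (convex_Icc _ _)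
      · exact fun s _ => (hRd s).continuousAt.continuousWithinAt
      · exact fun s _ => (hRd s).differentiableAt.differentiableWithinAt
      · intro s hs
        rw [interior_Icc] at hs
        rw [(hRd s).deriv]
        have : K * s + 1 ≤ 0 := by nlinarith [hs.2]
        nlinarith [e_nonneg s]
    rw [← hRm1]
    exact hm ⟨le_refl _, ht⟩ ⟨ht, le_refl _⟩ ht
  have hdec : ∀ s t, s ≤ t → 0 ≤ K * s + 1 → R t ≤ R s := by
    intro s t hst hKs
    have hm : AntitoneOn R (Icc s t) := by
      apply antitoneOn_of_deriv_nonpos (convex_Icc _ _)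
      · exact fun u _ => (hRd u).continuousAt.continuousWithinAt
      · exact fun u _ => (hRd u).differentiableAt.differentiableWithinAt
      · intro u hu
        rw [interior_Icc] at hu
        rw [(hRd u).deriv]
        have : 0 ≤ K * u + 1 := by nlinarith [hu.1]
        nlinarith [e_nonneg u]
    exact hm ⟨le_refl _, hst⟩ ⟨hst, le_refl _⟩ hst
  rcases lt_or_ge (R r) 0 with hneg | hpos
  · -- `F` is decreasing on `[r, 1]`
    have hKr : 0 ≤ K * r + 1 := by
      by_contra hcon
      exact absurd (hinc r h1.le (by linarith)) (by linarith)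
    have hm : AntitoneOn (fun t => a t - B t) (Icc r 1) := by
      apply antitoneOn_of_deriv_nonpos (convex_Icc _ _)
      · exact fun u _ => (hFd u).continuousAt.continuousWithinAt
      · exact fun u _ => (hFd u).differentiableAt.differentiableWithinAt
      · intro u hu
        rw [interior_Icc] at hu
        rw [(hFd u).deriv]
        exact (hdec r u hu.1.le hKr).trans hneg.le
    have := hm ⟨le_refl _, h2.le⟩ ⟨h2.le, le_refl _⟩ h2.le
    simp only [a_one, B_of_ge (le_refl (1 : ℝ))] at this
    linarith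
  · -- `F` is nondecreasing on `[-1, r]`
    have hnn : ∀ t, -1 ≤ t → t ≤ r → 0 ≤ R t := by
      intro t ht htr
      rcases le_total (K * t + 1) 0 with h | h
      · exact hinc t ht h
      · exact hpos.trans (hdec t r htr h)
    have hm : MonotoneOn (fun t => a t - B t) (Icc (-1) r) := by
      apply monotoneOn_of_deriv_nonneg (convex_Icc _ _)
      · exact fun u _ => (hFd u).continuousAt.continuousWithinAt
      · exact fun u _ => (hFd u).differentiableAt.differentiableWithinAt
      · intro u hu
        rw [interior_Icc] at hu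
        rw [(hFd u).deriv]
        exact hnn u hu.1.le hu.2.le
    have hF1 : a (-1) - B (-1) = 0 := by
      rw [a_of_le (le_refl _), B_of_le (le_refl _)]; norm_num
    have hF0 : 0 ≤ a r - B r := by
      have := hm ⟨le_refl _, h1.le⟩ ⟨h1.le, le_refl _⟩ h1.le
      simp only at this
      linarith
    rcases eq_or_lt_of_le hF0 with h0 | h0
    swap
    · linarith
    exfalso
    -- `F` vanishes on `[-1, r]`
    have hFz : ∀ t ∈ Icc (-1) r, a t - B t = 0 := by
      intro t ht
      have e1 := hm ⟨le_refl _, h1.le⟩ ht ht.1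
      have e2 := hm ht ⟨h1.le, le_refl _⟩ ht.2
      simp only at e1 e2
      linarith
    have hRz : ∀ t ∈ Ioo (-1) r, R t = 0 := by
      intro t ht
      have hev : (fun t => a t - B t) =ᶠ[nhds t] fun _ => 0 := by
        filter_upwards [Ioo_mem_nhds ht.1 ht.2] with s hs
        exact hFz s ⟨hs.1.le, hs.2.le⟩
      have := hev.deriv_eq
      rw [(hFd t).deriv] at this
      simpa using this
    have hKz : ∀ t ∈ Ioo (-1) r, K * t + 1 = 0 := by
      intro t ht
      have hev : R =ᶠ[nhds t] fun _ => 0 := by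
        filter_upwards [Ioo_mem_nhds ht.1 ht.2] with s hs
        exact hRz s hs
      have := hev.deriv_eq
      rw [(hRd t).deriv] at this
      simp only [deriv_const, neg_eq_zero, mul_eq_zero] at this
      rcases this with h | h
      · exact h
      · exact absurd h (e_pos ht.1 (by linarith [ht.2])).ne'
    have k1 := hKz ((-1 + r) / 2) ⟨by linarith, by linarith⟩
    have k2 := hKz ((-1 + (-1 + r) / 2) / 2) ⟨by linarith, by linarith⟩
    nlinarith

end

end Pool.Agent.Lib.MP_d43ca8_gt
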