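import Pool.Agent.Lib.MP_d43ca8_gt.Base

set_option autoImplicit false

/-!
The rounded square: a smooth closed convex curve with flat sides, built from four rotated copies
of one corner.
-/

namespace Pool.Agent.Lib.MP_d43ca8_gt

open Set Real
open scoped ContDiff

noncomputable section

/-- the corner at `(-3,-3)` -/
def cor (r : ℝ) : ℂ := ⟨-3 + B r, -3 - D r⟩

@[simp] lemma cor_re (r : ℝ) : (cor r).re = -3 + B r := rfl
@[simp] lemma cor_im (r : ℝ) : (cor r).im = -3 - D r := rfl

/-- the rounded square -/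
def Cset : Set ℂ := {ξ | ∃ g : ℂ, g ^ 4 = 1 ∧ ∃ r ∈ Icc (-3 : ℝ) 3, ξ = g * cor r}

/-- the region seen by the corner chart -/
def W0 : Set ℂ := {ξ | ξ.re < 2 ∧ ξ.im < 2}

/-- the chart of the corner -/
def pr (ξ : ℂ) : ℝ := ξ.re - ξ.im

lemma pr_cor (r : ℝ) : pr (cor r) = r := by
  simp only [pr, cor_re, cor_im]
  have := B_add_D r
  linarith

lemma g4 {g : ℂ} (h : g ^ 4 = 1) : g = 1 ∨ g = Complex.I ∨ g = -1 ∨ g = -Complex.I := by
  have h1 : (g ^ 2 - 1) * (g ^ 2 + 1) = 0 := by
    have : (g ^ 2 - 1) * (g ^ 2 + 1) = g ^ 4 - 1 := by ring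
    rw [this, h, sub_self]
  rcases mul_eq_zero.mp h1 with h2 | h2
  · have h3 : (g - 1) * (g + 1) = 0 := by
      have : (g - 1) * (g + 1) = g ^ 2 - 1 := by ring
      rw [this, h2]
    rcases mul_eq_zero.mp h3 with h4 | h4
    · left; linear_combination h4
    · right; right; left; linear_combination h4
  · have h3 : (g - Complex.I) * (g + Complex.I) = 0 := by
      have : (g - Complex.I) * (g + Complex.I) = g ^ 2 - Complex.I ^ 2 := by ring
      rw [this, Complex.I_sq]
      linear_combination h2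
    rcases mul_eq_zero.mp h3 with h4 | h4
    · right; left; linear_combination h4
    · right; right; right; linear_combination h4

lemma g4_ne {g : ℂ} (h : g ^ 4 = 1) : g ≠ 0 := by
  rintro rfl; norm_num at h

lemma cor_of_le {r : ℝ} (h : r ≤ -1) : cor r = ⟨-3, -3 - r⟩ := by
  unfold cor; rw [B_of_le h, D_of_le h, add_zero]

lemma cor_of_ge {r : ℝ} (h : 1 ≤ r) : cor r = ⟨-3 + r, -3⟩ := by
  unfold cor; rw [B_of_ge h, D_of_ge h, sub_zero]

lemma cor_next {r : ℝ} (h1 : 1 ≤ r) (h2 : r ≤ 5) : cor r = Complex.I * cor (r - 6) := by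
  rw [cor_of_ge h1, cor_of_le (by linarith)]
  apply Complex.ext <;> simp
  ring

lemma cor_prev {r : ℝ} (h1 : -5 ≤ r) (h2 : r ≤ -1) : cor r = -Complex.I * cor (r + 6) := by
  rw [cor_of_le h2, cor_of_ge (by linarith)]
  apply Complex.ext <;> simp
  ring

lemma cor_mem_W0 {r : ℝ} (h1 : -5 < r) (h2 : r < 5) : cor r ∈ W0 := by
  constructor
  · rw [cor_re]
    rcases le_or_gt r 1 with h | h
    · have := B_mono h
      rw [B_of_ge (le_refl (1 : ℝ))] at this
      linarith
    · rw [B_of_ge h.le]; linarith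
  · rw [cor_im]
    rcases le_or_gt r (-1) with h | h
    · rw [D_of_le h]; linarith
    · have := D_mono h.le
      rw [D_of_le (le_refl (-1 : ℝ))] at this
      linarith

lemma of_cor_mem_W0 {r : ℝ} (h : cor r ∈ W0) : -5 < r ∧ r < 5 := by
  obtain ⟨h1, h2⟩ := h
  rw [cor_re] at h1
  rw [cor_im] at h2
  constructor
  · by_contra hcon
    push Not at hcon
    rw [D_of_le (by linarith)] at h2
    linarith
  · by_contra hcon
    push Not at hcon
    rw [B_of_ge (by linarith)] at h1
    linarith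

lemma Cset_mul {g ξ : ℂ} (hg : g ^ 4 = 1) (h : ξ ∈ Cset) : g * ξ ∈ Cset := by
  obtain ⟨g', hg', r, hr, rfl⟩ := h
  exact ⟨g * g', by rw [mul_pow, hg, hg', one_mul], r, hr, by ring⟩

lemma Cset_mul_iff {g ξ : ℂ} (hg : g ^ 4 = 1) : g * ξ ∈ Cset ↔ ξ ∈ Cset := by
  refine ⟨fun h => ?_, Cset_mul hg⟩
  have h2 := Cset_mul (g := g⁻¹) (by rw [inv_pow, hg, inv_one]) h
  rwa [inv_mul_cancel_left₀ (g4_ne hg)] at h2

lemma cor_mem {r : ℝ} (h1 : -5 < r) (h2 : r < 5) : cor r ∈ Cset := by
  rcases le_or_gt r 3 with h | h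
  · rcases le_or_gt (-3) r with h' | h'
    · exact ⟨1, by norm_num, r, ⟨h', h⟩, by ring⟩
    · exact ⟨-Complex.I, by rw [Even.neg_pow (by decide)]; exact Complex.I_pow_four, r + 6,
        ⟨by linarith, by linarith⟩, cor_prev h1.le (by linarith)⟩
  · exact ⟨Complex.I, Complex.I_pow_four, r - 6, ⟨by linarith, by linarith⟩,
      cor_next (by linarith) h2.le⟩

lemma B_gt_one {r : ℝ} (h : 1 < B r) : 1 < r := by
  by_contra hcon
  push Not at hcon
  have := B_mono hcon
  rw [B_of_ge (le_refl (1 : ℝ))] at this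
  linarith

lemma D_lt_neg_one {r : ℝ} (h : D r < -1) : r < -1 := by
  by_contra hcon
  push Not at hcon
  have := D_mono hcon
  rw [D_of_le (le_refl (-1 : ℝ))] at this
  linarith

/-- On the region `W0` the curve is the corner curve. -/
lemma Cset_W0 {ξ : ℂ} (h : ξ ∈ Cset) (hW : ξ ∈ W0) :
    ξ = cor (pr ξ) ∧ -5 < pr ξ ∧ pr ξ < 5 := by
  obtain ⟨g, hg, r, hr, rfl⟩ := h
  rcases g4 hg with rfl | rfl | rfl | rfl
  · rw [one_mul] at hW ⊢
    rw [pr_cor]
    exact ⟨rfl, of_cor_mem_W0 hW⟩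
  · have h1 : D r < -1 := by
      have := hW.1
      simp at this
      linarith
    have h2 := D_lt_neg_one h1
    have h3 : Complex.I * cor r = cor (r + 6) := by
      rw [cor_next (r := r + 6) (by linarith [hr.1]) (by linarith)]
      congr 2; ring
    rw [h3, pr_cor]
    exact ⟨rfl, by linarith [hr.1], by linarith⟩
  · exfalso
    have h1 := hW.1
    have h2 := hW.2
    simp at h1 h2
    have h3 := B_gt_one (r := r) (by linarith)
    have h4 := D_lt_neg_one (r := r) (by linarith)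
    linarith
  · have h1 : 1 < B r := by
      have := hW.2
      simp at this
      linarith
    have h2 := B_gt_one h1
    have h3 : -Complex.I * cor r = cor (r - 6) := by
      rw [cor_prev (r := r - 6) (by linarith) (by linarith [hr.2])]
      congr 2; ring
    rw [h3, pr_cor]
    exact ⟨rfl, by linarith, by linarith [hr.2]⟩

lemma cor_contDiff_re : ContDiff ℝ ∞ fun r => (cor r).re := contDiff_const.add B_contDiff
lemma cor_contDiff_im : ContDiff ℝ ∞ fun r => (cor r).im := contDiff_const.sub D_contDiff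

lemma cor_contDiff : ContDiff ℝ ∞ cor := by
  have h : cor = fun r => ((-3 + B r : ℝ) : ℂ) + ((-3 - D r : ℝ) : ℂ) * Complex.I := by
    funext r
    apply Complex.ext <;> simp
  rw [h]
  exact (Complex.ofRealCLM.contDiff.comp (contDiff_const.add B_contDiff)).add
    ((Complex.ofRealCLM.contDiff.comp (contDiff_const.sub D_contDiff)).mul contDiff_const)

lemma cor_cont : Continuous cor := cor_contDiff.continuous

lemma Cset_compact : IsCompact Cset := by
  have h : Cset = ⋃ g ∈ ({1, Complex.I, -1, -Complex.I} : Set ℂ),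
      (fun r => g * cor r) '' Icc (-3 : ℝ) 3 := by
    ext ξ
    simp only [Cset, Set.mem_iUnion, Set.mem_image, Set.mem_insert_iff, Set.mem_singleton_iff,
      exists_prop]
    constructor
    · rintro ⟨g, hg, r, hr, rfl⟩
      exact ⟨g, g4 hg, r, hr, rfl⟩
    · rintro ⟨g, hg, r, hr, rfl⟩
      refine ⟨g, ?_, r, hr, rfl⟩
      rcases hg with rfl | rfl | rfl | rfl
      · norm_num
      · exact Complex.I_pow_four
      · norm_num
      · rw [Even.neg_pow (by decide)]; exact Complex.I_pow_four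
  rw [h]
  apply Set.Finite.isCompact_biUnion
  · simp
  · intro g _
    exact isCompact_Icc.image (continuous_const.mul cor_cont)

/-- an arc of the curve -/
def arc (g : ℂ) (s t : ℝ) : Set ℂ := (fun r => g * cor r) '' Icc s t

lemma arc_preconn (g : ℂ) (s t : ℝ) : IsPreconnected (arc g s t) :=
  isPreconnected_Icc.image _ (continuous_const.mul cor_cont).continuousOn

lemma arc_mem {g : ℂ} {s t r : ℝ} (h1 : s ≤ r) (h2 : r ≤ t) : g * cor r ∈ arc g s t :=
  ⟨r, ⟨h1, h2⟩, rfl⟩

lemma cor_three : cor 3 = Complex.I * cor (-3) := by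
  rw [cor_next (by norm_num) (by norm_num)]
  norm_num

/-- Superlevel sets of linear functions on the curve, first quadrant case. -/
lemma super_aux (α β c : ℝ) (hα : 0 ≤ α) (hβ : 0 ≤ β) :
    IsPreconnected {ξ | ξ ∈ Cset ∧ c ≤ α * ξ.re + β * ξ.im} := by
  obtain ⟨r₀, hr₀, hp⟩ : ∃ r₀ ∈ Icc (-1 : ℝ) 1, (α + β) * p r₀ = β := by
    have hc : ContinuousOn (fun r => (α + β) * p r) (Icc (-1 : ℝ) 1) :=
      fun t _ => ((hasDerivAt_p t).continuousAt.const_mul _).continuousWithinAt
    have := intermediate_value_Icc (by norm_num : (-1 : ℝ) ≤ 1) hc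
    have h2 : β ∈ Icc ((α + β) * p (-1)) ((α + β) * p 1) := by
      rw [p_of_le (le_refl _), p_one]
      constructor <;> linarith
    obtain ⟨r, hr, h⟩ := this h2
    exact ⟨r, hr, h⟩
  have hr1 := hr₀.1
  have hr2 := hr₀.2
  -- the height functions on the four arcs
  set F1 : ℝ → ℝ := fun r => α * (-3 + B r) + β * (-3 - D r) with hF1
  set F2 : ℝ → ℝ := fun r => α * (3 + D r) + β * (-3 + B r) with hF2
  have hd1 : ∀ r, HasDerivAt F1 ((α + β) * p r - β) r := by
    intro r
    have h : HasDerivAt F1 (α * (p r) + β * (-(1 - p r))) r :=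
      (((hasDerivAt_B r).const_add (-3)).const_mul α).add
        (((hasDerivAt_D r).const_sub (-3)).const_mul β)
    have h2 : α * (p r) + β * (-(1 - p r)) = (α + β) * p r - β := by ring
    rwa [h2] at h
  have hd2 : ∀ r, HasDerivAt F2 (α * (1 - p r) + β * p r) r := by
    intro r
    exact (((hasDerivAt_D r).const_add 3).const_mul α).add
        (((hasDerivAt_B r).const_add (-3)).const_mul β)
  have hmono2 : Monotone F2 := by
    apply monotone_of_deriv_nonneg (fun r => (hd2 r).differentiableAt)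
    intro r
    rw [(hd2 r).deriv]
    have := p_nonneg r
    have := p_le_one r
    have : 0 ≤ 1 - p r := by linarith
    positivity
  have hmono1 : MonotoneOn F1 (Ici r₀) := by
    apply monotoneOn_of_deriv_nonneg (convex_Ici _)
    · exact fun t _ => (hd1 t).continuousAt.continuousWithinAt
    · exact fun t _ => (hd1 t).differentiableAt.differentiableWithinAt
    · intro t ht
      rw [interior_Ici] at ht
      rw [(hd1 t).deriv]
      have h1 := mul_le_mul_of_nonneg_left (p_mono (le_of_lt ht)) (add_nonneg hα hβ)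
      linarith
  have hanti1 : AntitoneOn F1 (Iic r₀) := by
    apply antitoneOn_of_deriv_nonpos (convex_Iic _)
    · exact fun t _ => (hd1 t).continuousAt.continuousWithinAt
    · exact fun t _ => (hd1 t).differentiableAt.differentiableWithinAt
    · intro t ht
      rw [interior_Iic] at ht
      rw [(hd1 t).deriv]
      have h1 := mul_le_mul_of_nonneg_left (p_mono (le_of_lt ht)) (add_nonneg hα hβ)
      linarith
  have v1 : ∀ r, α * ((1 : ℂ) * cor r).re + β * ((1 : ℂ) * cor r).im = F1 r := by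
    intro r
    simp only [hF1, one_mul, cor_re, cor_im]
  have v2 : ∀ r, α * (Complex.I * cor r).re + β * (Complex.I * cor r).im = F2 r := by
    intro r
    simp only [Complex.mul_re, Complex.mul_im, Complex.I_re, Complex.I_im, cor_re, cor_im, hF2]
    ring
  have v3 : ∀ r, α * ((-1 : ℂ) * cor r).re + β * ((-1 : ℂ) * cor r).im = - F1 r := by
    intro r
    simp only [Complex.mul_re, Complex.mul_im, Complex.neg_re, Complex.neg_im, Complex.one_re,
      Complex.one_im, cor_re, cor_im, hF1]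
    ring
  have v4 : ∀ r, α * (-Complex.I * cor r).re + β * (-Complex.I * cor r).im = - F2 r := by
    intro r
    simp only [Complex.mul_re, Complex.mul_im, Complex.neg_re, Complex.neg_im, Complex.I_re,
      Complex.I_im, cor_re, cor_im, hF2]
    ring
  have F13 : F1 3 = F2 (-3) := by
    rw [← v1, ← v2, one_mul, cor_three]
  have F23 : F2 3 = -F1 (-3) := by
    rw [← v2, ← v3, cor_three, ← mul_assoc, Complex.I_mul_I]
  have hI4 : (-Complex.I) ^ 4 = 1 := by rw [Even.neg_pow (by decide)]; exact Complex.I_pow_four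
  -- arcs inside the superlevel set
  have sub1 : ∀ s t : ℝ, -3 ≤ s → t ≤ 3 → (∀ r, s ≤ r → r ≤ t → c ≤ F1 r) →
      arc 1 s t ⊆ {ξ | ξ ∈ Cset ∧ c ≤ α * ξ.re + β * ξ.im} := by
    rintro s t hs ht h _ ⟨r, hr, rfl⟩
    exact ⟨⟨1, by norm_num, r, ⟨hs.trans hr.1, hr.2.trans ht⟩, rfl⟩,
      (h r hr.1 hr.2).trans (v1 r).ge⟩
  have sub2 : ∀ s t : ℝ, -3 ≤ s → t ≤ 3 → (∀ r, s ≤ r → r ≤ t → c ≤ F2 r) →
      arc Complex.I s t ⊆ {ξ | ξ ∈ Cset ∧ c ≤ α * ξ.re + β * ξ.im} := by
    rintro s t hs ht h _ ⟨r, hr, rfl⟩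
    exact ⟨⟨Complex.I, Complex.I_pow_four, r, ⟨hs.trans hr.1, hr.2.trans ht⟩, rfl⟩,
      (h r hr.1 hr.2).trans (v2 r).ge⟩
  have sub3 : ∀ s t : ℝ, -3 ≤ s → t ≤ 3 → (∀ r, s ≤ r → r ≤ t → c ≤ -F1 r) →
      arc (-1) s t ⊆ {ξ | ξ ∈ Cset ∧ c ≤ α * ξ.re + β * ξ.im} := by
    rintro s t hs ht h _ ⟨r, hr, rfl⟩
    exact ⟨⟨-1, by norm_num, r, ⟨hs.trans hr.1, hr.2.trans ht⟩, rfl⟩,
      (h r hr.1 hr.2).trans (v3 r).ge⟩
  have sub4 : ∀ s t : ℝ, -3 ≤ s → t ≤ 3 → (∀ r, s ≤ r → r ≤ t → c ≤ -F2 r) →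
      arc (-Complex.I) s t ⊆ {ξ | ξ ∈ Cset ∧ c ≤ α * ξ.re + β * ξ.im} := by
    rintro s t hs ht h _ ⟨r, hr, rfl⟩
    exact ⟨⟨-Complex.I, hI4, r, ⟨hs.trans hr.1, hr.2.trans ht⟩, rfl⟩,
      (h r hr.1 hr.2).trans (v4 r).ge⟩
  -- the two final arcs towards the maximum
  have up3 : c ≤ -F1 (-3) → ∀ r, (-3 : ℝ) ≤ r → r ≤ r₀ → c ≤ -F1 r := by
    intro h r h1 h2
    have := hanti1 (a := -3) (b := r) (by simp; linarith) h2 h1
    linarith
  have down3 : c ≤ -F1 3 → ∀ r, r₀ ≤ r → r ≤ 3 → c ≤ -F1 r := by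
    intro h r h1 h2
    have := hmono1 (a := r) (b := 3) h1 (by simp; linarith) h2
    linarith
  have c1 : Complex.I * cor 3 = -1 * cor (-3) := by
    rw [cor_three, ← mul_assoc, Complex.I_mul_I]
  have c2 : (1 : ℂ) * cor (-3) = -Complex.I * cor 3 := by
    rw [cor_three]
    have : -Complex.I * (Complex.I * cor (-3)) = -(Complex.I * Complex.I) * cor (-3) := by ring
    rw [this, Complex.I_mul_I]
    ring
  have c3 : -Complex.I * cor (-3) = -1 * cor 3 := by
    rw [cor_three]; ring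
  apply isPreconnected_of_forall (-1 * cor r₀)
  rintro _ ⟨⟨g, hg, r, hr, rfl⟩, hy⟩
  rcases g4 hg with rfl | rfl | rfl | rfl
  · rw [v1] at hy
    rcases le_total r₀ r with h | h
    · have k1 : ∀ s, r ≤ s → s ≤ 3 → c ≤ F1 s := fun s h1 h2 =>
        hy.trans (hmono1 (a := r) (b := s) h (h.trans h1) h1)
      have k2 : ∀ s, (-3 : ℝ) ≤ s → s ≤ 3 → c ≤ F2 s := fun s h1 h2 =>
        ((k1 3 hr.2 (le_refl _)).trans F13.le).trans (hmono2 h1)
      have k3 : c ≤ -F1 (-3) := by rw [← F23]; exact k2 3 (by norm_num) (le_refl _)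
      refine ⟨arc 1 r 3 ∪ (arc Complex.I (-3) 3 ∪ arc (-1) (-3) r₀),
        union_subset (sub1 r 3 hr.1 (le_refl _) k1) (union_subset
          (sub2 (-3) 3 (le_refl _) (le_refl _) k2)
          (sub3 (-3) r₀ (le_refl _) (by linarith) (up3 k3))),
        Or.inr (Or.inr (arc_mem (by linarith) (le_refl _))),
        Or.inl (arc_mem (le_refl _) hr.2), ?_⟩
      apply IsPreconnected.union (1 * cor 3) (arc_mem hr.2 (le_refl _))
      · left; rw [one_mul, cor_three]; exact arc_mem (le_refl _) (by norm_num)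
      · exact arc_preconn _ _ _
      · apply IsPreconnected.union (Complex.I * cor 3) (arc_mem (by norm_num) (le_refl _))
        · rw [c1]; exact arc_mem (le_refl _) (by linarith)
        · exact arc_preconn _ _ _
        · exact arc_preconn _ _ _
    · have k1 : ∀ s, (-3 : ℝ) ≤ s → s ≤ r → c ≤ F1 s := fun s h1 h2 =>
        hy.trans (hanti1 (a := s) (b := r) (h2.trans h) h h2)
      have k0 : c ≤ -F2 3 := by
        rw [F23, neg_neg]; exact k1 (-3) (le_refl _) hr.1
      have k2 : ∀ s, (-3 : ℝ) ≤ s → s ≤ 3 → c ≤ -F2 s := fun s h1 h2 => by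
        have := hmono2 h2
        linarith
      have k3 : c ≤ -F1 3 := by rw [F13]; exact k2 (-3) (le_refl _) (by norm_num)
      refine ⟨arc 1 (-3) r ∪ (arc (-Complex.I) (-3) 3 ∪ arc (-1) r₀ 3),
        union_subset (sub1 (-3) r (le_refl _) hr.2 k1) (union_subset
          (sub4 (-3) 3 (le_refl _) (le_refl _) k2)
          (sub3 r₀ 3 (by linarith) (le_refl _) (down3 k3))),
        Or.inr (Or.inr (arc_mem (le_refl _) (by linarith))),
        Or.inl (arc_mem hr.1 (le_refl _)), ?_⟩
      apply IsPreconnected.union (1 * cor (-3)) (arc_mem (le_refl _) hr.1)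
      · left; rw [c2]; exact arc_mem (by norm_num) (le_refl _)
      · exact arc_preconn _ _ _
      · apply IsPreconnected.union (-Complex.I * cor (-3)) (arc_mem (le_refl _) (by norm_num))
        · rw [c3]; exact arc_mem (by linarith) (le_refl _)
        · exact arc_preconn _ _ _
        · exact arc_preconn _ _ _
  · rw [v2] at hy
    have k2 : ∀ s, r ≤ s → s ≤ 3 → c ≤ F2 s := fun s h1 h2 => hy.trans (hmono2 h1)
    have k3 : c ≤ -F1 (-3) := by rw [← F23]; exact k2 3 hr.2 (le_refl _)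
    refine ⟨arc Complex.I r 3 ∪ arc (-1) (-3) r₀,
      union_subset (sub2 r 3 hr.1 (le_refl _) k2)
        (sub3 (-3) r₀ (le_refl _) (by linarith) (up3 k3)),
      Or.inr (arc_mem (by linarith) (le_refl _)),
      Or.inl (arc_mem (le_refl _) hr.2), ?_⟩
    apply IsPreconnected.union (Complex.I * cor 3) (arc_mem hr.2 (le_refl _))
    · rw [c1]; exact arc_mem (le_refl _) (by linarith)
    · exact arc_preconn _ _ _
    · exact arc_preconn _ _ _
  · rw [v3] at hy
    rcases le_total r r₀ with h | h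
    · refine ⟨arc (-1) r r₀, sub3 r r₀ hr.1 (by linarith) ?_, arc_mem h (le_refl _),
        arc_mem (le_refl _) h, arc_preconn _ _ _⟩
      intro s h1 h2
      have := hanti1 (a := r) (b := s) h h2 h1
      linarith
    · refine ⟨arc (-1) r₀ r, sub3 r₀ r (by linarith) hr.2 ?_, arc_mem (le_refl _) h,
        arc_mem h (le_refl _), arc_preconn _ _ _⟩
      intro s h1 h2
      have := hmono1 (a := s) (b := r) h1 h h2
      linarith
  · rw [v4] at hy
    have k2 : ∀ s, (-3 : ℝ) ≤ s → s ≤ r → c ≤ -F2 s := fun s h1 h2 => by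
      have := hmono2 h2
      linarith
    have k3 : c ≤ -F1 3 := by rw [F13]; exact k2 (-3) (le_refl _) hr.1
    refine ⟨arc (-Complex.I) (-3) r ∪ arc (-1) r₀ 3,
      union_subset (sub4 (-3) r (le_refl _) hr.2 k2)
        (sub3 r₀ 3 (by linarith) (le_refl _) (down3 k3)),
      Or.inr (arc_mem (le_refl _) (by linarith)),
      Or.inl (arc_mem hr.1 (le_refl _)), ?_⟩
    apply IsPreconnected.union (-Complex.I * cor (-3)) (arc_mem (le_refl _) hr.1)
    · rw [c3]; exact arc_mem (by linarith) (le_refl _)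
    · exact arc_preconn _ _ _
    · exact arc_preconn _ _ _

/-- Superlevel sets of linear functions on the curve are preconnected. -/
lemma super (α β c : ℝ) : IsPreconnected {ξ | ξ ∈ Cset ∧ c ≤ α * ξ.re + β * ξ.im} := by
  -- rotate into the first quadrant
  obtain ⟨g, hg, hα, hβ⟩ : ∃ g : ℂ, g ^ 4 = 1 ∧ 0 ≤ α * g.re + β * g.im ∧
      0 ≤ β * g.re - α * g.im := by
    rcases le_total 0 α with h1 | h1 <;> rcases le_total 0 β with h2 | h2
    · exact ⟨1, by norm_num, by simpa using h1, by simpa using h2⟩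
    · exact ⟨-Complex.I, by rw [Even.neg_pow (by decide)]; exact Complex.I_pow_four,
        by simpa using h2, by simpa using h1⟩
    · exact ⟨Complex.I, Complex.I_pow_four, by simpa using h2, by simpa using h1⟩
    · exact ⟨-1, by norm_num, by simpa using h1, by simpa using h2⟩
  have h := super_aux (α * g.re + β * g.im) (β * g.re - α * g.im) c hα hβ
  have himg : {ξ : ℂ | ξ ∈ Cset ∧ c ≤ α * ξ.re + β * ξ.im} = (fun ξ => g * ξ) ''
      {ξ | ξ ∈ Cset ∧ c ≤ (α * g.re + β * g.im) * ξ.re + (β * g.re - α * g.im) * ξ.im} := by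
    ext ξ
    constructor
    · rintro ⟨h1, h2⟩
      refine ⟨g⁻¹ * ξ, ⟨?_, ?_⟩, ?_⟩
      · rw [← Cset_mul_iff hg, mul_inv_cancel_left₀ (g4_ne hg)]; exact h1
      · have e : ξ = g * (g⁻¹ * ξ) := (mul_inv_cancel_left₀ (g4_ne hg) ξ).symm
        rw [e] at h2
        simp only [Complex.mul_re, Complex.mul_im] at h2 ⊢
        linarith
      · exact mul_inv_cancel_left₀ (g4_ne hg) ξ
    · rintro ⟨η, ⟨h1, h2⟩, rfl⟩
      refine ⟨Cset_mul hg h1, ?_⟩
      simp only [Complex.mul_re, Complex.mul_im]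
      linarith
  rw [himg]
  exact h.image _ (continuous_const.mul continuous_id).continuousOn

end

end Pool.Agent.Lib.MP_d43ca8_gt
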