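import Pool.Agent.Lib.MP_d43ca8_gt.Immerse

set_option autoImplicit false

/-!
Transfer to the standard Euclidean spaces.
-/

namespace Pool.Agent.Lib.MP_d43ca8_gt

open Set Real Topology
open scoped ContDiff Manifold

noncomputable section

/-- change of the model space -/
def Patch.trans {E V V' : Type*} [NormedAddCommGroup E] [NormedSpace ℝ E]
    [NormedAddCommGroup V] [NormedSpace ℝ V] [NormedAddCommGroup V'] [NormedSpace ℝ V']
    {M : Set E} (P : Patch E V M) (e : V ≃L[ℝ] V') : Patch E V' M where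
  W := P.W
  U := e.symm ⁻¹' P.U
  pi := fun m => e (P.pi m)
  psi := fun x => P.psi (e.symm x)
  isOpen_W := P.isOpen_W
  isOpen_U := P.isOpen_U.preimage e.symm.continuous
  contDiffOn_pi := e.contDiff.comp_contDiffOn P.contDiffOn_pi
  contDiffOn_psi := P.contDiffOn_psi.comp e.symm.contDiff.contDiffOn (fun _ hx => hx)
  psi_mem := fun x hx => P.psi_mem _ hx
  psi_mem_W := fun x hx => P.psi_mem_W _ hx
  pi_mem := fun m hm hW => by
    rw [Set.mem_preimage, e.symm_apply_apply]
    exact P.pi_mem m hm hW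
  left := fun x hx => by rw [P.left _ hx, e.apply_symm_apply]
  right := fun m hm hW => by rw [e.symm_apply_apply, P.right m hm hW]

/-- the plane as a Euclidean space -/
def e2 : ℂ ≃L[ℝ] EuclideanSpace ℝ (Fin 2) :=
  Complex.orthonormalBasisOneI.repr.toContinuousLinearEquiv

/-- four-space -/
def e4 : (ℂ × ℂ) →L[ℝ] EuclideanSpace ℝ (Fin 4) :=
  LinearMap.toContinuousLinearMap
    { toFun := fun x => !₂[x.1.re, x.1.im, x.2.re, x.2.im]
      map_add' := by
        intro x y
        ext i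
        fin_cases i <;> simp
      map_smul' := by
        intro c x
        ext i
        fin_cases i <;> simp }

lemma e4_apply (x : ℂ × ℂ) : e4 x = !₂[x.1.re, x.1.im, x.2.re, x.2.im] := rfl

lemma e4_injective : Function.Injective e4 := by
  intro x y h
  rw [e4_apply, e4_apply] at h
  have h0 := congrArg (fun z : EuclideanSpace ℝ (Fin 4) => z 0) h
  have h1 := congrArg (fun z : EuclideanSpace ℝ (Fin 4) => z 1) h
  have h2 := congrArg (fun z : EuclideanSpace ℝ (Fin 4) => z 2) h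
  have h3 := congrArg (fun z : EuclideanSpace ℝ (Fin 4) => z 3) h
  simp at h0 h1 h2 h3
  exact Prod.ext (Complex.ext h0 h1) (Complex.ext h2 h3)

lemma e4_surjective : Function.Surjective e4 := by
  intro z
  refine ⟨(⟨z 0, z 1⟩, ⟨z 2, z 3⟩), ?_⟩
  rw [e4_apply]
  ext i
  fin_cases i <;> rfl

lemma inner_e4 (v : EuclideanSpace ℝ (Fin 4)) (x : ℂ × ℂ) :
    inner ℝ v (e4 x) = lin (v 0) (v 1) (v 2) (v 3) x := by
  rw [e4_apply]
  unfold lin
  simp [PiLp.inner_apply, Fin.sum_univ_four]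
  ring

/-- the projection as a continuous linear map -/
def prjL : Amb →L[ℝ] (ℂ × ℂ) :=
  (ContinuousLinearMap.fst ℝ ℂ (ℂ × ℝ × ℂ)).prod
    ((ContinuousLinearMap.fst ℝ ℂ (ℝ × ℂ)).comp (ContinuousLinearMap.snd ℝ ℂ (ℂ × ℝ × ℂ)))

lemma prjL_apply (m : Amb) : prjL m = prj m := rfl

/-- the projection to four-space -/
def L4 : Amb →L[ℝ] EuclideanSpace ℝ (Fin 4) := e4.comp prjL

lemma L4_apply (m : Amb) : L4 m = e4 (prj m) := rfl

/-- the patches in the Euclidean model -/
def patches2 (i : Idx) : Patch Amb (EuclideanSpace ℝ (Fin 2)) Surf := (patches i).trans e2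

lemma patches2_cov : ∀ m ∈ Surf, ∃ i, m ∈ (patches2 i).W := patches_cov

lemma Surf_nonempty : Surf.Nonempty := ⟨_, Or.inr ⟨1, by
  constructor <;> norm_num, rfl⟩⟩

lemma patches2_det (i j : Idx) {y : EuclideanSpace ℝ (Fin 2)} (hy : y ∈ (patches2 i).U)
    (hy' : (patches2 i).psi y ∈ (patches2 j).W) :
    0 < (fderiv ℝ (fun z => (patches2 j).pi ((patches2 i).psi z)) y).det := by
  have h := patches_det i j (y := e2.symm y) hy hy'
  have e : (fun z => (patches2 j).pi ((patches2 i).psi z)) =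
      e2 ∘ ((fun z => (patches j).pi ((patches i).psi z)) ∘ e2.symm) := rfl
  rw [e, e2.comp_fderiv, e2.symm.comp_right_fderiv]
  have hdet : ((e2 : ℂ →L[ℝ] EuclideanSpace ℝ (Fin 2)) ∘SL
      ((fderiv ℝ (fun z => (patches j).pi ((patches i).psi z)) (e2.symm y)) ∘SL
        (e2.symm : EuclideanSpace ℝ (Fin 2) →L[ℝ] ℂ))).det =
      (fderiv ℝ (fun z => (patches j).pi ((patches i).psi z)) (e2.symm y)).det :=
    LinearMap.det_conj _ e2.toLinearEquiv
  rw [hdet]
  exact h

lemma psi_diff (i : Idx) {z : ℂ} (hz : z ∈ (patches i).U) :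
    DifferentiableAt ℝ (fun z => prj ((patches i).psi z)) z := by
  have h1 : ContDiffAt ℝ ∞ (patches i).psi z :=
    (patches i).contDiffOn_psi.contDiffAt ((patches i).isOpen_U.mem_nhds hz)
  have h2 : DifferentiableAt ℝ (patches i).psi z := h1.differentiableAt (by norm_num)
  exact prjL.differentiableAt.comp z h2

lemma fderiv_L4 (i : Idx) {y : EuclideanSpace ℝ (Fin 2)} (hy : y ∈ (patches2 i).U) :
    fderiv ℝ (fun y => L4 ((patches2 i).psi y)) y =
      e4 ∘SL ((fderiv ℝ (fun z => prj ((patches i).psi z)) (e2.symm y)) ∘SL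
        (e2.symm : EuclideanSpace ℝ (Fin 2) →L[ℝ] ℂ)) := by
  have h1 : HasFDerivAt (fun z => prj ((patches i).psi z))
      (fderiv ℝ (fun z => prj ((patches i).psi z)) (e2.symm y)) (e2.symm y) :=
    (psi_diff i hy).hasFDerivAt
  have h2 := h1.comp y e2.symm.hasFDerivAt
  have h3 := e4.hasFDerivAt.comp y h2
  exact h3.fderiv

lemma L4_injective (i : Idx) {y : EuclideanSpace ℝ (Fin 2)} (hy : y ∈ (patches2 i).U) :
    Function.Injective (fderiv ℝ (fun y => L4 ((patches2 i).psi y)) y) := by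
  rw [fderiv_L4 i hy]
  exact e4_injective.comp ((patches_immersion i hy).comp e2.symm.injective)

lemma Surf_preconnected : IsPreconnected Surf := by
  have h := Surf_super 0 0 0 0 0
  have e : {m | m ∈ Surf ∧ (0 : ℝ) ≤ lin 0 0 0 0 (prj m)} = Surf := by
    ext m
    simp [lin]
  rwa [e] at h

lemma Surf_half (v : EuclideanSpace ℝ (Fin 4)) (c : ℝ) :
    IsPreconnected ((fun m : Surf => L4 m.1) ⁻¹' {x | c ≤ inner ℝ v x}) := by
  rw [← Topology.IsInducing.subtypeVal.isPreconnected_image]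
  have e : (Subtype.val '' ((fun m : Surf => L4 m.1) ⁻¹' {x | c ≤ inner ℝ v x})) =
      {m | m ∈ Surf ∧ c ≤ lin (v 0) (v 1) (v 2) (v 3) (prj m)} := by
    ext m
    constructor
    · rintro ⟨m', h, rfl⟩
      refine ⟨m'.2, ?_⟩
      have h' : c ≤ inner ℝ v (L4 m'.1) := h
      rwa [L4_apply, inner_e4] at h'
    · rintro ⟨h1, h2⟩
      refine ⟨⟨m, h1⟩, ?_, rfl⟩
      change c ≤ inner ℝ v (L4 m)
      rwa [L4_apply, inner_e4]
  rw [e]
  exact Surf_super _ _ _ _ _

/-- a base point -/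
def base : Surf := ⟨Surf_nonempty.some, Surf_nonempty.some_mem⟩

/-- the charted space structure of the surface -/
@[reducible] def surfCharted : ChartedSpace (EuclideanSpace ℝ (Fin 2)) Surf :=
  patchCharted patches2 patches2_cov base

lemma mem_W_of_Ann {w : ℂ} (hw : w ∈ Ann) {i : Idx} (hi : psT w ∈ (patches2 i).W) :
    i = none := by
  match i, hi with
  | none, _ => rfl
  | some (g, h), hi =>
    exfalso
    obtain ⟨_, _, h3⟩ := hi
    rcases not_Ann h3 with h | h
    · exact absurd hw.2 (not_le.mpr h)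
    · exact absurd hw.1 (not_le.mpr h)

lemma mfderiv_T {w : ℂ} (hw : w ∈ Ann) (m : Surf) (hm : m.1 = psT w) :
    letI := surfCharted
    mfderiv 𝓘(ℝ, EuclideanSpace ℝ (Fin 2)) 𝓘(ℝ, EuclideanSpace ℝ (Fin 4))
      (fun m : Surf => L4 m.1) m =
      e4 ∘SL ((fderiv ℝ (fun w => prj (psT w)) w) ∘SL
        (e2.symm : EuclideanSpace ℝ (Fin 2) →L[ℝ] ℂ)) := by
  obtain ⟨i, hi, h⟩ := (patch_contMDiff patches2 patches2_cov base L4).2 m
  have hi' : i = none := mem_W_of_Ann hw (by rw [← hm]; exact hi)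
  subst hi'
  have hU := (patches2 none).pi_mem m.1 m.2 hi
  have hpi : e2.symm ((patches2 none).pi m.1) = w := by
    have : (patches2 none).pi m.1 = e2 (piT m.1) := rfl
    rw [this, e2.symm_apply_apply, hm, piT_psT (Ann_UT hw)]
  rw [fderiv_L4 none hU, hpi] at h
  exact h

end

end Pool.Agent.Lib.MP_d43ca8_gt
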