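import Pool.Agent.Lib.MP_d43ca8_gt.Base

set_option autoImplicit false

/-!
The handle: height functions on the circle-foliated annulus are quasi-convex along the circles;
self-intersections of the annulus.
-/

namespace Pool.Agent.Lib.MP_d43ca8_gt

open Set Real
open scoped ContDiff

noncomputable section

/-- cross product of `(B, D)` at two parameters -/
def om (r s : ℝ) : ℝ := B r * D s - D r * B s

lemma om_self (r : ℝ) : om r r = 0 := by unfold om; ring

lemma om_neg (r s : ℝ) : om (-r) (-s) = om s r := by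
  unfold om; rw [B_neg, D_neg, B_neg, D_neg]; ring

lemma hasDerivAt_om (s r : ℝ) : HasDerivAt (fun r => om r s) (p r * s - B s) r := by
  have h : HasDerivAt (fun r => om r s) (p r * D s - (1 - p r) * B s) r :=
    ((hasDerivAt_B r).mul_const (D s)).sub ((hasDerivAt_D r).mul_const (B s))
  have h2 : p r * D s - (1 - p r) * B s = p r * s - B s := by
    have := B_add_D s
    have h3 : D s = s - B s := rfl
    rw [h3]; ring
  rwa [h2] at h

lemma om_eq (r s : ℝ) : om r s = r * (p r * s - B s) + q r * s := by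
  unfold om
  rw [D_eq r]
  have h3 : D s = s - B s := rfl
  have h4 : B r = r * p r + q r := rfl
  rw [h3, h4]; ring

lemma om_deriv_neg {r s : ℝ} (h1 : -1 < r) (h2 : r < s) (h3 : s ≤ 1) : p r * s - B s < 0 := by
  rcases le_or_gt s 0 with h | h
  · have := B_pos (r := s) (by linarith)
    nlinarith [p_nonneg r]
  · have hp : p r < p s := p_strictMonoOn ⟨h1.le, by linarith⟩ ⟨by linarith, h3⟩ h2
    have hB : B s = s * p s + q s := rfl
    have := q_nonneg s
    nlinarith

lemma om_pos_aux {r s : ℝ} (h1 : -1 ≤ r) (h2 : r < s) (h3 : s ≤ 1) : 0 < om r s := by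
  have hanti : StrictAntiOn (fun r => om r s) (Icc (-1) s) := by
    apply strictAntiOn_of_deriv_neg (convex_Icc _ _)
    · exact fun t _ => (hasDerivAt_om s t).continuousAt.continuousWithinAt
    · intro t ht
      rw [interior_Icc] at ht
      rw [(hasDerivAt_om s t).deriv]
      exact om_deriv_neg ht.1 ht.2 h3
  have := hanti ⟨h1, h2.le⟩ ⟨by linarith, le_refl s⟩ h2
  simp only [om_self] at this
  exact this

lemma om_pos {r s : ℝ} (h : r < s) (h1 : -1 < s) (h2 : r < 1) : 0 < om r s := by
  rcases le_total r (-1) with h3 | h3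
  · unfold om
    rw [B_of_le h3, D_of_le h3]
    have := B_pos h1
    nlinarith
  rcases le_total 1 s with h4 | h4
  · unfold om
    rw [B_of_ge h4, D_of_ge h4]
    have := D_neg_of_lt h2
    nlinarith
  · exact om_pos_aux h3 h h4

/-- `om · s / ...` is convex as a function of `a`. -/
lemma chord {r₁ r s : ℝ} (h1 : -1 ≤ r₁) (h2 : r₁ < r) (h3 : r < s) (h4 : s ≤ 1) :
    om r s * (a s - a r₁) ≤ om r₁ s * (a s - a r) := by
  -- monotonicity of the ratio of derivatives
  have hmono : MonotoneOn (fun t => (p t * s - B s) / q t) (Ioo (-1) s) := by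
    have hd : ∀ t ∈ Ioo (-1) s, HasDerivAt (fun t => (p t * s - B s) / q t)
        ((e t * s * q t - (p t * s - B s) * (-(t * e t))) / (q t) ^ 2) t := by
      intro t ht
      exact (((hasDerivAt_p t).mul_const s).sub_const (B s)).div (hasDerivAt_q t)
        (q_pos ht.1 (by linarith [ht.2])).ne'
    apply monotoneOn_of_deriv_nonneg (convex_Ioo _ _)
    · exact fun t ht => (hd t ht).continuousAt.continuousWithinAt
    · intro t ht
      rw [interior_Ioo] at ht
      exact (hd t ht).differentiableAt.differentiableWithinAt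
    · intro t ht
      rw [interior_Ioo] at ht
      rw [(hd t ht).deriv]
      have h5 : e t * s * q t - (p t * s - B s) * (-(t * e t)) = e t * om t s := by
        rw [om_eq]; ring
      rw [h5]
      exact div_nonneg (mul_nonneg (e_nonneg t) (om_pos_aux ht.1.le ht.2 h4).le) (sq_nonneg _)
  obtain ⟨ξ, hξ, e1⟩ := exists_ratio_deriv_eq_ratio_slope a h2
    (fun t _ => (hasDerivAt_a t).continuousAt.continuousWithinAt)
    (fun t _ => (hasDerivAt_a t).differentiableAt.differentiableWithinAt) (fun t => om t s)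
    (fun t _ => (hasDerivAt_om s t).continuousAt.continuousWithinAt)
    (fun t _ => (hasDerivAt_om s t).differentiableAt.differentiableWithinAt)
  obtain ⟨η, hη, e2⟩ := exists_ratio_deriv_eq_ratio_slope a h3
    (fun t _ => (hasDerivAt_a t).continuousAt.continuousWithinAt)
    (fun t _ => (hasDerivAt_a t).differentiableAt.differentiableWithinAt) (fun t => om t s)
    (fun t _ => (hasDerivAt_om s t).continuousAt.continuousWithinAt)
    (fun t _ => (hasDerivAt_om s t).differentiableAt.differentiableWithinAt)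
  simp only [(hasDerivAt_a _).deriv, (hasDerivAt_om s _).deriv, om_self] at e1 e2
  have hqξ : 0 < q ξ := q_pos (by linarith [hξ.1]) (by linarith [hξ.2])
  have hqη : 0 < q η := q_pos (by linarith [hη.1]) (by linarith [hη.2])
  have hm := hmono (a := ξ) (b := η) ⟨by linarith [hξ.1], by linarith [hξ.2]⟩
    ⟨by linarith [hη.1], hη.2⟩ (by linarith [hξ.2, hη.1])
  simp only at hm
  rw [div_le_div_iff₀ hqξ hqη] at hm
  have hK := K_pos
  have ha1 : 0 < a r - a r₁ := by
    have := a_strictMonoOn ⟨h1, by linarith⟩ ⟨by linarith, by linarith⟩ h2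
    linarith
  have ha2 : 0 < a s - a r := by
    have := a_strictMonoOn ⟨by linarith, by linarith⟩ ⟨by linarith, h4⟩ h3
    linarith
  -- slopes
  set u := p ξ * s - B s
  set v := p η * s - B s
  -- e1 : (om r s - om r₁ s) * (K * q ξ) = (a r - a r₁) * u
  -- e2 : (0 - om r s) * (K * q η) = (a s - a r) * v
  have key : (om r s - om r₁ s) * (a s - a r) ≤ (0 - om r s) * (a r - a r₁) := by
    have hpos : 0 < (K * q ξ) * (K * q η) := by positivity
    rw [← sub_nonneg]
    have hh : ((0 - om r s) * (a r - a r₁) - (om r s - om r₁ s) * (a s - a r)) *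
        ((K * q ξ) * (K * q η)) = K * (a r - a r₁) * (a s - a r) * (v * q ξ - u * q η) := by
      linear_combination ((a r - a r₁) * (K * q ξ)) * e2 - ((a s - a r) * (K * q η)) * e1
    have hnn : 0 ≤ K * (a r - a r₁) * (a s - a r) * (v * q ξ - u * q η) := by
      have : 0 ≤ v * q ξ - u * q η := by linarith
      positivity
    rw [← hh] at hnn
    exact nonneg_of_mul_nonneg_left hnn hpos
  linarith

/-- Quasi-convexity of `A₀ + A₁ a + N(B, D)` for a sublinear `N`. -/
lemma quasi (A₀ A₁ : ℝ) (N : ℝ → ℝ → ℝ)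
    (hN : ∀ s t u₁ u₂ v₁ v₂ : ℝ, 0 ≤ s → 0 ≤ t →
      N (s * u₁ + t * v₁) (s * u₂ + t * v₂) ≤ s * N u₁ u₂ + t * N v₁ v₂)
    (hN0 : ∀ u v, 0 ≤ N u v) {r₁ r s : ℝ} (h1 : -1 ≤ r₁) (h2 : r₁ ≤ r) (h3 : r ≤ s)
    (h4 : s ≤ 1) :
    A₀ + A₁ * a r + N (B r) (D r) ≤
      max (A₀ + A₁ * a r₁ + N (B r₁) (D r₁)) (A₀ + A₁ * a s + N (B s) (D s)) := by
  rcases eq_or_lt_of_le h2 with rfl | h2
  · exact le_max_left _ _
  rcases eq_or_lt_of_le h3 with rfl | h3
  · exact le_max_right _ _
  have c1 := chord h1 h2 h3 h4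
  have c2 : om r₁ r * (a s - a r₁) ≤ om r₁ s * (a r - a r₁) := by
    have := chord (r₁ := -s) (r := -r) (s := -r₁) (by linarith) (by linarith) (by linarith)
      (by linarith)
    rw [om_neg, om_neg, a_neg, a_neg, a_neg] at this
    linarith
  have hω : 0 < om r₁ s := om_pos_aux h1 (h2.trans h3) h4
  have hω1 : 0 < om r s := om_pos_aux (by linarith) h3 h4
  have hω2 : 0 < om r₁ r := om_pos_aux h1 h2 (by linarith)
  have ha : 0 < a s - a r₁ := by
    have := a_strictMonoOn ⟨h1, by linarith⟩ ⟨by linarith, h4⟩ (h2.trans h3)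
    linarith
  set σ := om r s / om r₁ s with hσ
  set τ := om r₁ r / om r₁ s with hτ
  have hσ0 : 0 ≤ σ := by positivity
  have hτ0 : 0 ≤ τ := by positivity
  have hB : B r = σ * B r₁ + τ * B s := by
    rw [hσ, hτ]
    field_simp
    unfold om; ring
  have hD : D r = σ * D r₁ + τ * D s := by
    rw [hσ, hτ]
    field_simp
    unfold om; ring
  set S := (a s - a r) / (a s - a r₁) with hS
  set T := (a r - a r₁) / (a s - a r₁) with hT
  have hST : S + T = 1 := by
    rw [hS, hT]; field_simp; ring
  have hσS : σ ≤ S := by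
    rw [hσ, hS, div_le_div_iff₀ hω ha]; linarith
  have hτT : τ ≤ T := by
    rw [hτ, hT, div_le_div_iff₀ hω ha]; linarith
  have haST : a r = S * a r₁ + T * a s := by
    rw [hS, hT]; field_simp; ring
  have hS0 : 0 ≤ S := hσ0.trans hσS
  have hT0 : 0 ≤ T := hτ0.trans hτT
  have hsub := hN σ τ (B r₁) (D r₁) (B s) (D s) hσ0 hτ0
  rw [← hB, ← hD] at hsub
  have n1 := hN0 (B r₁) (D r₁)
  have n2 := hN0 (B s) (D s)
  have m1 := le_max_left (A₀ + A₁ * a r₁ + N (B r₁) (D r₁)) (A₀ + A₁ * a s + N (B s) (D s))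
  have m2 := le_max_right (A₀ + A₁ * a r₁ + N (B r₁) (D r₁)) (A₀ + A₁ * a s + N (B s) (D s))
  set M := max (A₀ + A₁ * a r₁ + N (B r₁) (D r₁)) (A₀ + A₁ * a s + N (B s) (D s))
  have step : A₀ + A₁ * a r + N (B r) (D r) ≤
      S * (A₀ + A₁ * a r₁ + N (B r₁) (D r₁)) + T * (A₀ + A₁ * a s + N (B s) (D s)) := by
    have e1 : σ * N (B r₁) (D r₁) ≤ S * N (B r₁) (D r₁) := mul_le_mul_of_nonneg_right hσS n1
    have e2 : τ * N (B s) (D s) ≤ T * N (B s) (D s) := mul_le_mul_of_nonneg_right hτT n2
    have e3 : A₀ + A₁ * a r = S * (A₀ + A₁ * a r₁) + T * (A₀ + A₁ * a s) := by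
      rw [haST]
      have : T = 1 - S := by linarith
      rw [this]; ring
    nlinarith
  calc A₀ + A₁ * a r + N (B r) (D r) ≤ _ := step
    _ ≤ S * M + T * M := add_le_add (mul_le_mul_of_nonneg_left m1 hS0)
        (mul_le_mul_of_nonneg_left m2 hT0)
    _ = M := by rw [← add_mul, hST, one_mul]

/-! ### The handle map -/

/-- `x`-coordinate of the handle -/
def hx (r u : ℝ) : ℝ := a r - 3 + B r * u
/-- `y`-coordinate of the handle -/
def hy (r v : ℝ) : ℝ := -a r + D r * v

lemma BD_not_both {r : ℝ} (hB : B r = 0) (hD : D r = 0) : False := by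
  rcases lt_or_ge (-1) r with h | h
  · exact absurd hB (B_pos h).ne'
  · have := D_neg_of_lt (r := r) (by linarith)
    linarith

/-- the function whose zero is the double point -/
def G (r : ℝ) : ℝ := 2 * a r - 3 + (B r - D r) / √2

/-- Self-intersections of the handle. -/
lemma handle_inj {r r' u v u' v' : ℝ} (hu : u ^ 2 + v ^ 2 = 1) (hu' : u' ^ 2 + v' ^ 2 = 1)
    (h1 : hx r u = hx r' u') (h2 : hy r v = hy r' v') (h3 : hx r v = hx r' v')
    (h4 : hy r u = hy r' u') :
    (r = r' ∧ u = u' ∧ v = v') ∨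
      (u = v ∧ u' = v' ∧ u' = -u ∧ r' = -r ∧ 2 * a r - 3 + (B r - D r) * u = 0) := by
  unfold hx at h1 h3
  unfold hy at h2 h4
  have e1 : B r * (u - v) = B r' * (u' - v') := by linarith
  have e2 : D r * (u - v) = D r' * (u' - v') := by linarith
  by_cases huv : u - v = 0
  · have huv' : u' - v' = 0 := by
      by_contra hne
      rw [huv, mul_zero] at e1 e2
      have hB : B r' = 0 := by
        rcases mul_eq_zero.mp e1.symm with h | h
        · exact h
        · exact absurd h hne
      have hD : D r' = 0 := by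
        rcases mul_eq_zero.mp e2.symm with h | h
        · exact h
        · exact absurd h hne
      exact BD_not_both hB hD
    have hv : v = u := by linarith
    have hv' : v' = u' := by linarith
    subst hv hv'
    have hsum : r * v = r' * v' := by
      have b1 := B_add_D r
      have b2 := B_add_D r'
      have : (B r + D r) * v = (B r' + D r') * v' := by linarith
      rwa [b1, b2] at this
    have hsq : v ^ 2 = v' ^ 2 := by linarith
    have hv0 : v ≠ 0 := by
      intro h; rw [h] at hu; norm_num at hu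
    rcases sq_eq_sq_iff_eq_or_eq_neg.mp hsq with h | h
    · left
      refine ⟨?_, h, h⟩
      rw [← h] at hsum
      exact mul_right_cancel₀ hv0 hsum
    · right
      have hr : r' = -r := by
        have : r * v = (-r') * v := by rw [hsum, h]; ring
        have := mul_right_cancel₀ hv0 this
        linarith
      refine ⟨rfl, rfl, by linarith, hr, ?_⟩
      rw [hr, a_neg, B_neg] at h1
      have : v' = -v := by linarith
      rw [this] at h1
      linarith
  · left
    have hne' : u' - v' ≠ 0 := by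
      intro h
      rw [h, mul_zero] at e1 e2
      have hB : B r = 0 := by
        rcases mul_eq_zero.mp e1 with h | h
        · exact h
        · exact absurd h huv
      have hD : D r = 0 := by
        rcases mul_eq_zero.mp e2 with h | h
        · exact h
        · exact absurd h huv
      exact BD_not_both hB hD
    have hom : om r r' = 0 := by
      have : om r r' * (u - v) = 0 := by
        unfold om
        linear_combination (D r') * e1 - (B r') * e2
      rcases mul_eq_zero.mp this with h | h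
      · exact h
      · exact absurd h huv
    have hom' : om r' r = 0 := by
      have : om r' r = - om r r' := by unfold om; ring
      rw [this, hom, neg_zero]
    -- the planar cases
    have planar1 : 1 ≤ r → 1 ≤ r' → (r = r' ∧ u = u' ∧ v = v') := by
      intro g g'
      rw [B_of_ge g, B_of_ge g', a_of_ge g, a_of_ge g'] at h1 h3
      have k1 : r * u = r' * u' := by linarith
      have k2 : r * v = r' * v' := by linarith
      have k3 : r ^ 2 = r' ^ 2 := by
        have : (r * u) ^ 2 + (r * v) ^ 2 = (r' * u') ^ 2 + (r' * v') ^ 2 := by rw [k1, k2]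
        nlinarith
      have k4 : r = r' := by
        rcases sq_eq_sq_iff_eq_or_eq_neg.mp k3 with h | h
        · exact h
        · linarith
      rw [← k4] at k1 k2
      have hr0 : r ≠ 0 := by linarith
      exact ⟨k4, mul_left_cancel₀ hr0 k1, mul_left_cancel₀ hr0 k2⟩
    have planar2 : r ≤ -1 → r' ≤ -1 → (r = r' ∧ u = u' ∧ v = v') := by
      intro g g'
      rw [D_of_le g, D_of_le g', a_of_le g, a_of_le g'] at h2 h4
      have k1 : r * u = r' * u' := by linarith
      have k2 : r * v = r' * v' := by linarith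
      have k3 : r ^ 2 = r' ^ 2 := by
        have : (r * u) ^ 2 + (r * v) ^ 2 = (r' * u') ^ 2 + (r' * v') ^ 2 := by rw [k1, k2]
        nlinarith
      have k4 : r = r' := by
        rcases sq_eq_sq_iff_eq_or_eq_neg.mp k3 with h | h
        · exact h
        · linarith
      rw [← k4] at k1 k2
      have hr0 : r ≠ 0 := by linarith
      exact ⟨k4, mul_left_cancel₀ hr0 k1, mul_left_cancel₀ hr0 k2⟩
    rcases lt_trichotomy r r' with h | h | h
    · rcases le_or_gt r' (-1) with g | g
      · exact planar2 (by linarith) g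
      rcases le_or_gt 1 r with g2 | g2
      · exact planar1 g2 (by linarith)
      exact absurd hom (om_pos h g g2).ne'
    · subst h
      refine ⟨rfl, ?_⟩
      have k : B r * u = B r * u' := by linarith
      have k' : D r * u = D r * u' := by linarith
      have l : B r * v = B r * v' := by linarith
      have l' : D r * v = D r * v' := by linarith
      by_cases hB : B r = 0
      · have hD : D r ≠ 0 := fun hD => BD_not_both hB hD
        exact ⟨mul_left_cancel₀ hD k', mul_left_cancel₀ hD l'⟩
      · exact ⟨mul_left_cancel₀ hB k, mul_left_cancel₀ hB l⟩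
    · rcases le_or_gt r (-1) with g | g
      · exact planar2 g (by linarith)
      rcases le_or_gt 1 r' with g2 | g2
      · exact planar1 (by linarith) g2
      exact absurd hom' (om_pos h g g2).ne'

lemma sqrt2_pos : 0 < √2 := by positivity

lemma hasDerivAt_G (r : ℝ) : HasDerivAt G (2 * (K * q r) + (2 * p r - 1) / √2) r := by
  have h : HasDerivAt G (2 * (K * q r) + (p r - (1 - p r)) / √2) r :=
    (((hasDerivAt_a r).const_mul 2).sub_const 3).add
      (((hasDerivAt_B r).sub (hasDerivAt_D r)).div_const _)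
  have h2 : p r - (1 - p r) = 2 * p r - 1 := by ring
  rwa [h2] at h

lemma G_convex : ConvexOn ℝ (Iic 0) G := by
  apply MonotoneOn.convexOn_of_deriv (convex_Iic 0)
  · exact fun t _ => (hasDerivAt_G t).continuousAt.continuousWithinAt
  · exact fun t _ => (hasDerivAt_G t).differentiableAt.differentiableWithinAt
  · rw [interior_Iic]
    have hd : ∀ t, HasDerivAt (fun r => 2 * (K * q r) + (2 * p r - 1) / √2)
        (2 * (K * (-(t * e t))) + (2 * e t) / √2) t := fun t =>
      (((hasDerivAt_q t).const_mul K).const_mul 2).add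
        ((((hasDerivAt_p t).const_mul 2).sub_const 1).div_const _)
    have hG : deriv G = fun r => 2 * (K * q r) + (2 * p r - 1) / √2 :=
      funext fun r => (hasDerivAt_G r).deriv
    rw [hG]
    apply monotoneOn_of_deriv_nonneg (convex_Iio 0)
    · exact fun t _ => (hd t).continuousAt.continuousWithinAt
    · exact fun t _ => (hd t).differentiableAt.differentiableWithinAt
    · intro t ht
      rw [interior_Iio] at ht
      rw [(hd t).deriv]
      have h1 := e_nonneg t
      have h2 := K_pos
      have h3 : t < 0 := ht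
      have h4 : 0 ≤ 2 * (K * (-(t * e t))) := by
        have : 0 ≤ -t := by linarith
        have : 0 ≤ (-t) * e t := mul_nonneg this h1
        nlinarith [mul_nonneg h2.le this]
      positivity

lemma G_neg_one : G (-1) < 0 := by
  unfold G
  rw [a_of_le (le_refl _), B_of_le (le_refl _), D_of_le (le_refl _)]
  have h := sqrt2_pos
  have h1 : (1 : ℝ) ≤ √2 := by
    rw [show (1 : ℝ) = √1 by simp]
    exact Real.sqrt_le_sqrt (by norm_num)
  have : (0 - -1) / √2 ≤ 1 := by
    rw [div_le_one h]; linarith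
  linarith

lemma G_pos {r : ℝ} (h : 0 ≤ r) : 0 < G r := by
  unfold G
  have ha0 : a 0 = 3 / 2 := by
    have := a_neg 0
    rw [neg_zero] at this
    linarith
  have ha : 3 / 2 ≤ a r := by rw [← ha0]; exact a_mono h
  have hB : 0 < B r := B_pos (by linarith)
  have hD : D r ≤ 0 := D_nonpos r
  have : 0 < (B r - D r) / √2 := div_pos (by linarith) sqrt2_pos
  linarith

/-- there is a unique zero of `G` in the relevant range, and it lies in `(-1,0)` -/
lemma exists_root : ∃ r₀ : ℝ, -1 < r₀ ∧ r₀ < 0 ∧ G r₀ = 0 ∧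
    0 < 2 * (K * q r₀) + (2 * p r₀ - 1) / √2 ∧
    ∀ r, r ^ 2 < 2 → G r = 0 → r = r₀ := by
  have hc : ContinuousOn G (Icc (-1) 0) :=
    fun t _ => (hasDerivAt_G t).continuousAt.continuousWithinAt
  obtain ⟨r₀, hr₀, h0⟩ : ∃ r ∈ Icc (-1 : ℝ) 0, G r = 0 := by
    have := intermediate_value_Icc (by norm_num : (-1 : ℝ) ≤ 0) hc
    obtain ⟨r, hr, h⟩ := this ⟨G_neg_one.le, (G_pos (le_refl 0)).le⟩
    exact ⟨r, hr, h⟩
  have hne1 : r₀ ≠ -1 := by
    intro h; rw [h] at h0; exact absurd h0 G_neg_one.ne
  have hne0 : r₀ ≠ 0 := by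
    intro h; rw [h] at h0; exact absurd h0 (G_pos (le_refl 0)).ne'
  have hlt1 : -1 < r₀ := lt_of_le_of_ne hr₀.1 (Ne.symm hne1)
  have hlt0 : r₀ < 0 := lt_of_le_of_ne hr₀.2 hne0
  -- zeros in `(-1, 0]` are unique
  have huniq : ∀ s t : ℝ, -1 < s → s < t → t ≤ 0 → G s = 0 → G t = 0 → False := by
    intro s t hs hst ht h1 h2
    have ht1 : t + 1 ≠ 0 := by linarith
    have hw1 : 0 ≤ (t - s) / (t + 1) := div_nonneg (by linarith) (by linarith)
    have hw2 : 0 ≤ (s + 1) / (t + 1) := div_nonneg (by linarith) (by linarith)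
    have hw3 : (t - s) / (t + 1) + (s + 1) / (t + 1) = 1 := by field_simp; ring
    have hcv := G_convex.2 (show (-1 : ℝ) ∈ Iic 0 by simp) (show t ∈ Iic 0 from ht) hw1 hw2 hw3
    have hpt : ((t - s) / (t + 1)) • (-1 : ℝ) + ((s + 1) / (t + 1)) • t = s := by
      simp only [smul_eq_mul]
      have : t + 1 ≠ 0 := by linarith
      field_simp
      ring
    rw [hpt, h1, h2] at hcv
    simp only [smul_eq_mul, mul_zero, add_zero] at hcv
    have h3 : 0 < (t - s) / (t + 1) := div_pos (by linarith) (by linarith)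
    have := G_neg_one
    nlinarith
  refine ⟨r₀, hlt1, hlt0, h0, ?_, ?_⟩
  · -- slope
    have hsl := G_convex.slope_le_of_hasDerivAt (x := -1) (y := r₀) (by simp)
      (by simpa using hlt0.le) hlt1 (hasDerivAt_G r₀)
    have hs : slope G (-1) r₀ = (G r₀ - G (-1)) / (r₀ - -1) := by
      rw [slope_def_field]
    rw [hs, h0] at hsl
    have : 0 < (0 - G (-1)) / (r₀ - -1) := div_pos (by linarith [G_neg_one]) (by linarith)
    linarith
  · intro r hr h
    have hr1 : -1 < r := by
      by_contra hcon
      push Not at hcon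
      unfold G at h
      rw [a_of_le hcon, B_of_le hcon, D_of_le hcon] at h
      have h1 : (0 - r) / √2 = 3 := by linarith
      rw [div_eq_iff sqrt2_pos.ne'] at h1
      have h2 : r ^ 2 = 18 := by
        have : r = -(3 * √2) := by linarith
        rw [this]
        have := Real.mul_self_sqrt (show (0 : ℝ) ≤ 2 by norm_num)
        nlinarith
      linarith
    have hr0 : r < 0 := by
      by_contra hcon
      push Not at hcon
      exact absurd h (G_pos hcon).ne'
    rcases lt_trichotomy r r₀ with g | g | g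
    · exact (huniq r r₀ hr1 g hlt0.le h h0).elim
    · exact g
    · exact (huniq r₀ r hlt1 g hr0.le h0 h).elim

lemma BD_le_one {t : ℝ} (h1 : -1 ≤ t) (h2 : t ≤ 1) : B t - D t ≤ 1 := by
  have key : ∀ s : ℝ, 0 ≤ s → s ≤ 1 → B s - D s ≤ 1 := by
    intro s hs hs1
    have hd : ∀ x, HasDerivAt (fun x => B x - D x) (p x - (1 - p x)) x :=
      fun x => (hasDerivAt_B x).sub (hasDerivAt_D x)
    have hp0 : p 0 = 1 / 2 := by
      have := p_neg 0
      rw [neg_zero] at this
      linarith
    have hm : MonotoneOn (fun x => B x - D x) (Icc 0 1) := by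
      apply monotoneOn_of_deriv_nonneg (convex_Icc _ _)
      · exact fun x _ => (hd x).continuousAt.continuousWithinAt
      · exact fun x _ => (hd x).differentiableAt.differentiableWithinAt
      · intro x hx
        rw [interior_Icc] at hx
        rw [(hd x).deriv]
        have := p_mono hx.1.le
        rw [hp0] at this
        linarith
    have := hm ⟨hs, hs1⟩ ⟨by norm_num, le_refl _⟩ hs1
    simp only [B_of_ge (le_refl (1 : ℝ)), D_of_ge (le_refl (1 : ℝ))] at this
    linarith
  rcases le_total 0 t with h | h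
  · exact key t h h2
  · have := key (-t) (by linarith) (by linarith)
    rw [B_neg, D_neg] at this
    linarith

/-- the open handle does not meet the corner curve -/
lemma handle_not_corner {r u v t : ℝ} (h1 : -1 < r) (h2 : r < 1) (hu : u ^ 2 + v ^ 2 = 1)
    (hx' : hx r u + 3 = B t) (hy' : hy r v + 3 = -D t) : False := by
  unfold hx at hx'
  unfold hy at hy'
  have ht : t = 2 * a r - 3 + B r * u - D r * v := by
    have := B_add_D t
    linarith
  have hM : B t - D t = 3 + B r * u + D r * v := by linarith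
  have hB := B_nonneg r
  have hD := D_nonpos r
  have hu1 : -1 ≤ u ∧ u ≤ 1 := abs_le.mp (by
    rw [← sq_le_one_iff_abs_le_one]; nlinarith [sq_nonneg v])
  have hv1 : -1 ≤ v ∧ v ≤ 1 := abs_le.mp (by
    rw [← sq_le_one_iff_abs_le_one]; nlinarith [sq_nonneg u])
  have hle := BD_le_one h1.le h2.le
  have hBu : -B r ≤ B r * u := by nlinarith
  have hDv : D r ≤ D r * v := by nlinarith
  have hM2 : 2 ≤ B t - D t := by rw [hM]; linarith
  rcases le_or_gt t (-1) with g | g
  · rw [B_of_le g, D_of_le g] at hM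
    have h3 : B r * u = -a r := by linarith
    have := B_lt_a h1 h2
    linarith
  rcases le_or_gt 1 t with g' | g'
  · rw [B_of_ge g', D_of_ge g'] at hM
    have h3 : D r * v = a r - 3 := by linarith
    have h4 := B_lt_a (r := -r) (by linarith) (by linarith)
    rw [B_neg, a_neg] at h4
    linarith
  · have := BD_le_one g.le g'.le
    linarith

lemma hx_lt {r u v : ℝ} (hr : r ^ 2 < 2) (hu : u ^ 2 + v ^ 2 = 1) : hx r u < 3 / 2 := by
  unfold hx
  have hB := B_nonneg r
  have hu1 : u ≤ 1 := by nlinarith [sq_nonneg v, sq_nonneg (u - 1)]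
  have h1 : B r * u ≤ B r := by nlinarith
  rcases le_or_gt r 1 with h | h
  · have h2 : B r ≤ 1 := by
      have := B_mono h
      rwa [B_of_ge (le_refl (1 : ℝ))] at this
    have := a_le r
    linarith
  · rw [B_of_ge h.le] at h1 ⊢
    rw [a_of_ge h.le]
    nlinarith

lemma hy_lt {r u v : ℝ} (hr : r ^ 2 < 2) (hu : u ^ 2 + v ^ 2 = 1) : hy r v < 3 / 2 := by
  have h := hx_lt (r := -r) (u := -v) (v := u) (by nlinarith) (by nlinarith)
  unfold hx at h
  rw [a_neg, B_neg] at h
  unfold hy
  linarith

/-- the amplitude of a height function on a circle of the handle -/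
def amp (α β α' β' B D : ℝ) : ℝ := √((α * B + β' * D) ^ 2 + (α' * B + β * D) ^ 2)

lemma amp_nonneg (α β α' β' B D : ℝ) : 0 ≤ amp α β α' β' B D := Real.sqrt_nonneg _

lemma amp_sub (α β α' β' : ℝ) (s t u₁ u₂ v₁ v₂ : ℝ) (hs : 0 ≤ s) (ht : 0 ≤ t) :
    amp α β α' β' (s * u₁ + t * v₁) (s * u₂ + t * v₂) ≤
      s * amp α β α' β' u₁ u₂ + t * amp α β α' β' v₁ v₂ := by
  unfold amp
  have h : ∀ x y : ℝ, √(x ^ 2 + y ^ 2) = ‖(⟨x, y⟩ : ℂ)‖ := by
    intro x y
    rw [Complex.norm_def, Complex.normSq_mk]
    congr 1; ring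
  rw [h, h, h]
  have e1 : (⟨α * (s * u₁ + t * v₁) + β' * (s * u₂ + t * v₂),
      α' * (s * u₁ + t * v₁) + β * (s * u₂ + t * v₂)⟩ : ℂ) =
      (s : ℂ) * ⟨α * u₁ + β' * u₂, α' * u₁ + β * u₂⟩ +
        (t : ℂ) * ⟨α * v₁ + β' * v₂, α' * v₁ + β * v₂⟩ := by
    apply Complex.ext <;> simp <;> ring
  rw [e1]
  calc _ ≤ ‖(s : ℂ) * ⟨α * u₁ + β' * u₂, α' * u₁ + β * u₂⟩‖ +
        ‖(t : ℂ) * ⟨α * v₁ + β' * v₂, α' * v₁ + β * v₂⟩‖ := norm_add_le _ _
    _ = _ := by
      rw [norm_mul, norm_mul, Complex.norm_real, Complex.norm_real, Real.norm_of_nonneg hs,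
        Real.norm_of_nonneg ht]

/-- maximum of a height function over the circle with parameter `r` -/
def ridge (α β α' β' r : ℝ) : ℝ :=
  -3 * (α + α') + (α + α' - β - β') * a r + amp α β α' β' (B r) (D r)

/-- From every circle one can move to one of the two ends without decreasing the ridge. -/
lemma ridge_alt (α β α' β' r₀ : ℝ) :
    (∀ r, -1 ≤ r → r ≤ r₀ → ridge α β α' β' r₀ ≤ ridge α β α' β' r) ∨
      (∀ r, r₀ ≤ r → r ≤ 1 → ridge α β α' β' r₀ ≤ ridge α β α' β' r) := by
  by_contra hcon
  push Not at hcon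
  obtain ⟨⟨r, hr1, hr2, hr3⟩, ⟨s, hs1, hs2, hs3⟩⟩ := hcon
  have := quasi (-3 * (α + α')) (α + α' - β - β') (amp α β α' β')
    (amp_sub α β α' β') (amp_nonneg α β α' β') hr1 hr2 hs1 hs2
  unfold ridge at hr3 hs3
  rcases le_max_iff.mp this with h | h <;> linarith

end

end Pool.Agent.Lib.MP_d43ca8_gt
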