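import Pool.Agent.Lib.MP_d43ca8_gt.Orient

set_option autoImplicit false

/-!
The projection of the surface to `ℂ × ℂ` is an immersion with one transversal double point.
-/

namespace Pool.Agent.Lib.MP_d43ca8_gt

open Set Real Topology
open scoped ContDiff

noncomputable section

/-- tangent vectors of the handle -/
def dT (r A β : ℝ) (o : ℂ) : ℂ × ℂ :=
  (⟨K * q r * A + (p r * A * o.re + B r * (-(β * o.im))),
    -(K * q r * A) + ((1 - p r) * A * o.im + D r * (β * o.re))⟩,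
   ⟨K * q r * A + (p r * A * o.im + B r * (β * o.re)),
    -(K * q r * A) + ((1 - p r) * A * o.re + D r * (-(β * o.im)))⟩)

lemma hasDerivAt_mk {f g : ℝ → ℝ} {f' g' t : ℝ} (hf : HasDerivAt f f' t)
    (hg : HasDerivAt g g' t) :
    HasDerivAt (fun t => (⟨f t, g t⟩ : ℂ)) (⟨f', g'⟩ : ℂ) t := by
  have e : (fun t => (⟨f t, g t⟩ : ℂ)) = fun t => (f t : ℂ) + (g t : ℂ) * Complex.I := by
    funext t; apply Complex.ext <;> simp
  have e' : (⟨f', g'⟩ : ℂ) = (f' : ℂ) + (g' : ℂ) * Complex.I := by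
    apply Complex.ext <;> simp
  rw [e, e']
  exact hf.ofReal_comp.add (hg.ofReal_comp.mul_const Complex.I)

lemma hasDerivAt_hx {R U : ℝ → ℝ} {R' U' t : ℝ} (hR : HasDerivAt R R' t)
    (hU : HasDerivAt U U' t) :
    HasDerivAt (fun t => hx (R t) (U t))
      (K * q (R t) * R' + (p (R t) * R' * U t + B (R t) * U')) t := by
  unfold hx
  exact (((hasDerivAt_a (R t)).comp t hR).sub_const 3).add
    (((hasDerivAt_B (R t)).comp t hR).mul hU)

lemma hasDerivAt_hy {R U : ℝ → ℝ} {R' U' t : ℝ} (hR : HasDerivAt R R' t)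
    (hU : HasDerivAt U U' t) :
    HasDerivAt (fun t => hy (R t) (U t))
      (-(K * q (R t) * R') + ((1 - p (R t)) * R' * U t + D (R t) * U')) t := by
  unfold hy
  exact (((hasDerivAt_a (R t)).comp t hR).neg).add
    (((hasDerivAt_D (R t)).comp t hR).mul hU)

lemma T_fderiv {w : ℂ} (hw : w ≠ 0) {d : ℝ} (hd : HasDerivAt rad d ‖w‖) (α β : ℝ) :
    fderiv ℝ (fun w => prj (psT w)) w (w * (α + β * Complex.I)) =
      dT (rad ‖w‖) (d * (‖w‖ * α)) β (w / (‖w‖ : ℂ)) := by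
  have hpos : 0 < ‖w‖ := norm_pos_iff.mpr hw
  have hpos' : (‖w‖ : ℂ) ≠ 0 := by exact_mod_cast hpos.ne'
  set o : ℂ := w / (‖w‖ : ℂ) with ho
  -- the curve
  set γ : ℝ → ℂ := fun t => w * Complex.exp ((α + β * Complex.I) * (t : ℂ)) with hγ
  have hγ0 : γ 0 = w := by simp [hγ]
  have hγ' : HasDerivAt γ (w * (α + β * Complex.I)) 0 := by
    have h1 : HasDerivAt (fun t : ℝ => (α + β * Complex.I : ℂ) * (t : ℂ))
        (α + β * Complex.I) 0 := by
      simpa using (Complex.ofRealCLM.hasDerivAt (x := (0 : ℝ))).const_mul (α + β * Complex.I : ℂ)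
    have h2 := h1.cexp.const_mul w
    simpa using h2
  have hdiff : DifferentiableAt ℝ (fun w => prj (psT w)) w := by
    have h1 : DifferentiableAt ℝ psT w := (psT_contDiffAt hw).differentiableAt (by norm_num)
    exact h1.fst.prodMk h1.snd.fst
  have hchain : HasDerivAt (fun t => prj (psT (γ t)))
      (fderiv ℝ (fun w => prj (psT w)) w (w * (α + β * Complex.I))) 0 := by
    have h1 : HasFDerivAt (fun w => prj (psT w)) (fderiv ℝ (fun w => prj (psT w)) w) (γ 0) := by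
      rw [hγ0]; exact hdiff.hasFDerivAt
    exact h1.comp_hasDerivAt (0 : ℝ) hγ'
  -- explicit description
  set U : ℝ → ℝ := fun t => o.re * Real.cos (β * t) - o.im * Real.sin (β * t) with hU
  set V : ℝ → ℝ := fun t => o.re * Real.sin (β * t) + o.im * Real.cos (β * t) with hV
  set R : ℝ → ℝ := fun t => rad (‖w‖ * Real.exp (α * t)) with hR
  have hnorm : ∀ t, ‖γ t‖ = ‖w‖ * Real.exp (α * t) := by
    intro t
    simp only [hγ, norm_mul, Complex.norm_exp]
    congr 2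
    simp
  have hexp : ∀ t : ℝ, Complex.exp ((α + β * Complex.I) * (t : ℂ)) =
      (Real.exp (α * t) : ℂ) * ⟨Real.cos (β * t), Real.sin (β * t)⟩ := by
    intro t
    have e1 : (α + β * Complex.I) * (t : ℂ) = ((α * t : ℝ) : ℂ) + ((β * t : ℝ) : ℂ) * Complex.I := by
      push_cast; ring
    rw [e1, Complex.exp_add, ← Complex.ofReal_exp]
    congr 1
    apply Complex.ext
    · exact Complex.exp_ofReal_mul_I_re _
    · exact Complex.exp_ofReal_mul_I_im _
  have hdir : ∀ t, γ t / (‖γ t‖ : ℂ) = ⟨U t, V t⟩ := by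
    intro t
    rw [hnorm]
    have he : (Real.exp (α * t) : ℂ) ≠ 0 := by exact_mod_cast (Real.exp_pos _).ne'
    have e1 : γ t = ((‖w‖ : ℂ) * (Real.exp (α * t) : ℂ)) *
        (o * ⟨Real.cos (β * t), Real.sin (β * t)⟩) := by
      simp only [hγ]
      rw [hexp, ho]
      field_simp
    rw [e1, Complex.ofReal_mul, mul_div_cancel_left₀ _ (mul_ne_zero hpos' he)]
    apply Complex.ext <;> simp [hU, hV]
  have hexpl : (fun t => prj (psT (γ t))) = fun t =>
      ((⟨hx (R t) (U t), hy (R t) (V t)⟩, ⟨hx (R t) (V t), hy (R t) (U t)⟩) : ℂ × ℂ) := by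
    funext t
    rw [prj_psT, hdir, hnorm]
    rfl
  have hR' : HasDerivAt R (d * (‖w‖ * α)) 0 := by
    have h1 : HasDerivAt (fun t : ℝ => ‖w‖ * Real.exp (α * t)) (‖w‖ * α) 0 := by
      have h2 : HasDerivAt (fun t : ℝ => α * t) α 0 := by
        simpa using (hasDerivAt_id (0 : ℝ)).const_mul α
      simpa using h2.exp.const_mul ‖w‖
    have h3 : HasDerivAt rad d (‖w‖ * Real.exp (α * 0)) := by simpa using hd
    exact h3.comp (0 : ℝ) h1
  have hβ : HasDerivAt (fun t : ℝ => β * t) β 0 := by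
    simpa using (hasDerivAt_id (0 : ℝ)).const_mul β
  have hU' : HasDerivAt U (-(β * o.im)) 0 := by
    have h := (hβ.cos.const_mul o.re).sub (hβ.sin.const_mul o.im)
    have e : o.re * (-Real.sin (β * 0) * β) - o.im * (Real.cos (β * 0) * β) = -(β * o.im) := by
      simp; ring
    rw [e] at h
    exact h
  have hV' : HasDerivAt V (β * o.re) 0 := by
    have h := (hβ.sin.const_mul o.re).add (hβ.cos.const_mul o.im)
    have e : o.re * (Real.cos (β * 0) * β) + o.im * (-Real.sin (β * 0) * β) = β * o.re := by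
      simp; ring
    rw [e] at h
    exact h
  have hR0 : R 0 = rad ‖w‖ := by simp [hR]
  have hU0 : U 0 = o.re := by simp [hU]
  have hV0 : V 0 = o.im := by simp [hV]
  have k1 := hasDerivAt_hx hR' hU'
  have k2 := hasDerivAt_hy hR' hV'
  have k3 := hasDerivAt_hx hR' hV'
  have k4 := hasDerivAt_hy hR' hU'
  have k5 := (hasDerivAt_mk k1 k2).prodMk (hasDerivAt_mk k3 k4)
  rw [hexpl] at hchain
  have := hchain.unique k5
  rw [this, hR0, hU0, hV0]
  rfl

lemma dT_zero {r A β : ℝ} {o : ℂ} (ho : o.re ^ 2 + o.im ^ 2 = 1) (h : dT r A β o = 0) :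
    A = 0 ∧ β = 0 := by
  unfold dT at h
  have h1 := congrArg Prod.fst h
  have h2 := congrArg Prod.snd h
  have e1 := congrArg Complex.re h1
  have e2 := congrArg Complex.im h1
  have e3 := congrArg Complex.re h2
  have e4 := congrArg Complex.im h2
  simp only [Prod.fst_zero, Prod.snd_zero, Complex.zero_re, Complex.zero_im] at e1 e2 e3 e4
  have hA : A = 0 := by
    have : (o.re ^ 2 + o.im ^ 2) * A = 0 := by
      linear_combination o.re * e1 + o.im * e3 + o.im * e2 + o.re * e4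
    rw [ho, one_mul] at this
    exact this
  refine ⟨hA, ?_⟩
  rw [hA] at e1 e2 e3 e4
  by_contra hβ
  have f1 : B r * o.im = 0 := by
    have : β * (B r * o.im) = 0 := by linear_combination -e1
    exact (mul_eq_zero.mp this).resolve_left hβ
  have f2 : B r * o.re = 0 := by
    have : β * (B r * o.re) = 0 := by linear_combination e3
    exact (mul_eq_zero.mp this).resolve_left hβ
  have f3 : D r * o.im = 0 := by
    have : β * (D r * o.im) = 0 := by linear_combination -e4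
    exact (mul_eq_zero.mp this).resolve_left hβ
  have f4 : D r * o.re = 0 := by
    have : β * (D r * o.re) = 0 := by linear_combination e2
    exact (mul_eq_zero.mp this).resolve_left hβ
  have g1 : B r = 0 := by
    have : B r * (o.re ^ 2 + o.im ^ 2) = 0 := by
      linear_combination o.re * f2 + o.im * f1
    rwa [ho, mul_one] at this
  have g2 : D r = 0 := by
    have : D r * (o.re ^ 2 + o.im ^ 2) = 0 := by
      linear_combination o.re * f4 + o.im * f3
    rwa [ho, mul_one] at this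
  exact BD_not_both g1 g2

lemma unit_sq {o : ℂ} (h : ‖o‖ = 1) : o.re ^ 2 + o.im ^ 2 = 1 := by
  have := Complex.normSq_eq_norm_sq o
  rw [h, Complex.normSq_apply] at this
  nlinarith

lemma norm_div_norm {w : ℂ} (hw : w ≠ 0) : ‖w / (‖w‖ : ℂ)‖ = 1 := by
  have hpos : 0 < ‖w‖ := norm_pos_iff.mpr hw
  rw [norm_div, Complex.norm_real, norm_norm, div_self hpos.ne']

lemma T_immersion {w : ℂ} (hw : w ≠ 0) :
    Function.Injective (fderiv ℝ (fun w => prj (psT w)) w) := by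
  rw [injective_iff_map_eq_zero]
  intro v hv
  have hpos : 0 < ‖w‖ := norm_pos_iff.mpr hw
  obtain ⟨d, hd0, hd⟩ := rad_deriv hpos
  have hvw : v = w * (((v / w).re : ℂ) + ((v / w).im : ℂ) * Complex.I) := by
    rw [Complex.re_add_im, mul_div_cancel₀ _ hw]
  rw [hvw, T_fderiv hw hd] at hv
  obtain ⟨h1, h2⟩ := dT_zero (unit_sq (norm_div_norm hw)) hv
  have h3 : (v / w).re = 0 := by
    have : d * ‖w‖ ≠ 0 := by positivity
    have h4 : (d * ‖w‖) * (v / w).re = 0 := by linarith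
    exact (mul_eq_zero.mp h4).resolve_left this
  rw [hvw, h2, h3]
  simp

lemma G_immersion {g h : ℂ} (hg : g ^ 4 = 1) (hh : h ^ 4 = 1) (z : ℂ) :
    Function.Injective (fderiv ℝ (fun z => prj (psG g h z)) z) := by
  have d1 : DifferentiableAt ℝ (fun z => prj (psG g h z)) z := by
    have : ContDiff ℝ ∞ fun z : ℂ => prj (psG g h z) :=
      (contDiff_const.mul (cor_contDiff.comp re_contDiff)).prodMk
        (contDiff_const.mul (cor_contDiff.comp im_contDiff))
    exact (this.differentiable (by norm_num)) z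
  have hF : ContDiff ℝ ∞ fun x : ℂ × ℂ => (⟨pr (g⁻¹ * x.1), pr (h⁻¹ * x.2)⟩ : ℂ) :=
    contDiff_mk (pr_contDiff.comp (contDiff_const.mul contDiff_fst))
      (pr_contDiff.comp (contDiff_const.mul contDiff_snd))
  have d2 : DifferentiableAt ℝ (fun x : ℂ × ℂ => (⟨pr (g⁻¹ * x.1), pr (h⁻¹ * x.2)⟩ : ℂ))
      (prj (psG g h z)) := (hF.differentiable (by norm_num)) _
  have hcomp := fderiv_comp z d2 d1
  have hid : (fun x : ℂ × ℂ => (⟨pr (g⁻¹ * x.1), pr (h⁻¹ * x.2)⟩ : ℂ)) ∘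
      (fun z => prj (psG g h z)) = id := by
    funext z
    simp only [Function.comp_apply, id]
    unfold psG
    rw [prj_Phi]
    simp only
    rw [inv_mul_cancel_left₀ (g4_ne hg), inv_mul_cancel_left₀ (g4_ne hh), pr_cor, pr_cor]
  rw [hid, fderiv_id] at hcomp
  have hl : Function.LeftInverse
      (fderiv ℝ (fun x : ℂ × ℂ => (⟨pr (g⁻¹ * x.1), pr (h⁻¹ * x.2)⟩ : ℂ)) (prj (psG g h z)))
      (fderiv ℝ (fun z => prj (psG g h z)) z) := by
    intro v
    have := congrArg (fun A : ℂ →L[ℝ] ℂ => A v) hcomp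
    simpa using this.symm
  exact hl.injective

/-- All patches are immersed by the projection. -/
lemma patches_immersion (i : Idx) {z : ℂ} (hz : z ∈ (patches i).U) :
    Function.Injective (fderiv ℝ (fun z => prj ((patches i).psi z)) z) := by
  match i, hz with
  | none, hz => exact T_immersion hz.1
  | some (g, h), _ => exact G_immersion g.2 h.2 z

/-! ### double points -/

lemma rad_surj {r : ℝ} (h : r ∈ Icc (-1 : ℝ) 1) : ∃ ϱ ∈ Icc (1 / 2 : ℝ) 1, rad ϱ = r := by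
  have hc : ContinuousOn rad (Icc (1 / 2 : ℝ) 1) := fun t ht =>
    (rad_contAt (by linarith [ht.1])).continuousWithinAt
  have := intermediate_value_Icc (by norm_num : (1 / 2 : ℝ) ≤ 1) hc
  rw [rad_half, rad_one] at this
  exact this h

lemma Ann_norm_inj {w w' : ℂ} (h : w ∈ Ann) (h' : w' ∈ Ann) (hr : rad ‖w‖ = rad ‖w'‖)
    (ho : w / (‖w‖ : ℂ) = w' / (‖w'‖ : ℂ)) : w = w' := by
  have hn : ‖w‖ = ‖w'‖ := rad_strictMonoOn.injOn (norm_pos_iff.mpr (Ann_ne h))
    (norm_pos_iff.mpr (Ann_ne h')) hr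
  have hne : (‖w‖ : ℂ) ≠ 0 := by exact_mod_cast (norm_pos_iff.mpr (Ann_ne h)).ne'
  rw [hn] at ho hne
  exact (div_left_inj' hne).mp ho

/-- The handle does not meet the rest in the projection, except at its rims. -/
lemma T_not_Phi {w : ℂ} (hw : w ∈ Ann) {x : ℂ × ℂ} (hx' : x ∈ Theta')
    (h : prj (psT w) = x) : psT w = Phi x := by
  by_cases h1 : ‖w‖ = 1
  · rw [psT_outer h1.ge] at h ⊢
    rw [prj_Phi] at h
    rw [h]
  by_cases h2 : ‖w‖ = 1 / 2
  · rw [psT_inner (Ann_ne hw) h2.le] at h ⊢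
    rw [prj_Phi] at h
    rw [h]
  exfalso
  have hp : 0 < ‖w‖ := norm_pos_iff.mpr (Ann_ne hw)
  have g1 : rad ‖w‖ < 1 := by
    rw [← rad_one]
    exact rad_strictMonoOn hp (by norm_num) (lt_of_le_of_ne hw.2 h1)
  have g2 : -1 < rad ‖w‖ := by
    rw [← rad_half]
    exact rad_strictMonoOn (by norm_num) hp (lt_of_le_of_ne hw.1 (Ne.symm h2))
  have hsq : rad ‖w‖ ^ 2 < 2 := by nlinarith
  rw [prj_psT] at h
  set r := rad ‖w‖
  set o := w / (‖w‖ : ℂ) with ho
  have ho1 : o.re ^ 2 + o.im ^ 2 = 1 := unit_sq (norm_div_norm (Ann_ne hw))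
  have ho2 : o.im ^ 2 + o.re ^ 2 = 1 := by linarith
  have e1 : x.1 = ⟨hx r o.re, hy r o.im⟩ := by rw [← h]; rfl
  have hW : x.1 ∈ W0 := by
    rw [e1]
    exact ⟨(hx_lt hsq ho1).trans (by norm_num), (hy_lt (u := o.re) hsq ho1).trans (by norm_num)⟩
  obtain ⟨e2, _, _⟩ := Cset_W0 hx'.1.1.1 hW
  have e3 : hx r o.re = -3 + B (pr x.1) := by
    have := congrArg Complex.re e2
    rw [cor_re] at this
    rw [← this, e1]
  have e4 : hy r o.im = -3 - D (pr x.1) := by
    have := congrArg Complex.im e2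
    rw [cor_im] at this
    rw [← this, e1]
  exact handle_not_corner g2 g1 ho1 (t := pr x.1) (by linarith) (by linarith)

lemma sqrt2_sq : √2 * √2 = 2 := Real.mul_self_sqrt (by norm_num)

lemma inv_sqrt2_sq : (1 / √2) ^ 2 = 1 / 2 := by
  rw [div_pow, one_pow, sq, sqrt2_sq]

lemma span_alg {η P b c k : ℝ} (h1 : 2 * η + (2 * P - 1) * k ≠ 0) (hk : k ≠ 0)
    (h2 : c ^ 2 - b ^ 2 ≠ 0) (x y x' y' : ℝ) : ∃ A β A' β' : ℝ,
    (η * A + (P * A * k + b * (-(β * k)))) +
      (η * A' + ((1 - P) * A' * (-k) + (-c) * (-(β' * (-k))))) = x ∧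
    (-(η * A) + ((1 - P) * A * k + c * (β * k))) +
      (-(η * A') + (P * A' * (-k) + (-b) * (β' * (-k)))) = y ∧
    (η * A + (P * A * k + b * (β * k))) +
      (η * A' + ((1 - P) * A' * (-k) + (-c) * (β' * (-k)))) = x' ∧
    (-(η * A) + ((1 - P) * A * k + c * (-(β * k)))) +
      (-(η * A') + (P * A' * (-k) + (-b) * (-(β' * (-k))))) = y' := by
  set Δ : ℝ := 2 * η + (2 * P - 1) * k with hΔ
  set Γ : ℝ := c ^ 2 - b ^ 2 with hΓ
  set s : ℝ := (x + x') / 2 with hs
  set t : ℝ := (y + y') / 2 with ht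
  set s' : ℝ := (x' - x) / 2 with hs'
  set t' : ℝ := (y - y') / 2 with ht'
  obtain ⟨A, A', hA1, hA2⟩ : ∃ A A' : ℝ, (η + P * k) * A + (η - (1 - P) * k) * A' = s ∧
      (-η + (1 - P) * k) * A + (-η - P * k) * A' = t := by
    refine ⟨(s * (-η - P * k) - t * (η - (1 - P) * k)) / (-k * Δ),
      ((η + P * k) * t - (-η + (1 - P) * k) * s) / (-k * Δ), ?_, ?_⟩
    · have hne : -k * Δ ≠ 0 := mul_ne_zero (neg_ne_zero.mpr hk) h1
      rw [← mul_div_assoc, ← mul_div_assoc, ← add_div, div_eq_iff hne]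
      rw [hΔ]; ring
    · have hne : -k * Δ ≠ 0 := mul_ne_zero (neg_ne_zero.mpr hk) h1
      rw [← mul_div_assoc, ← mul_div_assoc, ← add_div, div_eq_iff hne]
      rw [hΔ]; ring
  obtain ⟨β, β', hB1, hB2⟩ : ∃ β β' : ℝ, b * (β * k) + c * (β' * k) = s' ∧
      c * (β * k) + b * (β' * k) = t' := by
    refine ⟨(t' * c - s' * b) / (k * Γ), (s' * c - t' * b) / (k * Γ), ?_, ?_⟩
    · have hne : k * Γ ≠ 0 := mul_ne_zero hk h2
      field_simp
      rw [hΓ]; ring
    · have hne : k * Γ ≠ 0 := mul_ne_zero hk h2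
      field_simp
      rw [hΓ]; ring
  refine ⟨A, β, A', β', ?_, ?_, ?_, ?_⟩
  · have : x = s - s' := by rw [hs, hs']; ring
    rw [this, ← hA1, ← hB1]; ring
  · have : y = t + t' := by rw [ht, ht']; ring
    rw [this, ← hA2, ← hB2]; ring
  · have : x' = s + s' := by rw [hs, hs']; ring
    rw [this, ← hA1, ← hB1]; ring
  · have : y' = t - t' := by rw [ht, ht']; ring
    rw [this, ← hA2, ← hB2]; ring

/-- There is exactly one double point, and it is transversal. -/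
theorem double_points : ∃ w₁ w₂ : ℂ, w₁ ∈ Ann ∧ w₂ ∈ Ann ∧ w₁ ≠ w₂ ∧
    prj (psT w₁) = prj (psT w₂) ∧
    (∀ m m', m ∈ Surf → m' ∈ Surf → m ≠ m' → prj m = prj m' →
      (m = psT w₁ ∧ m' = psT w₂) ∨ (m = psT w₂ ∧ m' = psT w₁)) ∧
    (∀ x : ℂ × ℂ, ∃ v₁ v₂ : ℂ, fderiv ℝ (fun w => prj (psT w)) w₁ v₁ +
      fderiv ℝ (fun w => prj (psT w)) w₂ v₂ = x) := by
  obtain ⟨r₀, hr1, hr0, hG, hG', huniq⟩ := exists_root
  obtain ⟨ϱ₁, hϱ₁, e₁⟩ := rad_surj (r := r₀) ⟨hr1.le, by linarith⟩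
  obtain ⟨ϱ₂, hϱ₂, e₂⟩ := rad_surj (r := -r₀) ⟨by linarith, by linarith⟩
  have hs := sqrt2_pos
  have hk := inv_sqrt2_sq
  set k : ℝ := 1 / √2 with hkdef
  have hk0 : 0 < k := by positivity
  set o₀ : ℂ := ⟨k, k⟩ with ho₀
  have hn₀ : ‖o₀‖ = 1 := by
    rw [Complex.norm_def, Complex.normSq_mk, Real.sqrt_eq_one]
    nlinarith
  have hG2 : 2 * a r₀ - 3 + (B r₀ - D r₀) * k = 0 := by
    have : G r₀ = 2 * a r₀ - 3 + (B r₀ - D r₀) * k := by
      unfold G; rw [hkdef]; ring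
    rw [← this, hG]
  have p1 : 0 < ϱ₁ := by linarith [hϱ₁.1]
  have p2 : 0 < ϱ₂ := by linarith [hϱ₂.1]
  have n1 : ‖(ϱ₁ : ℂ) * o₀‖ = ϱ₁ := by
    rw [norm_mul, hn₀, mul_one, Complex.norm_real, Real.norm_of_nonneg p1.le]
  have n2 : ‖-((ϱ₂ : ℂ) * o₀)‖ = ϱ₂ := by
    rw [norm_neg, norm_mul, hn₀, mul_one, Complex.norm_real, Real.norm_of_nonneg p2.le]
  have c1 : (ϱ₁ : ℂ) ≠ 0 := by exact_mod_cast p1.ne'
  have c2 : (ϱ₂ : ℂ) ≠ 0 := by exact_mod_cast p2.ne'
  have d1 : ((ϱ₁ : ℂ) * o₀) / (‖(ϱ₁ : ℂ) * o₀‖ : ℂ) = o₀ := by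
    rw [n1, mul_div_cancel_left₀ _ c1]
  have d2 : (-((ϱ₂ : ℂ) * o₀)) / (‖-((ϱ₂ : ℂ) * o₀)‖ : ℂ) = -o₀ := by
    rw [n2, neg_div, mul_div_cancel_left₀ _ c2]
  have A1 : (ϱ₁ : ℂ) * o₀ ∈ Ann := ⟨by rw [n1]; exact hϱ₁.1, by rw [n1]; exact hϱ₁.2⟩
  have A2 : -((ϱ₂ : ℂ) * o₀) ∈ Ann := ⟨by rw [n2]; exact hϱ₂.1, by rw [n2]; exact hϱ₂.2⟩
  refine ⟨(ϱ₁ : ℂ) * o₀, -((ϱ₂ : ℂ) * o₀), A1, A2, ?_, ?_, ?_, ?_⟩
  · intro h
    have := congrArg (fun w : ℂ => rad ‖w‖) h
    simp only [n1, n2, e₁, e₂] at this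
    linarith
  · rw [prj_psT, prj_psT, d1, d2, n1, n2, e₁, e₂]
    unfold hT hx hy
    rw [a_neg, B_neg, D_neg]
    simp only [ho₀, Complex.neg_re, Complex.neg_im]
    apply Prod.ext <;> apply Complex.ext <;> simp only <;> linarith
  · -- uniqueness
    have key : ∀ w w' : ℂ, w ∈ Ann → w' ∈ Ann → w ≠ w' → prj (psT w) = prj (psT w') →
        (w = (ϱ₁ : ℂ) * o₀ ∧ w' = -((ϱ₂ : ℂ) * o₀)) ∨
        (w = -((ϱ₂ : ℂ) * o₀) ∧ w' = (ϱ₁ : ℂ) * o₀) := by
      intro w w' hw hw' hne heq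
      rw [prj_psT, prj_psT] at heq
      obtain ⟨b1, b2⟩ := Ann_rad hw
      obtain ⟨b1', b2'⟩ := Ann_rad hw'
      have q1 := unit_sq (norm_div_norm (Ann_ne hw))
      have q2 := unit_sq (norm_div_norm (Ann_ne hw'))
      have h1 := congrArg Prod.fst heq
      have h2 := congrArg Prod.snd heq
      have f1 := congrArg Complex.re h1
      have f2 := congrArg Complex.im h1
      have f3 := congrArg Complex.re h2
      have f4 := congrArg Complex.im h2
      simp only [hT] at f1 f2 f3 f4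
      rcases handle_inj q1 q2 f1 f2 f3 f4 with ⟨g1, g2, g3⟩ | ⟨g1, g2, g3, g4, g5⟩
      · exact absurd (Ann_norm_inj hw hw' g1 (Complex.ext g2 g3)) hne
      · have hu2 : (w / (‖w‖ : ℂ)).re ^ 2 = k ^ 2 := by
          rw [hk]
          rw [← g1] at q1
          linarith
        rcases sq_eq_sq_iff_eq_or_eq_neg.mp hu2 with hu | hu
        · left
          have hr : rad ‖w‖ = r₀ := by
            apply huniq
            · nlinarith
            · unfold G
              rw [hu, hkdef] at g5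
              rw [div_eq_mul_one_div]
              exact g5
          have ho : w / (‖w‖ : ℂ) = o₀ := Complex.ext hu (by rw [← g1]; exact hu)
          have ho' : w' / (‖w'‖ : ℂ) = -o₀ := by
            apply Complex.ext
            · rw [g3, hu]; simp [ho₀]
            · rw [← g2, g3, hu]; simp [ho₀]
          refine ⟨Ann_norm_inj hw A1 (by rw [n1, e₁]; exact hr) (by rw [ho, d1]),
            Ann_norm_inj hw' A2 (by rw [n2, e₂, g4, hr]) (by rw [ho', d2])⟩
        · right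
          have hr : rad ‖w'‖ = r₀ := by
            apply huniq
            · nlinarith
            · unfold G
              rw [hu, hkdef] at g5
              rw [g4, a_neg, B_neg, D_neg, div_eq_mul_one_div]
              linarith
          have hr' : rad ‖w‖ = -r₀ := by linarith
          have ho : w / (‖w‖ : ℂ) = -o₀ := by
            apply Complex.ext
            · rw [hu]; simp [ho₀]
            · rw [← g1, hu]; simp [ho₀]
          have ho' : w' / (‖w'‖ : ℂ) = o₀ := by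
            apply Complex.ext
            · rw [g3, hu]; simp [ho₀]
            · rw [← g2, g3, hu]; simp [ho₀]
          refine ⟨Ann_norm_inj hw A2 (by rw [n2, e₂]; exact hr') (by rw [ho, d2]),
            Ann_norm_inj hw' A1 (by rw [n1, e₁]; exact hr) (by rw [ho', d1])⟩
    rintro m m' (⟨x, hx', rfl⟩ | ⟨w, hw, rfl⟩) (⟨x', hx'', rfl⟩ | ⟨w', hw', rfl⟩) hne heq
    · exfalso
      rw [prj_Phi, prj_Phi] at heq
      exact hne (by rw [heq])
    · exfalso
      rw [prj_Phi] at heq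
      exact hne (T_not_Phi hw' hx' heq.symm).symm
    · exfalso
      rw [prj_Phi] at heq
      exact hne (T_not_Phi hw hx'' heq)
    · have hww : w ≠ w' := fun h => hne (by rw [h])
      rcases key w w' hw hw' hww heq with ⟨h1, h2⟩ | ⟨h1, h2⟩
      · exact Or.inl ⟨by rw [h1], by rw [h2]⟩
      · exact Or.inr ⟨by rw [h1], by rw [h2]⟩
  · -- transversality
    intro x
    obtain ⟨δ₁, hδ₁, hD₁⟩ := rad_deriv (t := ‖(ϱ₁ : ℂ) * o₀‖) (by rw [n1]; exact p1)
    obtain ⟨δ₂, hδ₂, hD₂⟩ := rad_deriv (t := ‖-((ϱ₂ : ℂ) * o₀)‖) (by rw [n2]; exact p2)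
    have F1 := fun α β : ℝ => T_fderiv (Ann_ne A1) hD₁ α β
    have F2 := fun α β : ℝ => T_fderiv (Ann_ne A2) hD₂ α β
    rw [d1, n1, e₁] at F1
    rw [d2, n2, e₂] at F2
    set η : ℝ := K * q r₀ with hη
    set P : ℝ := p r₀ with hP
    set b : ℝ := B r₀ with hb
    set c : ℝ := D r₀ with hc
    -- nondegeneracy
    have hbc : b + c = r₀ := B_add_D r₀
    have hbpos : 0 < b := B_pos hr1
    have hcneg : c < 0 := D_neg_of_lt (by linarith)
    have hdet2 : c ^ 2 - b ^ 2 ≠ 0 := by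
      have : c ^ 2 - b ^ 2 = (c - b) * r₀ := by rw [← hbc]; ring
      rw [this]
      exact mul_ne_zero (by linarith) hr0.ne
    have hdet1 : 2 * η + (2 * P - 1) * k ≠ 0 := by
      have : 2 * η + (2 * P - 1) * k = 2 * (K * q r₀) + (2 * p r₀ - 1) / √2 := by
        rw [hkdef]; ring
      rw [this]; exact hG'.ne'
    obtain ⟨A, β, A', β', g1, g2, g3, g4⟩ := span_alg hdet1 hk0.ne' hdet2 x.1.re x.1.im x.2.re
      x.2.im
    refine ⟨(ϱ₁ : ℂ) * o₀ * (((A / (δ₁ * ϱ₁) : ℝ) : ℂ) + (β : ℂ) * Complex.I),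
      -((ϱ₂ : ℂ) * o₀) * (((A' / (δ₂ * ϱ₂) : ℝ) : ℂ) + (β' : ℂ) * Complex.I), ?_⟩
    rw [F1, F2]
    have s1 : δ₁ * (ϱ₁ * (A / (δ₁ * ϱ₁))) = A := by field_simp
    have s2 : δ₂ * (ϱ₂ * (A' / (δ₂ * ϱ₂))) = A' := by field_simp
    rw [s1, s2]
    unfold dT
    rw [q_neg, p_neg, B_neg, D_neg]
    simp only [ho₀, Complex.neg_re, Complex.neg_im, ← hη, ← hP, ← hb, ← hc]
    apply Prod.ext <;> apply Complex.ext
    · simp only [Prod.fst_add, Complex.add_re]
      rw [← g1]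
    · simp only [Prod.fst_add, Complex.add_im]
      rw [← g2]
      ring
    · simp only [Prod.snd_add, Complex.add_re]
      rw [← g3]
    · simp only [Prod.snd_add, Complex.add_im]
      rw [← g4]
      ring

end

end Pool.Agent.Lib.MP_d43ca8_gt
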