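import Pool.Agent.Lib.MP_d43ca8_gt.Shape

set_option autoImplicit false

/-!
Superlevel sets of linear functions on the surface are preconnected.
-/

namespace Pool.Agent.Lib.MP_d43ca8_gt

open Set Real
open scoped ContDiff

noncomputable section

/-- a linear function on `ℂ × ℂ = ℝ⁴` -/
def lin (α β α' β' : ℝ) (x : ℂ × ℂ) : ℝ :=
  α * x.1.re + β * x.1.im + α' * x.2.re + β' * x.2.im

lemma lin_cont (α β α' β' : ℝ) : Continuous (lin α β α' β') := by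
  unfold lin
  fun_prop

lemma Cset_nonempty : Cset.Nonempty := ⟨cor 0, cor_mem (by norm_num) (by norm_num)⟩

/-- Superlevel sets of linear functions on the product torus. -/
lemma theta_super (α β α' β' c : ℝ) :
    IsPreconnected {x | x ∈ Theta ∧ c ≤ lin α β α' β' x} := by
  obtain ⟨m, hm, hmax⟩ := Cset_compact.exists_isMaxOn Cset_nonempty
    (f := fun ξ : ℂ => α * ξ.re + β * ξ.im) (by fun_prop)
  obtain ⟨m', hm', hmax'⟩ := Cset_compact.exists_isMaxOn Cset_nonempty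
    (f := fun ξ : ℂ => α' * ξ.re + β' * ξ.im) (by fun_prop)
  apply isPreconnected_of_forall (m, m')
  rintro ⟨ξ, ξ'⟩ ⟨⟨hξ, hξ'⟩, hc⟩
  simp only at hξ hξ'
  unfold lin at hc
  simp only at hc
  have h1 : α * ξ.re + β * ξ.im ≤ α * m.re + β * m.im := hmax hξ
  have h2 : α' * ξ'.re + β' * ξ'.im ≤ α' * m'.re + β' * m'.im := hmax' hξ'
  set t1 : Set (ℂ × ℂ) := (fun η => (η, ξ')) ''
    {η | η ∈ Cset ∧ c - (α' * ξ'.re + β' * ξ'.im) ≤ α * η.re + β * η.im} with ht1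
  set t2 : Set (ℂ × ℂ) := (fun η => (m, η)) ''
    {η | η ∈ Cset ∧ c - (α * m.re + β * m.im) ≤ α' * η.re + β' * η.im} with ht2
  have p1 : IsPreconnected t1 := (super α β _).image _ (by fun_prop)
  have p2 : IsPreconnected t2 := (super α' β' _).image _ (by fun_prop)
  have s1 : t1 ⊆ {x | x ∈ Theta ∧ c ≤ lin α β α' β' x} := by
    rintro _ ⟨η, ⟨hη, hη2⟩, rfl⟩
    refine ⟨⟨hη, hξ'⟩, ?_⟩
    unfold lin
    simp only
    linarith
  have s2 : t2 ⊆ {x | x ∈ Theta ∧ c ≤ lin α β α' β' x} := by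
    rintro _ ⟨η, ⟨hη, hη2⟩, rfl⟩
    refine ⟨⟨hm, hη⟩, ?_⟩
    unfold lin
    simp only
    linarith
  refine ⟨t1 ∪ t2, union_subset s1 s2, Or.inr ⟨m', ⟨hm', by linarith⟩, rfl⟩,
    Or.inl ⟨ξ, ⟨hξ, by linarith⟩, rfl⟩, ?_⟩
  exact IsPreconnected.union (m, ξ') ⟨m, ⟨hm, by linarith⟩, rfl⟩
    ⟨ξ', ⟨hξ', by linarith⟩, rfl⟩ p1 p2

/-! ### flat sides -/

lemma flat_bottom {ξ : ℂ} (h : ξ ∈ Cset) (h1 : |ξ.re| < 2) (h2 : ξ.im < 2) : ξ.im = -3 := by
  obtain ⟨h3, h4⟩ := abs_lt.mp h1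
  obtain ⟨e, _, _⟩ := Cset_W0 h ⟨h4, h2⟩
  have h5 : ξ.re = -3 + B (pr ξ) := by rw [e, cor_re, pr_cor]
  have h6 : 1 < pr ξ := B_gt_one (by linarith)
  rw [e, cor_im, D_of_ge h6.le]
  norm_num

lemma flat_left {ξ : ℂ} (h : ξ ∈ Cset) (h1 : |ξ.im| < 2) (h2 : ξ.re < 2) : ξ.re = -3 := by
  obtain ⟨h3, h4⟩ := abs_lt.mp h1
  obtain ⟨e, _, _⟩ := Cset_W0 h ⟨h2, h4⟩
  have h5 : ξ.im = -3 - D (pr ξ) := by rw [e, cor_im, pr_cor]
  have h6 : pr ξ < -1 := D_lt_neg_one (by linarith)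
  rw [e, cor_re, B_of_le h6.le]
  norm_num

lemma bottom_mem {x : ℝ} (h : |x| < 2) : (⟨x, -3⟩ : ℂ) ∈ Cset := by
  obtain ⟨h1, h2⟩ := abs_lt.mp h
  have := cor_mem (r := 3 + x) (by linarith) (by linarith)
  rw [cor_of_ge (by linarith)] at this
  convert this using 2
  ring

lemma left_mem {y : ℝ} (h : |y| < 2) : (⟨-3, y⟩ : ℂ) ∈ Cset := by
  obtain ⟨h1, h2⟩ := abs_lt.mp h
  have := cor_mem (r := -3 - y) (by linarith) (by linarith)
  rw [cor_of_le (by linarith)] at this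
  convert this using 2
  ring

lemma z1_cont : Continuous z1 := by
  have : z1 = fun x => (x.1.re : ℂ) + (x.2.re : ℂ) * Complex.I := by
    funext x; apply Complex.ext <;> simp [z1]
  rw [this]; fun_prop

lemma z2_cont : Continuous z2 := by
  have : z2 = fun x => ((-x.1.im : ℝ) : ℂ) + ((-x.2.im : ℝ) : ℂ) * Complex.I := by
    funext x; apply Complex.ext <;> simp [z2]
  rw [this]; fun_prop

lemma isOpen_O1 : IsOpen O1 := by
  have e : O1 = {x : ℂ × ℂ | x.1.im < -1} ∩ ({x | x.2.im < -1} ∩ {x | ‖z1 x‖ < 1}) := rfl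
  rw [e]
  have := z1_cont
  exact (isOpen_lt (by fun_prop) (by fun_prop)).inter
    ((isOpen_lt (by fun_prop) (by fun_prop)).inter (isOpen_lt (by fun_prop) (by fun_prop)))

lemma isOpen_O2 : IsOpen O2 := by
  have e : O2 = {x : ℂ × ℂ | x.1.re < -1} ∩ ({x | x.2.re < -1} ∩ {x | ‖z2 x‖ < 1}) := rfl
  rw [e]
  have := z2_cont
  exact (isOpen_lt (by fun_prop) (by fun_prop)).inter
    ((isOpen_lt (by fun_prop) (by fun_prop)).inter (isOpen_lt (by fun_prop) (by fun_prop)))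

lemma isClosed_N1 : IsClosed N1 := by
  have e : N1 = {x : ℂ × ℂ | x.1.im ≤ -1} ∩ ({x | x.2.im ≤ -1} ∩ {x | ‖z1 x‖ ≤ 1}) := rfl
  rw [e]
  have := z1_cont
  exact (isClosed_le (by fun_prop) (by fun_prop)).inter
    ((isClosed_le (by fun_prop) (by fun_prop)).inter (isClosed_le (by fun_prop) (by fun_prop)))

lemma isClosed_N2 : IsClosed N2 := by
  have e : N2 = {x : ℂ × ℂ | x.1.re ≤ -1} ∩ ({x | x.2.re ≤ -1} ∩ {x | ‖z2 x‖ ≤ 1}) := rfl
  rw [e]
  have := z2_cont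
  exact (isClosed_le (by fun_prop) (by fun_prop)).inter
    ((isClosed_le (by fun_prop) (by fun_prop)).inter (isClosed_le (by fun_prop) (by fun_prop)))

lemma O1_sub_N1 : O1 ⊆ N1 := fun _ h => ⟨h.1.le, h.2.1.le, h.2.2.le⟩
lemma O2_sub_N2 : O2 ⊆ N2 := fun _ h => ⟨h.1.le, h.2.1.le, h.2.2.le⟩

/-- points of the first closed disc -/
lemma N1_flat {x : ℂ × ℂ} (h : x ∈ Theta) (hN : x ∈ N1) :
    x = (⟨(z1 x).re, -3⟩, ⟨(z1 x).im, -3⟩) := by
  obtain ⟨h1, h2, h3⟩ := hN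
  have a1 := (Complex.abs_re_le_norm (z1 x)).trans h3
  have a2 := (Complex.abs_im_le_norm (z1 x)).trans h3
  have e1 : x.1.im = -3 := flat_bottom h.1 (lt_of_le_of_lt a1 (by norm_num)) (by linarith)
  have e2 : x.2.im = -3 := flat_bottom h.2 (lt_of_le_of_lt a2 (by norm_num)) (by linarith)
  apply Prod.ext
  · apply Complex.ext
    · rfl
    · exact e1
  · apply Complex.ext
    · rfl
    · exact e2

/-- points of the second closed disc -/
lemma N2_flat {x : ℂ × ℂ} (h : x ∈ Theta) (hN : x ∈ N2) :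
    x = (⟨-3, -(z2 x).re⟩, ⟨-3, -(z2 x).im⟩) := by
  obtain ⟨h1, h2, h3⟩ := hN
  have a1 := (Complex.abs_re_le_norm (z2 x)).trans h3
  have a2 := (Complex.abs_im_le_norm (z2 x)).trans h3
  have e1 : x.1.re = -3 := flat_left h.1 (by
    have : |x.1.im| = |(z2 x).re| := by simp [z2]
    rw [this]; exact lt_of_le_of_lt a1 (by norm_num)) (by linarith)
  have e2 : x.2.re = -3 := flat_left h.2 (by
    have : |x.2.im| = |(z2 x).im| := by simp [z2]
    rw [this]; exact lt_of_le_of_lt a2 (by norm_num)) (by linarith)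
  apply Prod.ext
  · apply Complex.ext
    · exact e1
    · simp [z2]
  · apply Complex.ext
    · exact e2
    · simp [z2]

lemma mk_cont_re (t : ℝ) : Continuous fun z : ℂ => (⟨z.re, t⟩ : ℂ) := by
  have : (fun z : ℂ => (⟨z.re, t⟩ : ℂ)) = fun z => (z.re : ℂ) + (t : ℂ) * Complex.I := by
    funext x; apply Complex.ext <;> simp
  rw [this]; fun_prop

lemma mk_cont_im (t : ℝ) : Continuous fun z : ℂ => (⟨z.im, t⟩ : ℂ) := by
  have : (fun z : ℂ => (⟨z.im, t⟩ : ℂ)) = fun z => (z.im : ℂ) + (t : ℂ) * Complex.I := by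
    funext x; apply Complex.ext <;> simp
  rw [this]; fun_prop

lemma mk_cont_re' (t : ℝ) : Continuous fun z : ℂ => (⟨t, -z.re⟩ : ℂ) := by
  have : (fun z : ℂ => (⟨t, -z.re⟩ : ℂ)) = fun z => (t : ℂ) - (z.re : ℂ) * Complex.I := by
    funext x; apply Complex.ext <;> simp
  rw [this]; fun_prop

lemma mk_cont_im' (t : ℝ) : Continuous fun z : ℂ => (⟨t, -z.im⟩ : ℂ) := by
  have : (fun z : ℂ => (⟨t, -z.im⟩ : ℂ)) = fun z => (t : ℂ) - (z.im : ℂ) * Complex.I := by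
    funext x; apply Complex.ext <;> simp
  rw [this]; fun_prop

/-- rim of the first disc -/
lemma rim1 {z : ℂ} (hz : ‖z‖ = 1) : ((⟨z.re, -3⟩, ⟨z.im, -3⟩) : ℂ × ℂ) ∈ Theta' ∧
    ((⟨z.re, -3⟩, ⟨z.im, -3⟩) : ℂ × ℂ) ∈ N1 := by
  have a1 := (Complex.abs_re_le_norm z).trans hz.le
  have a2 := (Complex.abs_im_le_norm z).trans hz.le
  have hz1 : z1 (⟨z.re, -3⟩, ⟨z.im, -3⟩) = z := rfl
  refine ⟨⟨⟨⟨bottom_mem (lt_of_le_of_lt a1 (by norm_num)),
    bottom_mem (lt_of_le_of_lt a2 (by norm_num))⟩, ?_⟩, ?_⟩, ?_⟩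
  · rintro ⟨_, _, h⟩
    rw [hz1, hz] at h
    exact lt_irrefl _ h
  · rintro ⟨_, _, h⟩
    have h2 := (Complex.abs_re_le_norm _).trans_lt h
    simp [z2] at h2
  · exact ⟨by norm_num, by norm_num, by rw [hz1, hz]⟩

/-- rim of the second disc -/
lemma rim2 {z : ℂ} (hz : ‖z‖ = 1) : ((⟨-3, -z.re⟩, ⟨-3, -z.im⟩) : ℂ × ℂ) ∈ Theta' ∧
    ((⟨-3, -z.re⟩, ⟨-3, -z.im⟩) : ℂ × ℂ) ∈ N2 := by
  have a1 := (Complex.abs_re_le_norm z).trans hz.le
  have a2 := (Complex.abs_im_le_norm z).trans hz.le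
  have hz1 : z2 (⟨-3, -z.re⟩, ⟨-3, -z.im⟩) = z := by
    unfold z2
    apply Complex.ext <;> simp
  refine ⟨⟨⟨⟨left_mem (by rw [abs_neg]; exact lt_of_le_of_lt a1 (by norm_num)),
    left_mem (by rw [abs_neg]; exact lt_of_le_of_lt a2 (by norm_num))⟩, ?_⟩, ?_⟩, ?_⟩
  · rintro ⟨_, _, h⟩
    have h2 := (Complex.abs_re_le_norm _).trans_lt h
    simp [z1] at h2
  · rintro ⟨_, _, h⟩
    rw [hz1, hz] at h
    exact lt_irrefl _ h
  · exact ⟨by norm_num, by norm_num, by rw [hz1, hz]⟩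

/-- Superlevel sets of linear functions on the product torus minus two discs. -/
lemma theta'_super (α β α' β' c : ℝ) :
    IsPreconnected {x | x ∈ Theta' ∧ c ≤ lin α β α' β' x} := by
  have e : {x | x ∈ Theta' ∧ c ≤ lin α β α' β' x} =
      ({x | x ∈ Theta ∧ c ≤ lin α β α' β' x} \ O1) \ O2 := by
    ext x
    simp only [Theta', Set.mem_ofPred_eq, Set.mem_sdiff]
    tauto
  rw [e]
  have step1 : IsPreconnected ({x | x ∈ Theta ∧ c ≤ lin α β α' β' x} \ O1) := by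
    apply preconn_hole (theta_super α β α' β' c) isOpen_O1 isClosed_N1 O1_sub_N1
    have himg : ({x | x ∈ Theta ∧ c ≤ lin α β α' β' x} \ O1) ∩ N1 =
        (fun z : ℂ => ((⟨z.re, -3⟩, ⟨z.im, -3⟩) : ℂ × ℂ)) ''
          {z | ‖z‖ = 1 ∧ c + 3 * β + 3 * β' ≤ α * z.re + α' * z.im} := by
      ext x
      constructor
      · rintro ⟨⟨⟨h1, h2⟩, h3⟩, h4⟩
        have e1 := N1_flat h1 h4
        refine ⟨z1 x, ⟨?_, ?_⟩, e1.symm⟩
        · apply le_antisymm h4.2.2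
          by_contra hcon
          push Not at hcon
          apply h3
          refine ⟨?_, ?_, hcon⟩
          · rw [e1]; norm_num
          · rw [e1]; norm_num
        · rw [e1] at h2
          unfold lin at h2
          simp only at h2
          linarith
      · rintro ⟨z, ⟨h1, h2⟩, rfl⟩
        obtain ⟨r1, r2⟩ := rim1 h1
        refine ⟨⟨⟨r1.1.1, ?_⟩, r1.1.2⟩, r2⟩
        unfold lin
        simp only
        linarith
    rw [himg]
    apply (circle_super _ _ _).image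
    exact ((mk_cont_re _).prodMk (mk_cont_im _)).continuousOn
  apply preconn_hole step1 isOpen_O2 isClosed_N2 O2_sub_N2
  have himg : (({x | x ∈ Theta ∧ c ≤ lin α β α' β' x} \ O1) \ O2) ∩ N2 =
      (fun z : ℂ => ((⟨-3, -z.re⟩, ⟨-3, -z.im⟩) : ℂ × ℂ)) ''
        {z | ‖z‖ = 1 ∧ c + 3 * α + 3 * α' ≤ (-β) * z.re + (-β') * z.im} := by
    ext x
    constructor
    · rintro ⟨⟨⟨⟨h1, h2⟩, _⟩, h3⟩, h4⟩
      have e1 := N2_flat h1 h4
      refine ⟨z2 x, ⟨?_, ?_⟩, e1.symm⟩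
      · apply le_antisymm h4.2.2
        by_contra hcon
        push Not at hcon
        apply h3
        refine ⟨?_, ?_, hcon⟩
        · rw [e1]; norm_num
        · rw [e1]; norm_num
      · rw [e1] at h2
        unfold lin at h2
        simp only at h2
        linarith
    · rintro ⟨z, ⟨h1, h2⟩, rfl⟩
      obtain ⟨r1, r2⟩ := rim2 h1
      refine ⟨⟨⟨⟨r1.1.1, ?_⟩, r1.1.2⟩, r1.2⟩, r2⟩
      unfold lin
      simp only
      linarith
  rw [himg]
  apply (circle_super _ _ _).image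
  exact ((mk_cont_re' _).prodMk (mk_cont_im' _)).continuousOn

end

end Pool.Agent.Lib.MP_d43ca8_gt
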