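import Pool.Agent.Lib.MP_d43ca8_gt.Surface

set_option autoImplicit false

/-!
All transition maps between the patches of the surface have positive Jacobian.
-/

namespace Pool.Agent.Lib.MP_d43ca8_gt

open Set Real Topology
open scoped ContDiff

noncomputable section

lemma pr_rot {k : ℂ} (hk : k ^ 4 = 1) {r : ℝ} (h : k * cor r ∈ W0) :
    HasDerivAt (fun r => pr (k * cor r)) 1 r := by
  rcases g4 hk with rfl | rfl | rfl | rfl
  · have : (fun r => pr (1 * cor r)) = fun r => r := by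
      funext s; rw [one_mul, pr_cor]
    rw [this]
    exact hasDerivAt_id r
  · have e : (fun r => pr (Complex.I * cor r)) = fun r => 6 + (D r - B r) := by
      funext s
      simp [pr]
      ring
    have h1 : D r < -1 := by
      have := h.1
      simp at this
      linarith
    have h2 := D_lt_neg_one h1
    rw [e]
    have h3 : HasDerivAt (fun r => 6 + (D r - B r)) ((1 - p r) - p r) r :=
      ((hasDerivAt_D r).sub (hasDerivAt_B r)).const_add 6
    rw [p_of_le h2.le] at h3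
    simpa using h3
  · exfalso
    have h1 := h.1
    have h2 := h.2
    simp at h1 h2
    have h3 := B_gt_one (r := r) (by linarith)
    have h4 := D_lt_neg_one (r := r) (by linarith)
    linarith
  · have e : (fun r => pr (-Complex.I * cor r)) = fun r => -6 + (B r - D r) := by
      funext s
      simp [pr]
      ring
    have h1 : 1 < B r := by
      have := h.2
      simp at this
      linarith
    have h2 := B_gt_one h1
    rw [e]
    have h3 : HasDerivAt (fun r => -6 + (B r - D r)) (p r - (1 - p r)) r :=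
      ((hasDerivAt_B r).sub (hasDerivAt_D r)).const_add (-6)
    rw [p_of_ge h2.le] at h3
    simpa using h3

lemma hasFDerivAt_mk {φ ψ : ℝ → ℝ} {z : ℂ} (h1 : HasDerivAt φ 1 z.re)
    (h2 : HasDerivAt ψ 1 z.im) :
    HasFDerivAt (fun z : ℂ => (⟨φ z.re, ψ z.im⟩ : ℂ)) (ContinuousLinearMap.id ℝ ℂ) z := by
  have e : (fun z : ℂ => (⟨φ z.re, ψ z.im⟩ : ℂ)) = fun z =>
      Complex.ofRealCLM (φ (Complex.reCLM z)) +
        Complex.ofRealCLM (ψ (Complex.imCLM z)) * Complex.I := by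
    funext z; apply Complex.ext <;> simp
  rw [e]
  have k1 : HasFDerivAt (fun z : ℂ => φ (Complex.reCLM z)) _ z :=
    h1.hasFDerivAt.comp z Complex.reCLM.hasFDerivAt
  have k2 : HasFDerivAt (fun z : ℂ => ψ (Complex.imCLM z)) _ z :=
    h2.hasFDerivAt.comp z Complex.imCLM.hasFDerivAt
  have k3 := Complex.ofRealCLM.hasFDerivAt.comp z k1
  have k4 := Complex.ofRealCLM.hasFDerivAt.comp z k2
  have k5 := k3.add (k4.mul_const Complex.I)
  have e2 : (Complex.ofRealCLM ∘SL ContinuousLinearMap.toSpanSingleton ℝ 1 ∘SL Complex.reCLM +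
      Complex.I • Complex.ofRealCLM ∘SL ContinuousLinearMap.toSpanSingleton ℝ 1 ∘SL
        Complex.imCLM) = ContinuousLinearMap.id ℝ ℂ := by
    apply ContinuousLinearMap.ext
    intro w
    apply Complex.ext <;> simp
  rw [← e2]
  exact k5

lemma det_id : (ContinuousLinearMap.id ℝ ℂ).det = 1 := by
  simp [ContinuousLinearMap.det]

/-- derivative of the composition of two coordinate changes -/
lemma det_symm {E V : Type*} [NormedAddCommGroup E] [NormedSpace ℝ E]
    [NormedAddCommGroup V] [NormedSpace ℝ V] {M : Set E} (P Q : Patch E V M) {y : V}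
    (hy : y ∈ P.U) (hy' : P.psi y ∈ Q.W)
    (h : 0 < (fderiv ℝ (fun z => P.pi (Q.psi z)) (Q.pi (P.psi y))).det) :
    0 < (fderiv ℝ (fun z => Q.pi (P.psi z)) y).det := by
  have hm : P.psi y ∈ M := P.psi_mem y hy
  have hz : Q.pi (P.psi y) ∈ Q.U := Q.pi_mem _ hm hy'
  have hback : Q.psi (Q.pi (P.psi y)) = P.psi y := Q.right _ hm hy'
  have cP : ContDiffAt ℝ ∞ P.psi y := P.contDiffOn_psi.contDiffAt (P.isOpen_U.mem_nhds hy)
  have cQ : ContDiffAt ℝ ∞ Q.psi (Q.pi (P.psi y)) :=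
    Q.contDiffOn_psi.contDiffAt (Q.isOpen_U.mem_nhds hz)
  have cQp : ContDiffAt ℝ ∞ Q.pi (P.psi y) :=
    Q.contDiffOn_pi.contDiffAt (Q.isOpen_W.mem_nhds hy')
  have cPp : ContDiffAt ℝ ∞ P.pi (Q.psi (Q.pi (P.psi y))) := by
    rw [hback]
    exact P.contDiffOn_pi.contDiffAt (P.isOpen_W.mem_nhds (P.psi_mem_W y hy))
  have d1 : DifferentiableAt ℝ (fun z => Q.pi (P.psi z)) y :=
    (cQp.comp y cP).differentiableAt (by norm_num)
  have d2 : DifferentiableAt ℝ (fun z => P.pi (Q.psi z)) (Q.pi (P.psi y)) :=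
    (cPp.comp _ cQ).differentiableAt (by norm_num)
  have hcomp : fderiv ℝ ((fun z => P.pi (Q.psi z)) ∘ fun z => Q.pi (P.psi z)) y =
      (fderiv ℝ (fun z => P.pi (Q.psi z)) (Q.pi (P.psi y))).comp
        (fderiv ℝ (fun z => Q.pi (P.psi z)) y) := fderiv_comp y d2 d1
  have hid : fderiv ℝ ((fun z => P.pi (Q.psi z)) ∘ fun z => Q.pi (P.psi z)) y =
      ContinuousLinearMap.id ℝ V := by
    have hev : ((fun z => P.pi (Q.psi z)) ∘ fun z => Q.pi (P.psi z)) =ᶠ[𝓝 y] id := by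
      have hc : ContinuousAt P.psi y := cP.continuousAt
      filter_upwards [P.isOpen_U.mem_nhds hy, hc (Q.isOpen_W.mem_nhds hy')] with z hz1 hz2
      simp only [Function.comp_apply, id]
      rw [Q.right _ (P.psi_mem z hz1) hz2, P.left z hz1]
    rw [hev.fderiv_eq, fderiv_id]
  rw [hid] at hcomp
  have hdet : (fderiv ℝ (fun z => P.pi (Q.psi z)) (Q.pi (P.psi y))).det *
      (fderiv ℝ (fun z => Q.pi (P.psi z)) y).det = 1 := by
    have h1 := congrArg ContinuousLinearMap.det hcomp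
    have h2 : ∀ A B : V →L[ℝ] V, (A ∘SL B).det = A.det * B.det := fun A B =>
      LinearMap.det_comp (A : V →ₗ[ℝ] V) (B : V →ₗ[ℝ] V)
    have h3 : (ContinuousLinearMap.id ℝ V).det = 1 := LinearMap.det_id
    rw [h2, h3] at h1
    exact h1.symm
  by_contra hcon
  push Not at hcon
  nlinarith

lemma det_self {E V : Type*} [NormedAddCommGroup E] [NormedSpace ℝ E]
    [NormedAddCommGroup V] [NormedSpace ℝ V] {M : Set E} (P : Patch E V M) {y : V}
    (hy : y ∈ P.U) : 0 < (fderiv ℝ (fun z => P.pi (P.psi z)) y).det := by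
  have hev : (fun z => P.pi (P.psi z)) =ᶠ[𝓝 y] id := by
    filter_upwards [P.isOpen_U.mem_nhds hy] with z hz
    exact P.left z hz
  rw [hev.fderiv_eq, fderiv_id]
  simp [ContinuousLinearMap.det]

/-- the model coordinate change -/
lemma model_deriv {k l : ℂ} (hk : k ^ 4 = 1) (hl : l ^ 4 = 1) (s : ℝ) {z : ℂ}
    (h1 : k * cor (z.re + s) ∈ W0) (h2 : l * cor (z.im + s) ∈ W0) :
    HasFDerivAt (fun z : ℂ => (⟨pr (k * cor (z.re + s)), pr (l * cor (z.im + s))⟩ : ℂ))
      (ContinuousLinearMap.id ℝ ℂ) z := by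
  apply hasFDerivAt_mk (φ := fun t => pr (k * cor (t + s))) (ψ := fun t => pr (l * cor (t + s)))
  · exact (pr_rot hk h1).comp_add_const z.re s
  · exact (pr_rot hl h2).comp_add_const z.im s

lemma det_GG {g h g' h' : ℂ} (hg : g ^ 4 = 1) (hh : h ^ 4 = 1) (hg' : g' ^ 4 = 1)
    (hh' : h' ^ 4 = 1) {y : ℂ} (hy' : psG g h y ∈ (patchG g' h' hg' hh').W) :
    0 < (fderiv ℝ (fun z => piG g' h' (psG g h z)) y).det := by
  obtain ⟨h1, h2, _⟩ := hy'
  have h1' : g'⁻¹ * (g * cor y.re) ∈ W0 := h1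
  have h2' : h'⁻¹ * (h * cor y.im) ∈ W0 := h2
  rw [← mul_assoc] at h1' h2'
  have hk : (g'⁻¹ * g) ^ 4 = 1 := by rw [mul_pow, inv_pow, hg, hg']; norm_num
  have hl : (h'⁻¹ * h) ^ 4 = 1 := by rw [mul_pow, inv_pow, hh, hh']; norm_num
  have e : (fun z => piG g' h' (psG g h z)) = fun z : ℂ =>
      (⟨pr ((g'⁻¹ * g) * cor (z.re + 0)), pr ((h'⁻¹ * h) * cor (z.im + 0))⟩ : ℂ) := by
    funext z
    unfold piG psG Phi
    simp only [add_zero, mul_assoc]
  rw [e, (model_deriv hk hl 0 (by simpa using h1') (by simpa using h2')).fderiv, det_id]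
  norm_num

lemma det_mul {c : ℂ} (hc : c ≠ 0) (A : ℂ →L[ℝ] ℂ) (hA : ∀ z, A z = z * c) : 0 < A.det := by
  have e : (A : ℂ →ₗ[ℝ] ℂ) = Algebra.lmul ℝ ℂ c := by
    ext z
    simp [hA, mul_comm]
  rw [ContinuousLinearMap.det, e, ← Algebra.norm_apply, Algebra.norm_complex_apply]
  exact Complex.normSq_pos.mpr hc

lemma bottom_eq_cor {t : ℝ} (h : |t| < 2) : (⟨t, -3⟩ : ℂ) = cor (t + 3) := by
  obtain ⟨h1, h2⟩ := abs_lt.mp h
  rw [cor_of_ge (by linarith)]
  congr 1; ring

lemma left_eq_cor {t : ℝ} (h : |t| < 2) : (⟨-3, -t⟩ : ℂ) = cor (t + -3) := by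
  obtain ⟨h1, h2⟩ := abs_lt.mp h
  rw [cor_of_le (by linarith)]
  congr 1; ring

lemma not_Ann {w : ℂ} (h : (psT w).2.2.1 < 1) : 1 < ‖w‖ ∨ ‖w‖ < 1 / 2 := by
  by_contra hcon
  push Not at hcon
  have hw : w ∈ Ann := ⟨hcon.2, hcon.1⟩
  obtain ⟨g1, g2⟩ := Ann_rad hw
  have h' : sT (2 - rad ‖w‖ ^ 2) < 1 := h
  rw [sT_one (by nlinarith)] at h'
  exact lt_irrefl _ h'

lemma re_im_lt {z : ℂ} (h : ‖z‖ ^ 2 < 2) : |z.re| < 2 ∧ |z.im| < 2 := by
  rw [← Complex.normSq_eq_norm_sq, Complex.normSq_apply] at h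
  exact ⟨abs_lt_two (by nlinarith [mul_self_nonneg z.im]),
    abs_lt_two (by nlinarith [mul_self_nonneg z.re])⟩

lemma det_TG {g h : ℂ} (hg : g ^ 4 = 1) (hh : h ^ 4 = 1) {y : ℂ} (hy : y ∈ UT)
    (hy' : psT y ∈ (patchG g h hg hh).W) :
    0 < (fderiv ℝ (fun z => piG g h (psT z)) y).det := by
  obtain ⟨h1, h2, h3⟩ := hy'
  have hgi : (g⁻¹) ^ 4 = 1 := by rw [inv_pow, hg, inv_one]
  have hhi : (h⁻¹) ^ 4 = 1 := by rw [inv_pow, hh, inv_one]
  rcases not_Ann h3 with hn | hn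
  · have hr := hy.2
    rw [rad_of_ge hn.le] at hr
    obtain ⟨r1, r2⟩ := re_im_lt hr
    have e1 : (psT y).1 = cor (y.re + 3) := by
      rw [psT_outer hn.le]; exact bottom_eq_cor r1
    have e2 : (psT y).2.1 = cor (y.im + 3) := by
      rw [psT_outer hn.le]; exact bottom_eq_cor r2
    rw [e1] at h1
    rw [e2] at h2
    have hev : (fun z => piG g h (psT z)) =ᶠ[𝓝 y] fun z : ℂ =>
        (⟨pr (g⁻¹ * cor (z.re + 3)), pr (h⁻¹ * cor (z.im + 3))⟩ : ℂ) := by
      have o1 : ∀ᶠ z : ℂ in 𝓝 y, 1 < ‖z‖ :=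
        (isOpen_lt continuous_const continuous_norm).mem_nhds hn
      have o2 : ∀ᶠ z : ℂ in 𝓝 y, |z.re| < 2 :=
        (isOpen_lt (by fun_prop) continuous_const).mem_nhds r1
      have o3 : ∀ᶠ z : ℂ in 𝓝 y, |z.im| < 2 :=
        (isOpen_lt (by fun_prop) continuous_const).mem_nhds r2
      filter_upwards [o1, o2, o3] with z z1 z2 z3
      unfold piG
      rw [psT_outer z1.le, ← bottom_eq_cor z2, ← bottom_eq_cor z3]
      rfl
    rw [hev.fderiv_eq, (model_deriv hgi hhi 3 h1 h2).fderiv, det_id]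
    norm_num
  · have hr := hy.2
    obtain ⟨q1, q2⟩ := rad_inner hy.1 hn.le
    rw [q1, neg_sq] at hr
    obtain ⟨r1, r2⟩ := re_im_lt hr
    have e1 : (psT y).1 = cor ((Complex.I / 2 / y).re + -3) := by
      rw [psT_inner hy.1 hn.le]; exact left_eq_cor r1
    have e2 : (psT y).2.1 = cor ((Complex.I / 2 / y).im + -3) := by
      rw [psT_inner hy.1 hn.le]; exact left_eq_cor r2
    rw [e1] at h1
    rw [e2] at h2
    have hd : HasDerivAt (fun z : ℂ => Complex.I / 2 / z) (-(Complex.I / 2) / y ^ 2) y := by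
      have := (hasDerivAt_inv hy.1).const_mul (Complex.I / 2)
      have e4 : Complex.I / 2 * -(y ^ 2)⁻¹ = -(Complex.I / 2) / y ^ 2 := by
        rw [neg_div, div_eq_mul_inv]; ring
      rw [e4] at this
      exact this
    have hcont : ContinuousAt (fun z : ℂ => Complex.I / 2 / z) y := hd.continuousAt
    have hev : (fun z => piG g h (psT z)) =ᶠ[𝓝 y] (fun z : ℂ =>
        (⟨pr (g⁻¹ * cor (z.re + -3)), pr (h⁻¹ * cor (z.im + -3))⟩ : ℂ)) ∘
          fun z => Complex.I / 2 / z := by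
      have o1 : ∀ᶠ z : ℂ in 𝓝 y, ‖z‖ < 1 / 2 :=
        (isOpen_lt continuous_norm continuous_const).mem_nhds hn
      have o0 : ∀ᶠ z : ℂ in 𝓝 y, z ≠ 0 := isOpen_ne.mem_nhds hy.1
      have o2 : ∀ᶠ z : ℂ in 𝓝 y, |(Complex.I / 2 / z).re| < 2 :=
        hcont ((isOpen_lt (f := fun z : ℂ => |z.re|) (by fun_prop) continuous_const).mem_nhds r1)
      have o3 : ∀ᶠ z : ℂ in 𝓝 y, |(Complex.I / 2 / z).im| < 2 :=
        hcont ((isOpen_lt (f := fun z : ℂ => |z.im|) (by fun_prop) continuous_const).mem_nhds r2)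
      filter_upwards [o0, o1, o2, o3] with z z0 z1 z2 z3
      simp only [Function.comp_apply]
      unfold piG
      rw [psT_inner z0 z1.le, ← left_eq_cor z2, ← left_eq_cor z3]
      rfl
    have hcomp := (model_deriv hgi hhi (-3) (z := Complex.I / 2 / y) h1 h2).comp y
      (hd.hasFDerivAt.restrictScalars ℝ)
    rw [hev.fderiv_eq, hcomp.fderiv]
    apply det_mul (c := -(Complex.I / 2) / y ^ 2)
    · apply div_ne_zero
      · simp
      · exact pow_ne_zero _ hy.1
    · intro z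
      simp

/-- All transition maps have positive Jacobian. -/
lemma patches_det (i j : Idx) {y : ℂ} (hy : y ∈ (patches i).U)
    (hy' : (patches i).psi y ∈ (patches j).W) :
    0 < (fderiv ℝ (fun z => (patches j).pi ((patches i).psi z)) y).det := by
  match i, j, hy, hy' with
  | none, none, hy, _ => exact det_self patchT hy
  | some (g, h), some (g', h'), _, hy' => exact det_GG g.2 h.2 g'.2 h'.2 hy'
  | none, some (g, h), hy, hy' => exact det_TG g.2 h.2 hy hy'
  | some (g, h), none, hy, hy' =>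
    apply det_symm (patchG g.1 h.1 g.2 h.2) patchT hy hy'
    have hm := (patchG g.1 h.1 g.2 h.2).psi_mem y hy
    have hz : patchT.pi ((patchG g.1 h.1 g.2 h.2).psi y) ∈ patchT.U := patchT.pi_mem _ hm hy'
    have hback := patchT.right _ hm hy'
    apply det_TG g.2 h.2 hz
    have e : psT (patchT.pi ((patchG g.1 h.1 g.2 h.2).psi y)) =
      (patchG g.1 h.1 g.2 h.2).psi y := hback
    rw [e]
    exact (patchG g.1 h.1 g.2 h.2).psi_mem_W y hy

end

end Pool.Agent.Lib.MP_d43ca8_gt
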