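import Mathlib

set_option autoImplicit false

/-!
Submanifolds of a normed space given by explicit patches.
-/

namespace Pool.Agent.Lib.MP_d43ca8_gt

open Set Topology
open scoped ContDiff Manifold

noncomputable section

/-- A patch of a subset `M` of a normed space `E`: an open set `W` of the ambient space on which
there is a smooth coordinate map `pi`, with smooth inverse `psi` defined on the open set `U`. -/
structure Patch (E V : Type*) [NormedAddCommGroup E] [NormedSpace ℝ E]
    [NormedAddCommGroup V] [NormedSpace ℝ V] (M : Set E) where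
  W : Set E
  U : Set V
  pi : E → V
  psi : V → E
  isOpen_W : IsOpen W
  isOpen_U : IsOpen U
  contDiffOn_pi : ContDiffOn ℝ ∞ pi W
  contDiffOn_psi : ContDiffOn ℝ ∞ psi U
  psi_mem : ∀ x ∈ U, psi x ∈ M
  psi_mem_W : ∀ x ∈ U, psi x ∈ W
  pi_mem : ∀ m ∈ M, m ∈ W → pi m ∈ U
  left : ∀ x ∈ U, pi (psi x) = x
  right : ∀ m ∈ M, m ∈ W → psi (pi m) = m

variable {E V : Type*} [NormedAddCommGroup E] [NormedSpace ℝ E]
    [NormedAddCommGroup V] [NormedSpace ℝ V] {M : Set E}

open Classical in
/-- the chart of a patch -/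
def Patch.chart (P : Patch E V M) (m₀ : M) : OpenPartialHomeomorph M V where
  toFun m := P.pi m.1
  invFun x := if h : x ∈ P.U then ⟨P.psi x, P.psi_mem x h⟩ else m₀
  source := {m | m.1 ∈ P.W}
  target := P.U
  map_source' m hm := P.pi_mem m.1 m.2 hm
  map_target' x hx := by
    simp only [dif_pos hx]
    exact P.psi_mem_W x hx
  left_inv' m hm := by
    have h : P.pi m.1 ∈ P.U := P.pi_mem m.1 m.2 hm
    simp only [dif_pos h]
    exact Subtype.ext (P.right m.1 m.2 hm)
  right_inv' x hx := by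
    simp only [dif_pos hx]
    exact P.left x hx
  open_source := P.isOpen_W.preimage continuous_subtype_val
  open_target := P.isOpen_U
  continuousOn_toFun :=
    P.contDiffOn_pi.continuousOn.comp continuous_subtype_val.continuousOn (fun _ hm => hm)
  continuousOn_invFun := by
    rw [continuousOn_iff_continuous_domRestrict, continuous_induced_rng]
    have h := continuousOn_iff_continuous_domRestrict.mp P.contDiffOn_psi.continuousOn
    convert h using 1
    funext x
    simp only [Function.comp_apply, Set.domRestrict_apply, dif_pos x.2]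

lemma Patch.chart_apply (P : Patch E V M) (m₀ m : M) : P.chart m₀ m = P.pi m.1 := rfl

lemma Patch.chart_source (P : Patch E V M) (m₀ : M) : (P.chart m₀).source = {m | m.1 ∈ P.W} :=
  rfl

lemma Patch.chart_target (P : Patch E V M) (m₀ : M) : (P.chart m₀).target = P.U := rfl

lemma Patch.chart_symm (P : Patch E V M) (m₀ : M) {x : V} (hx : x ∈ P.U) :
    ((P.chart m₀).symm x).1 = P.psi x := by
  have : (P.chart m₀).symm x = ⟨P.psi x, P.psi_mem x hx⟩ := dif_pos hx
  rw [this]

variable {ι : Type*}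

open Classical in
/-- The charted space structure given by a covering family of patches. -/
@[reducible] def patchCharted (P : ι → Patch E V M) (cov : ∀ m ∈ M, ∃ i, m ∈ (P i).W) (m₀ : M) :
    ChartedSpace V M where
  atlas := Set.range fun i => (P i).chart m₀
  chartAt m := (P (Classical.choose (cov m.1 m.2))).chart m₀
  mem_chart_source m := Classical.choose_spec (cov m.1 m.2)
  chart_mem_atlas _ := ⟨_, rfl⟩

lemma trans_source (P Q : Patch E V M) (m₀ : M) {y : V}
    (hy : y ∈ ((P.chart m₀).symm ≫ₕ Q.chart m₀).source) : y ∈ P.U ∧ P.psi y ∈ Q.W := by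
  rw [OpenPartialHomeomorph.trans_source] at hy
  have h1 : y ∈ P.U := hy.1
  refine ⟨h1, ?_⟩
  have h2 : ((P.chart m₀).symm y).1 ∈ Q.W := hy.2
  rwa [P.chart_symm m₀ h1] at h2

lemma trans_apply (P Q : Patch E V M) (m₀ : M) {y : V} (hy : y ∈ P.U) :
    ((P.chart m₀).symm ≫ₕ Q.chart m₀) y = Q.pi (P.psi y) := by
  rw [OpenPartialHomeomorph.coe_trans, Function.comp_apply, Patch.chart_apply,
    P.chart_symm m₀ hy]

lemma patch_isManifold (P : ι → Patch E V M) (cov : ∀ m ∈ M, ∃ i, m ∈ (P i).W) (m₀ : M) :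
    @IsManifold ℝ _ V _ _ V _ 𝓘(ℝ, V) ∞ M _ (patchCharted P cov m₀) := by
  let _ := patchCharted P cov m₀
  apply isManifold_of_contDiffOn
  rintro _ _ ⟨i, rfl⟩ ⟨j, rfl⟩
  have h1 : ContDiffOn ℝ ∞ (fun y => (P j).pi ((P i).psi y))
      (((P i).chart m₀).symm ≫ₕ (P j).chart m₀).source := by
    apply (P j).contDiffOn_pi.comp ((P i).contDiffOn_psi.mono
      (fun y hy => (trans_source _ _ m₀ hy).1))
    exact fun y hy => (trans_source _ _ m₀ hy).2
  simp only [modelWithCornersSelf_coe, modelWithCornersSelf_coe_symm, Set.preimage_id,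
    Set.range_id, Set.inter_univ, CompTriple.comp_eq]
  apply h1.congr
  intro y hy
  exact trans_apply _ _ m₀ (trans_source _ _ m₀ hy).1

/-- Derivative of transition maps. -/
lemma trans_fderiv (P Q : Patch E V M) (m₀ : M) {y : V}
    (hy : y ∈ ((P.chart m₀).symm ≫ₕ Q.chart m₀).source) :
    fderiv ℝ ((P.chart m₀).symm ≫ₕ Q.chart m₀) y = fderiv ℝ (fun y => Q.pi (P.psi y)) y := by
  apply Filter.EventuallyEq.fderiv_eq
  filter_upwards [P.isOpen_U.mem_nhds (trans_source _ _ m₀ hy).1] with z hz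
  exact trans_apply _ _ m₀ hz

variable {F : Type*} [NormedAddCommGroup F] [NormedSpace ℝ F]

lemma patch_contMDiff (P : ι → Patch E V M) (cov : ∀ m ∈ M, ∃ i, m ∈ (P i).W) (m₀ : M)
    (L : E →L[ℝ] F) :
    letI := patchCharted P cov m₀
    ContMDiff 𝓘(ℝ, V) 𝓘(ℝ, F) ∞ (fun m : M => L m.1) ∧
    ∀ m : M, ∃ i, m.1 ∈ (P i).W ∧ mfderiv 𝓘(ℝ, V) 𝓘(ℝ, F) (fun m : M => L m.1) m =
      fderiv ℝ (fun y => L ((P i).psi y)) ((P i).pi m.1) := by
  let _ := patchCharted P cov m₀
  have key : ∀ m : M, ∃ i, m.1 ∈ (P i).W ∧ chartAt V m = (P i).chart m₀ := fun m =>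
    ⟨_, Classical.choose_spec (cov m.1 m.2), rfl⟩
  have hev : ∀ (m : M) (i : ι), m.1 ∈ (P i).W →
      ((fun m : M => L m.1) ∘ ((P i).chart m₀).symm) =ᶠ[𝓝 ((P i).pi m.1)]
        fun y => L ((P i).psi y) := by
    intro m i hi
    filter_upwards [(P i).isOpen_U.mem_nhds ((P i).pi_mem m.1 m.2 hi)] with y hy
    simp only [Function.comp_apply]
    rw [(P i).chart_symm m₀ hy]
  have hsm : ∀ (m : M) (i : ι), m.1 ∈ (P i).W →
      ContDiffAt ℝ ∞ (fun y => L ((P i).psi y)) ((P i).pi m.1) := by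
    intro m i hi
    exact L.contDiff.contDiffAt.comp _ ((P i).contDiffOn_psi.contDiffAt
      ((P i).isOpen_U.mem_nhds ((P i).pi_mem m.1 m.2 hi)))
  have hcont : Continuous fun m : M => L m.1 := L.continuous.comp continuous_subtype_val
  have hC : ContMDiff 𝓘(ℝ, V) 𝓘(ℝ, F) ∞ (fun m : M => L m.1) := by
    intro m
    obtain ⟨i, hi, hch⟩ := key m
    rw [contMDiffAt_iff]
    refine ⟨hcont.continuousAt, ?_⟩
    simp only [mfld_simps, hch]
    exact ((hsm m i hi).congr_of_eventuallyEq (hev m i hi)).contDiffWithinAt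
  refine ⟨hC, fun m => ?_⟩
  obtain ⟨i, hi, hch⟩ := key m
  refine ⟨i, hi, ?_⟩
  rw [((hC m).mdifferentiableAt (by norm_num)).mfderiv]
  simp only [mfld_simps, writtenInExtChartAt, hch]
  rw [fderivWithin_univ]
  exact (hev m i hi).fderiv_eq

end

end Pool.Agent.Lib.MP_d43ca8_gt
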