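import Pool.Agent.Lib.MP_d43ca8_gt.Base

set_option autoImplicit false

/-!
Elementary connectedness lemmas: fibres over an interval, removing a disc, and superlevel sets of
linear functions on the unit circle.
-/

namespace Pool.Agent.Lib.MP_d43ca8_gt

open Set Real

noncomputable section

/-- A compact set whose image is preconnected and whose fibres are preconnected is
preconnected. -/
lemma preconn_of_fibers {X Y : Type*} [TopologicalSpace X] [TopologicalSpace Y] [T2Space Y]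
    {S : Set X} (hS : IsCompact S) {f : X → Y} (hf : ContinuousOn f S)
    (hI : IsPreconnected (f '' S))
    (hfib : ∀ y ∈ f '' S, IsPreconnected (S ∩ f ⁻¹' {y})) : IsPreconnected S := by
  rw [isPreconnected_closed_iff]
  intro t t' ht ht' hcov h1 h2
  have c1 : IsClosed (f '' (S ∩ t)) :=
    ((hS.inter_right ht).image_of_continuousOn (hf.mono inter_subset_left)).isClosed
  have c2 : IsClosed (f '' (S ∩ t')) :=
    ((hS.inter_right ht').image_of_continuousOn (hf.mono inter_subset_left)).isClosed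
  have hI' := isPreconnected_closed_iff.mp hI _ _ c1 c2 (by
    rintro _ ⟨x, hx, rfl⟩
    rcases hcov hx with h | h
    · exact Or.inl ⟨x, ⟨hx, h⟩, rfl⟩
    · exact Or.inr ⟨x, ⟨hx, h⟩, rfl⟩) (by
    obtain ⟨x, hx, hxt⟩ := h1
    exact ⟨f x, ⟨x, hx, rfl⟩, ⟨x, ⟨hx, hxt⟩, rfl⟩⟩) (by
    obtain ⟨x, hx, hxt⟩ := h2
    exact ⟨f x, ⟨x, hx, rfl⟩, ⟨x, ⟨hx, hxt⟩, rfl⟩⟩)
  obtain ⟨y, hy, ⟨x, ⟨hxS, hxt⟩, hxy⟩, ⟨x', ⟨hx'S, hx't⟩, hx'y⟩⟩ := hI'
  have := isPreconnected_closed_iff.mp (hfib y hy) t t' ht ht'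
    (inter_subset_left.trans hcov) ⟨x, ⟨hxS, hxy⟩, hxt⟩ ⟨x', ⟨hx'S, hx'y⟩, hx't⟩
  obtain ⟨z, ⟨hzS, _⟩, hz⟩ := this
  exact ⟨z, hzS, hz⟩

/-- Removing an open piece `O` from a preconnected set keeps it preconnected as soon as the part
of the complement in a closed neighbourhood `N` of `O` is preconnected. -/
lemma preconn_hole {X : Type*} [TopologicalSpace X] {S O N : Set X} (hS : IsPreconnected S)
    (hO : IsOpen O) (hN : IsClosed N) (hON : O ⊆ N)
    (hG : IsPreconnected ((S \ O) ∩ N)) : IsPreconnected (S \ O) := by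
  -- the main step, with the rim inside `t`
  have main : ∀ t t' : Set X, IsClosed t → IsClosed t' → S \ O ⊆ t ∪ t' →
      ((S \ O) ∩ t).Nonempty → ((S \ O) ∩ t').Nonempty → ((S \ O) ∩ N) ∩ t' = ∅ →
      ((S \ O) ∩ (t ∩ t')).Nonempty := by
    intro t t' ht ht' hcov h1 h2 hrim
    have h := isPreconnected_closed_iff.mp hS (t ∪ N) (t' ∩ Oᶜ) (ht.union hN)
      (ht'.inter hO.isClosed_compl) (by
        intro x hx
        by_cases hxO : x ∈ O
        · exact Or.inl (Or.inr (hON hxO))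
        · rcases hcov ⟨hx, hxO⟩ with h | h
          · exact Or.inl (Or.inl h)
          · exact Or.inr ⟨h, hxO⟩) (by
        obtain ⟨x, hx, hxt⟩ := h1
        exact ⟨x, hx.1, Or.inl hxt⟩) (by
        obtain ⟨x, hx, hxt⟩ := h2
        exact ⟨x, hx.1, hxt, hx.2⟩)
    obtain ⟨x, hxS, hx1, hx2, hx3⟩ := h
    rcases hx1 with hx1 | hx1
    · exact ⟨x, ⟨hxS, hx3⟩, hx1, hx2⟩
    · exfalso
      have : x ∈ ((S \ O) ∩ N) ∩ t' := ⟨⟨⟨hxS, hx3⟩, hx1⟩, hx2⟩
      rw [hrim] at this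
      exact this
  rw [isPreconnected_closed_iff]
  intro t t' ht ht' hcov h1 h2
  by_cases g1 : (((S \ O) ∩ N) ∩ t').Nonempty
  · by_cases g2 : (((S \ O) ∩ N) ∩ t).Nonempty
    · obtain ⟨x, ⟨hx, _⟩, hx2⟩ := isPreconnected_closed_iff.mp hG t t' ht ht'
        (inter_subset_left.trans hcov) g2 g1
      exact ⟨x, hx, hx2⟩
    · have := main t' t ht' ht (by rwa [union_comm]) h2 h1 (not_nonempty_iff_eq_empty.mp g2)
      rwa [inter_comm t' t] at this
  · exact main t t' ht ht' hcov h1 h2 (not_nonempty_iff_eq_empty.mp g1)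

lemma cos_super (ρ c : ℝ) (hρ : 0 ≤ ρ) :
    IsPreconnected {s : ℝ | s ∈ Icc (-π) π ∧ c ≤ ρ * Real.cos s} := by
  apply OrdConnected.isPreconnected
  refine ⟨?_⟩
  rintro s ⟨hs, hcs⟩ t ⟨ht, hct⟩ x hx
  refine ⟨⟨hs.1.trans hx.1, hx.2.trans ht.2⟩, ?_⟩
  rcases le_total 0 x with h | h
  · have := Real.antitoneOn_cos ⟨h, hx.2.trans ht.2⟩ ⟨h.trans hx.2, ht.2⟩ hx.2
    exact hct.trans (mul_le_mul_of_nonneg_left this hρ)
  · have := Real.antitoneOn_cos (a := -x) (b := -s) ⟨by linarith, by linarith [hs.1, hx.1]⟩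
      ⟨by linarith [hx.1], by linarith [hs.1]⟩ (by linarith [hx.1])
    rw [Real.cos_neg, Real.cos_neg] at this
    exact hcs.trans (mul_le_mul_of_nonneg_left this hρ)

/-- Superlevel sets of linear functions on the unit circle. -/
lemma circle_super (k l c : ℝ) :
    IsPreconnected {z : ℂ | ‖z‖ = 1 ∧ c ≤ k * z.re + l * z.im} := by
  set z₀ : ℂ := ⟨k, l⟩ with hz₀
  set w₀ : ℂ := Complex.exp (Complex.arg z₀ * Complex.I) with hw₀
  have hz : z₀ = ‖z₀‖ * w₀ := (Complex.norm_mul_exp_arg_mul_I z₀).symm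
  have hw1 : ‖w₀‖ = 1 := Complex.norm_exp_ofReal_mul_I _
  have hwne : w₀ ≠ 0 := by
    intro h; rw [h, norm_zero] at hw1; exact zero_ne_one hw1
  have hre : z₀.re = ‖z₀‖ * w₀.re := by
    conv_lhs => rw [hz]
    simp
  have him : z₀.im = ‖z₀‖ * w₀.im := by
    conv_lhs => rw [hz]
    simp
  have hk : k = ‖z₀‖ * w₀.re := hre
  have hl : l = ‖z₀‖ * w₀.im := him
  have hw2 : w₀.re * w₀.re + w₀.im * w₀.im = 1 := by
    have := Complex.normSq_eq_norm_sq w₀
    rw [hw1, Complex.normSq_apply] at this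
    linarith
  have himg : {z : ℂ | ‖z‖ = 1 ∧ c ≤ k * z.re + l * z.im} =
      (fun s : ℝ => w₀ * Complex.exp (s * Complex.I)) ''
        {s : ℝ | s ∈ Icc (-π) π ∧ c ≤ ‖z₀‖ * Real.cos s} := by
    have key : ∀ s : ℝ, k * (w₀ * Complex.exp (s * Complex.I)).re +
        l * (w₀ * Complex.exp (s * Complex.I)).im = ‖z₀‖ * Real.cos s := by
      intro s
      have e1 := Complex.exp_ofReal_mul_I_re s
      have e2 := Complex.exp_ofReal_mul_I_im s
      rw [Complex.mul_re, Complex.mul_im, e1, e2]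
      have e3 : k * w₀.re + l * w₀.im = ‖z₀‖ := by
        calc _ = ‖z₀‖ * w₀.re * w₀.re + ‖z₀‖ * w₀.im * w₀.im := by rw [← hk, ← hl]
          _ = ‖z₀‖ * (w₀.re * w₀.re + w₀.im * w₀.im) := by ring
          _ = _ := by rw [hw2, mul_one]
      have e4 : l * w₀.re - k * w₀.im = 0 := by
        calc _ = ‖z₀‖ * w₀.im * w₀.re - ‖z₀‖ * w₀.re * w₀.im := by rw [← hk, ← hl]
          _ = 0 := by ring
      calc _ = (k * w₀.re + l * w₀.im) * Real.cos s + (l * w₀.re - k * w₀.im) * Real.sin s := by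
            ring
        _ = _ := by rw [e3, e4]; ring
    ext z
    constructor
    · rintro ⟨h1, h2⟩
      have e1 : w₀ * Complex.exp (Complex.arg (z / w₀) * Complex.I) = z := by
        have : ‖z / w₀‖ = 1 := by rw [norm_div, h1, hw1, div_one]
        have h3 := Complex.norm_mul_exp_arg_mul_I (z / w₀)
        rw [this, Complex.ofReal_one, one_mul] at h3
        rw [h3, mul_div_cancel₀ _ hwne]
      refine ⟨Complex.arg (z / w₀), ⟨⟨(Complex.neg_pi_lt_arg _).le, Complex.arg_le_pi _⟩, ?_⟩, e1⟩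
      rw [← key, e1]
      exact h2
    · rintro ⟨s, ⟨_, h2⟩, rfl⟩
      refine ⟨?_, ?_⟩
      · simp only [norm_mul, hw1, Complex.norm_exp_ofReal_mul_I, one_mul]
      · simp only
        rw [key]
        exact h2
  rw [himg]
  apply (cos_super ‖z₀‖ c (norm_nonneg _)).image
  exact Continuous.continuousOn (by fun_prop)

/-- The maximum of a linear function over the unit circle is attained. -/
lemma circle_max (k l : ℝ) : ∃ z : ℂ, ‖z‖ = 1 ∧ k * z.re + l * z.im = √(k ^ 2 + l ^ 2) := by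
  by_cases h : k ^ 2 + l ^ 2 = 0
  · have hk : k = 0 := by nlinarith [sq_nonneg k, sq_nonneg l]
    have hl : l = 0 := by nlinarith [sq_nonneg k, sq_nonneg l]
    exact ⟨1, by simp, by simp [hk, hl]⟩
  · have hpos : 0 < k ^ 2 + l ^ 2 := lt_of_le_of_ne (by positivity) (Ne.symm h)
    have hs : 0 < √(k ^ 2 + l ^ 2) := Real.sqrt_pos.mpr hpos
    have hss : √(k ^ 2 + l ^ 2) * √(k ^ 2 + l ^ 2) = k ^ 2 + l ^ 2 := Real.mul_self_sqrt hpos.le
    refine ⟨⟨k / √(k ^ 2 + l ^ 2), l / √(k ^ 2 + l ^ 2)⟩, ?_, ?_⟩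
    · rw [Complex.norm_def, Complex.normSq_mk]
      rw [Real.sqrt_eq_one]
      field_simp
      rw [Real.sq_sqrt hpos.le]
    · simp only
      field_simp
      rw [Real.sq_sqrt hpos.le]

end

end Pool.Agent.Lib.MP_d43ca8_gt
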