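import Pool.Agent.Lib.MP_d43ca8_gt.Handle
import Pool.Agent.Lib.MP_d43ca8_gt.Curve
import Pool.Agent.Lib.MP_d43ca8_gt.Topo

set_option autoImplicit false

/-!
The surface as a subset of `ℂ × ℂ × ℝ × ℂ`.
-/

namespace Pool.Agent.Lib.MP_d43ca8_gt

open Set Real
open scoped ContDiff

noncomputable section

/-- smooth step -/
def sT (t : ℝ) : ℝ := Real.smoothTransition t

lemma sT_contDiff : ContDiff ℝ ∞ sT := Real.smoothTransition.contDiff
lemma sT_cont : Continuous sT := sT_contDiff.continuous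
lemma sT_nonneg (t : ℝ) : 0 ≤ sT t := Real.smoothTransition.nonneg t
lemma sT_le (t : ℝ) : sT t ≤ 1 := Real.smoothTransition.le_one t
lemma sT_zero {t : ℝ} (h : t ≤ 0) : sT t = 0 := Real.smoothTransition.zero_of_nonpos h
lemma sT_one {t : ℝ} (h : 1 ≤ t) : sT t = 1 := Real.smoothTransition.one_of_one_le h
lemma sT_pos {t : ℝ} (h : 0 < t) : 0 < sT t := Real.smoothTransition.pos_of_pos h
lemma sT_lt {t : ℝ} (h : t < 1) : sT t < 1 := Real.smoothTransition.lt_one_of_lt_one h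
lemma sT_mono : Monotone sT := Real.smoothTransition.monotone

/-! ### the radial function -/

/-- `rad t = -1/(2t)` for `t ≤ 1/2`, `rad t = t` for `t ≥ 1`. -/
def rad (t : ℝ) : ℝ := -(1 / (2 * t)) * (1 - sT (2 * t - 1)) + t * sT (2 * t - 1)

lemma rad_of_le {t : ℝ} (h : t ≤ 1 / 2) : rad t = -(1 / (2 * t)) := by
  unfold rad
  rw [sT_zero (by linarith)]
  ring

lemma rad_of_ge {t : ℝ} (h : 1 ≤ t) : rad t = t := by
  unfold rad
  rw [sT_one (by linarith)]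
  ring

lemma rad_half : rad (1 / 2) = -1 := by
  rw [rad_of_le (le_refl _)]; norm_num

lemma rad_one : rad 1 = 1 := rad_of_ge (le_refl _)

lemma rad_deriv {t : ℝ} (ht : 0 < t) : ∃ d : ℝ, 0 < d ∧ HasDerivAt rad d t := by
  obtain ⟨s', hs'⟩ : ∃ s', HasDerivAt sT s' (2 * t - 1) :=
    ⟨_, (sT_contDiff.differentiable (by norm_num)).differentiableAt.hasDerivAt⟩
  have hs'0 : 0 ≤ s' := hs'.nonneg_of_monotone sT_mono
  have h1 : HasDerivAt (fun t => sT (2 * t - 1)) (s' * 2) t := by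
    have h2 : HasDerivAt (fun t : ℝ => 2 * t - 1) 2 t := by
      simpa using ((hasDerivAt_id t).const_mul 2).sub_const 1
    exact hs'.comp t h2
  have h3 : HasDerivAt (fun t : ℝ => -(1 / (2 * t))) (1 / (2 * t ^ 2)) t := by
    have h4 : HasDerivAt (fun t : ℝ => 2 * t) 2 t := by
      simpa using (hasDerivAt_id t).const_mul 2
    have h5 := (h4.inv (by positivity)).neg
    have e1 : (fun t : ℝ => -(1 / (2 * t))) = -(fun t : ℝ => 2 * t)⁻¹ := by
      funext u; simp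
    rw [e1]
    have e2 : (1 / (2 * t ^ 2)) = -(-2 / (2 * t) ^ 2) := by field_simp; try norm_num
    rw [e2]
    exact h5
  have h6 := (h3.mul (h1.const_sub 1)).add ((hasDerivAt_id t).mul h1)
  refine ⟨_, ?_, h6⟩
  have b0 := sT_nonneg (2 * t - 1)
  have b1 := sT_le (2 * t - 1)
  simp only [id]
  have e3 : 1 / (2 * t ^ 2) * (1 - sT (2 * t - 1)) + -(1 / (2 * t)) * -(s' * 2) +
      (1 * sT (2 * t - 1) + t * (s' * 2)) =
      (1 / (2 * t ^ 2) * (1 - sT (2 * t - 1)) + sT (2 * t - 1)) + s' * (1 / t + 2 * t) := by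
    field_simp
    ring
  rw [e3]
  have h7 : 0 < 1 / (2 * t ^ 2) * (1 - sT (2 * t - 1)) + sT (2 * t - 1) := by
    rcases eq_or_lt_of_le b0 with h | h
    · rw [← h]; have : 0 < 1 / (2 * t ^ 2) := by positivity
      linarith
    · have : 0 ≤ 1 / (2 * t ^ 2) * (1 - sT (2 * t - 1)) :=
        mul_nonneg (by positivity) (by linarith)
      linarith
  have h8 : 0 ≤ s' * (1 / t + 2 * t) := by positivity
  linarith

lemma rad_contAt {t : ℝ} (ht : 0 < t) : ContinuousAt rad t := by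
  obtain ⟨d, _, hd⟩ := rad_deriv ht
  exact hd.continuousAt

lemma rad_strictMonoOn : StrictMonoOn rad (Ioi 0) := by
  apply strictMonoOn_of_deriv_pos (convex_Ioi 0)
  · exact fun t ht => (rad_contAt ht).continuousWithinAt
  · intro t ht
    rw [interior_Ioi] at ht
    obtain ⟨d, hd0, hd⟩ := rad_deriv ht
    rw [hd.deriv]
    exact hd0

lemma rad_contDiffAt {t : ℝ} (ht : 0 < t) : ContDiffAt ℝ ∞ rad t := by
  have h1 : ContDiffAt ℝ ∞ (fun t : ℝ => sT (2 * t - 1)) t :=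
    (sT_contDiff.comp ((contDiff_const.mul contDiff_id).sub contDiff_const)).contDiffAt
  have h2 : ContDiffAt ℝ ∞ (fun t : ℝ => -(1 / (2 * t))) t :=
    (contDiffAt_const.div (contDiff_const.mul contDiff_id).contDiffAt (by positivity)).neg
  exact (h2.mul (contDiffAt_const.sub h1)).add (contDiffAt_id.mul h1)

/-! ### the part over the product of curves -/

/-- coordinates at the first disc -/
def z1 (x : ℂ × ℂ) : ℂ := ⟨x.1.re, x.2.re⟩
/-- coordinates at the second disc -/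
def z2 (x : ℂ × ℂ) : ℂ := ⟨-x.1.im, -x.2.im⟩

/-- cutoff at the first disc -/
def b1 (x : ℂ × ℂ) : ℝ := sT (-x.1.im) * sT (-x.2.im) * sT (2 - Complex.normSq (z1 x))
/-- cutoff at the second disc -/
def b2 (x : ℂ × ℂ) : ℝ := sT (-x.1.re) * sT (-x.2.re) * sT (2 - Complex.normSq (z2 x))

/-- a smooth function equal to `(i/2)/z` for `|z| ≥ 1` -/
def inv2 (z : ℂ) : ℂ := ((Complex.normSq z + sT (1 - Complex.normSq z))⁻¹ : ℝ) •
  (Complex.I / 2 * (starRingEnd ℂ) z)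

/-- ambient space -/
abbrev Amb := ℂ × ℂ × ℝ × ℂ

/-- lift of the product torus -/
def Phi (x : ℂ × ℂ) : Amb := (x.1, x.2, b1 x + b2 x, b1 x • z1 x + b2 x • inv2 (z2 x))

/-- the product torus -/
def Theta : Set (ℂ × ℂ) := Cset ×ˢ Cset

def O1 : Set (ℂ × ℂ) := {x | x.1.im < -1 ∧ x.2.im < -1 ∧ ‖z1 x‖ < 1}
def O2 : Set (ℂ × ℂ) := {x | x.1.re < -1 ∧ x.2.re < -1 ∧ ‖z2 x‖ < 1}
def N1 : Set (ℂ × ℂ) := {x | x.1.im ≤ -1 ∧ x.2.im ≤ -1 ∧ ‖z1 x‖ ≤ 1}
def N2 : Set (ℂ × ℂ) := {x | x.1.re ≤ -1 ∧ x.2.re ≤ -1 ∧ ‖z2 x‖ ≤ 1}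

/-- the product torus minus two discs -/
def Theta' : Set (ℂ × ℂ) := (Theta \ O1) \ O2

/-! ### the handle -/

/-- the handle map -/
def hT (r : ℝ) (o : ℂ) : ℂ × ℂ :=
  (⟨hx r o.re, hy r o.im⟩, ⟨hx r o.im, hy r o.re⟩)

/-- the handle in the coordinate `ϖ` -/
def psT (w : ℂ) : Amb :=
  ((hT (rad ‖w‖) (w / ‖w‖)).1, (hT (rad ‖w‖) (w / ‖w‖)).2, sT (2 - rad ‖w‖ ^ 2),
    sT (2 - rad ‖w‖ ^ 2) • w)

/-- the closed annulus -/
def Ann : Set ℂ := {w | 1 / 2 ≤ ‖w‖ ∧ ‖w‖ ≤ 1}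

/-- the surface -/
def Surf : Set Amb := Phi '' Theta' ∪ psT '' Ann

/-- projection to the first two coordinates -/
def prj (m : Amb) : ℂ × ℂ := (m.1, m.2.1)

@[simp] lemma prj_Phi (x : ℂ × ℂ) : prj (Phi x) = x := rfl

@[simp] lemma prj_psT (w : ℂ) : prj (psT w) = hT (rad ‖w‖) (w / ‖w‖) := rfl

end

end Pool.Agent.Lib.MP_d43ca8_gt
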