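import Pool.Agent.Lib.MP_d43ca8_gt.Tight

set_option autoImplicit false

/-!
Smoothness of the parametrisations; the surface is compact and all its half-space pieces are
preconnected.
-/

namespace Pool.Agent.Lib.MP_d43ca8_gt

open Set Real
open scoped ContDiff

noncomputable section

lemma contDiff_mk {E : Type*} [NormedAddCommGroup E] [NormedSpace ℝ E] {f g : E → ℝ}
    (hf : ContDiff ℝ ∞ f) (hg : ContDiff ℝ ∞ g) : ContDiff ℝ ∞ fun x => (⟨f x, g x⟩ : ℂ) := by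
  have : (fun x => (⟨f x, g x⟩ : ℂ)) = fun x => ((f x : ℝ) : ℂ) + ((g x : ℝ) : ℂ) * Complex.I := by
    funext x; apply Complex.ext <;> simp
  rw [this]
  exact (Complex.ofRealCLM.contDiff.comp hf).add
    ((Complex.ofRealCLM.contDiff.comp hg).mul contDiff_const)

lemma contDiffAt_mk {E : Type*} [NormedAddCommGroup E] [NormedSpace ℝ E] {f g : E → ℝ} {x : E}
    (hf : ContDiffAt ℝ ∞ f x) (hg : ContDiffAt ℝ ∞ g x) :
    ContDiffAt ℝ ∞ (fun x => (⟨f x, g x⟩ : ℂ)) x := by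
  have : (fun x => (⟨f x, g x⟩ : ℂ)) = fun x => ((f x : ℝ) : ℂ) + ((g x : ℝ) : ℂ) * Complex.I := by
    funext x; apply Complex.ext <;> simp
  rw [this]
  exact (Complex.ofRealCLM.contDiff.contDiffAt.comp x hf).add
    ((Complex.ofRealCLM.contDiff.contDiffAt.comp x hg).mul contDiffAt_const)

lemma re_contDiff : ContDiff ℝ ∞ fun z : ℂ => z.re := Complex.reCLM.contDiff
lemma im_contDiff : ContDiff ℝ ∞ fun z : ℂ => z.im := Complex.imCLM.contDiff

lemma re1_contDiff : ContDiff ℝ ∞ fun x : ℂ × ℂ => x.1.re := re_contDiff.comp contDiff_fst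
lemma im1_contDiff : ContDiff ℝ ∞ fun x : ℂ × ℂ => x.1.im := im_contDiff.comp contDiff_fst
lemma re2_contDiff : ContDiff ℝ ∞ fun x : ℂ × ℂ => x.2.re := re_contDiff.comp contDiff_snd
lemma im2_contDiff : ContDiff ℝ ∞ fun x : ℂ × ℂ => x.2.im := im_contDiff.comp contDiff_snd

lemma z1_contDiff : ContDiff ℝ ∞ z1 := contDiff_mk re1_contDiff re2_contDiff
lemma z2_contDiff : ContDiff ℝ ∞ z2 := contDiff_mk im1_contDiff.neg im2_contDiff.neg

lemma normSq_contDiff : ContDiff ℝ ∞ fun z : ℂ => Complex.normSq z := by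
  have : (fun z : ℂ => Complex.normSq z) = fun z => z.re * z.re + z.im * z.im := by
    funext z; rw [Complex.normSq_apply]
  rw [this]
  exact (re_contDiff.mul re_contDiff).add (im_contDiff.mul im_contDiff)

lemma b1_contDiff : ContDiff ℝ ∞ b1 := by
  unfold b1
  exact ((sT_contDiff.comp im1_contDiff.neg).mul (sT_contDiff.comp im2_contDiff.neg)).mul
    (sT_contDiff.comp (contDiff_const.sub (normSq_contDiff.comp z1_contDiff)))

lemma b2_contDiff : ContDiff ℝ ∞ b2 := by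
  unfold b2
  exact ((sT_contDiff.comp re1_contDiff.neg).mul (sT_contDiff.comp re2_contDiff.neg)).mul
    (sT_contDiff.comp (contDiff_const.sub (normSq_contDiff.comp z2_contDiff)))

lemma inv2_denom (z : ℂ) : 0 < Complex.normSq z + sT (1 - Complex.normSq z) := by
  rcases eq_or_lt_of_le (Complex.normSq_nonneg z) with h | h
  · rw [← h]
    have := sT_pos (t := 1 - 0) (by norm_num)
    linarith
  · have := sT_nonneg (1 - Complex.normSq z)
    linarith

lemma inv2_contDiff : ContDiff ℝ ∞ inv2 := by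
  have h1 : ContDiff ℝ ∞ fun z : ℂ => (Complex.normSq z + sT (1 - Complex.normSq z))⁻¹ :=
    (normSq_contDiff.add (sT_contDiff.comp (contDiff_const.sub normSq_contDiff))).inv
      (fun z => (inv2_denom z).ne')
  have h2 : ContDiff ℝ ∞ fun z : ℂ => Complex.I / 2 * (starRingEnd ℂ) z :=
    contDiff_const.mul Complex.conjCLE.contDiff
  exact h1.smul h2

lemma Phi_contDiff : ContDiff ℝ ∞ Phi := by
  unfold Phi
  exact contDiff_fst.prodMk (contDiff_snd.prodMk ((b1_contDiff.add b2_contDiff).prodMk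
    ((b1_contDiff.smul z1_contDiff).add
      (b2_contDiff.smul (inv2_contDiff.comp z2_contDiff)))))

lemma hx_contDiffAt {E : Type*} [NormedAddCommGroup E] [NormedSpace ℝ E] {f g : E → ℝ} {x : E}
    (hf : ContDiffAt ℝ ∞ f x) (hg : ContDiffAt ℝ ∞ g x) :
    ContDiffAt ℝ ∞ (fun x => hx (f x) (g x)) x := by
  unfold hx
  exact ((a_contDiff.contDiffAt.comp x hf).sub contDiffAt_const).add
    ((B_contDiff.contDiffAt.comp x hf).mul hg)

lemma hy_contDiffAt {E : Type*} [NormedAddCommGroup E] [NormedSpace ℝ E] {f g : E → ℝ} {x : E}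
    (hf : ContDiffAt ℝ ∞ f x) (hg : ContDiffAt ℝ ∞ g x) :
    ContDiffAt ℝ ∞ (fun x => hy (f x) (g x)) x := by
  unfold hy
  exact ((a_contDiff.contDiffAt.comp x hf).neg).add
    ((D_contDiff.contDiffAt.comp x hf).mul hg)

lemma hT_contDiffAt {E : Type*} [NormedAddCommGroup E] [NormedSpace ℝ E] {f : E → ℝ}
    {g : E → ℂ} {x : E} (hf : ContDiffAt ℝ ∞ f x) (hg : ContDiffAt ℝ ∞ g x) :
    ContDiffAt ℝ ∞ (fun x => hT (f x) (g x)) x := by
  unfold hT
  have h1 : ContDiffAt ℝ ∞ (fun x => (g x).re) x := re_contDiff.contDiffAt.comp x hg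
  have h2 : ContDiffAt ℝ ∞ (fun x => (g x).im) x := im_contDiff.contDiffAt.comp x hg
  exact (contDiffAt_mk (hx_contDiffAt hf h1) (hy_contDiffAt hf h2)).prodMk
    (contDiffAt_mk (hx_contDiffAt hf h2) (hy_contDiffAt hf h1))

lemma psT_contDiffAt {w : ℂ} (hw : w ≠ 0) : ContDiffAt ℝ ∞ psT w := by
  have hn : ContDiffAt ℝ ∞ (fun w : ℂ => ‖w‖) w := contDiffAt_norm ℝ hw
  have hpos : 0 < ‖w‖ := norm_pos_iff.mpr hw
  have hr : ContDiffAt ℝ ∞ (fun w : ℂ => rad ‖w‖) w := (rad_contDiffAt hpos).comp w hn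
  have hd : ContDiffAt ℝ ∞ (fun w : ℂ => w / (‖w‖ : ℂ)) w := by
    have e : (fun w : ℂ => w / (‖w‖ : ℂ)) = fun w => (‖w‖⁻¹ : ℝ) • w := by
      funext z
      rw [Complex.real_smul, Complex.ofReal_inv, div_eq_mul_inv, mul_comm]
    rw [e]
    exact (hn.inv hpos.ne').smul contDiffAt_id
  have hh := hT_contDiffAt hr hd
  have hb : ContDiffAt ℝ ∞ (fun w : ℂ => sT (2 - rad ‖w‖ ^ 2)) w :=
    sT_contDiff.contDiffAt.comp w (contDiffAt_const.sub (hr.pow 2))
  unfold psT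
  exact hh.fst.prodMk (hh.snd.prodMk (hb.prodMk (hb.smul contDiffAt_id)))

lemma Theta_compact : IsCompact Theta := Cset_compact.prod Cset_compact

lemma Theta'_compact : IsCompact Theta' := (Theta_compact.diff isOpen_O1).diff isOpen_O2

lemma Ann_compact : IsCompact Ann := by
  have e : Ann = Metric.closedBall (0 : ℂ) 1 \ Metric.ball 0 (1 / 2) := by
    ext w
    simp [Ann]
    tauto
  rw [e]
  exact (isCompact_closedBall _ _).diff Metric.isOpen_ball

lemma Ann_ne {w : ℂ} (h : w ∈ Ann) : w ≠ 0 := by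
  rintro rfl
  have := h.1
  rw [norm_zero] at this
  norm_num at this

lemma psT_contOn : ContinuousOn psT Ann := fun _ h =>
  (psT_contDiffAt (Ann_ne h)).continuousAt.continuousWithinAt

lemma Surf_compact : IsCompact Surf :=
  (Theta'_compact.image Phi_contDiff.continuous).union (Ann_compact.image_of_continuousOn psT_contOn)

lemma psT_rim {w : ℂ} (h : ‖w‖ = 1 ∨ ‖w‖ = 1 / 2) : psT w ∈ Phi '' Theta' := by
  rcases h with h | h
  · rw [psT_outer h.ge]
    exact ⟨_, (rim1 h).1, rfl⟩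
  · have hw : w ≠ 0 := by
      rintro rfl
      rw [norm_zero] at h
      norm_num at h
    rw [psT_inner hw h.le]
    have hz : ‖Complex.I / 2 / w‖ = 1 := by
      rw [norm_div, norm_div, Complex.norm_I, h]
      norm_num
    exact ⟨_, (rim2 hz).1, rfl⟩

/-- Half-space pieces of the surface are preconnected. -/
lemma Surf_super (α β α' β' c : ℝ) :
    IsPreconnected {m | m ∈ Surf ∧ c ≤ lin α β α' β' (prj m)} := by
  set S₀ : Set Amb := Phi '' {x | x ∈ Theta' ∧ c ≤ lin α β α' β' x} with hS₀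
  have p0 : IsPreconnected S₀ :=
    (theta'_super α β α' β' c).image _ Phi_contDiff.continuous.continuousOn
  have s0 : S₀ ⊆ {m | m ∈ Surf ∧ c ≤ lin α β α' β' (prj m)} := by
    rintro _ ⟨x, ⟨h1, h2⟩, rfl⟩
    exact ⟨Or.inl ⟨x, h1, rfl⟩, by rwa [prj_Phi]⟩
  -- each point is connected to `S₀`
  have key : ∀ m, m ∈ Surf → c ≤ lin α β α' β' (prj m) → ∃ T : Set Amb,
      T ⊆ {m | m ∈ Surf ∧ c ≤ lin α β α' β' (prj m)} ∧ m ∈ T ∧ IsPreconnected T ∧
      (T ∩ S₀).Nonempty := by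
    rintro m (⟨x, hx, rfl⟩ | ⟨w, hw, rfl⟩) hc
    · rw [prj_Phi] at hc
      exact ⟨S₀, s0, ⟨x, ⟨hx, hc⟩, rfl⟩, p0, ⟨_, ⟨x, ⟨hx, hc⟩, rfl⟩, ⟨x, ⟨hx, hc⟩, rfl⟩⟩⟩
    · obtain ⟨t, h1, h2, h3, w', h4, h5⟩ := T_chain α β α' β' c hw hc
      have hsub : t ⊆ Ann := fun z hz => (h1 hz).1
      refine ⟨psT '' t, ?_, ⟨w, h2, rfl⟩, h3.image _ (psT_contOn.mono hsub), psT w',
        ⟨w', h4, rfl⟩, ?_⟩
      · rintro _ ⟨z, hz, rfl⟩
        exact ⟨Or.inr ⟨z, hsub hz, rfl⟩, (h1 hz).2⟩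
      · obtain ⟨x, hx, hxe⟩ := psT_rim h5
        refine ⟨x, ⟨hx, ?_⟩, hxe⟩
        have := (h1 h4).2
        rw [← hxe, prj_Phi] at this
        exact this
  rcases Set.eq_empty_or_nonempty {m | m ∈ Surf ∧ c ≤ lin α β α' β' (prj m)} with he | ⟨m, hm⟩
  · rw [he]; exact isPreconnected_empty
  · obtain ⟨T, _, _, _, m₀, _, hm₀⟩ := key m hm.1 hm.2
    apply isPreconnected_of_forall m₀
    intro m' hm'
    obtain ⟨T', h1, h2, h3, m₁, h4, h5⟩ := key m' hm'.1 hm'.2
    exact ⟨T' ∪ S₀, union_subset h1 s0, Or.inr hm₀, Or.inl h2, h3.union m₁ h4 h5 p0⟩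

end

end Pool.Agent.Lib.MP_d43ca8_gt
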