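import Pool.Agent.Lib.MP_d43ca8_gt.Smooth
import Pool.Agent.Lib.MP_d43ca8_gt.Patch

set_option autoImplicit false

/-!
The patches of the surface.
-/

namespace Pool.Agent.Lib.MP_d43ca8_gt

open Set Real Topology
open scoped ContDiff

noncomputable section

/-! ### cutoffs on the product torus -/

lemma b1_nonneg (x : ℂ × ℂ) : 0 ≤ b1 x :=
  mul_nonneg (mul_nonneg (sT_nonneg _) (sT_nonneg _)) (sT_nonneg _)

lemma b2_nonneg (x : ℂ × ℂ) : 0 ≤ b2 x :=
  mul_nonneg (mul_nonneg (sT_nonneg _) (sT_nonneg _)) (sT_nonneg _)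

lemma sT_pos_iff {t : ℝ} (h : sT t ≠ 0) : 0 < t := by
  by_contra hcon
  push Not at hcon
  exact h (sT_zero hcon)

lemma abs_lt_two {t : ℝ} (h : t ^ 2 < 2) : |t| < 2 := by
  rw [abs_lt]
  constructor <;> nlinarith

lemma b1_pos {x : ℂ × ℂ} (hx : x ∈ Theta) (h : 0 < b1 x) :
    x = (⟨(z1 x).re, -3⟩, ⟨(z1 x).im, -3⟩) ∧ ‖z1 x‖ ^ 2 < 2 ∧ b1 x = sT (2 - ‖z1 x‖ ^ 2) ∧
      b2 x = 0 := by
  have h' := h.ne'
  unfold b1 at h'
  have h1 := left_ne_zero_of_mul (left_ne_zero_of_mul h')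
  have h2 := right_ne_zero_of_mul (left_ne_zero_of_mul h')
  have h3 := right_ne_zero_of_mul h'
  have g1 := sT_pos_iff h1
  have g2 := sT_pos_iff h2
  have g3 := sT_pos_iff h3
  have g4 : Complex.normSq (z1 x) = x.1.re ^ 2 + x.2.re ^ 2 := by
    rw [Complex.normSq_apply]; simp only [z1]; ring
  have e1 : x.1.im = -3 := flat_bottom hx.1 (abs_lt_two (by nlinarith [sq_nonneg x.2.re]))
    (by linarith)
  have e2 : x.2.im = -3 := flat_bottom hx.2 (abs_lt_two (by nlinarith [sq_nonneg x.1.re]))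
    (by linarith)
  refine ⟨?_, ?_, ?_, ?_⟩
  · apply Prod.ext
    · apply Complex.ext
      · rfl
      · exact e1
    · apply Complex.ext
      · rfl
      · exact e2
  · rw [← Complex.normSq_eq_norm_sq]; linarith
  · unfold b1
    rw [e1, e2, sT_one (t := - -3) (by norm_num), Complex.normSq_eq_norm_sq]
    ring
  · unfold b2
    have : Complex.normSq (z2 x) = 18 := by
      rw [Complex.normSq_apply]; simp only [z2]; rw [e1, e2]; norm_num
    rw [this, sT_zero (t := 2 - 18) (by norm_num), mul_zero]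

lemma b2_pos {x : ℂ × ℂ} (hx : x ∈ Theta) (h : 0 < b2 x) :
    x = (⟨-3, -(z2 x).re⟩, ⟨-3, -(z2 x).im⟩) ∧ ‖z2 x‖ ^ 2 < 2 ∧ b2 x = sT (2 - ‖z2 x‖ ^ 2) ∧
      b1 x = 0 := by
  have h' := h.ne'
  unfold b2 at h'
  have h1 := left_ne_zero_of_mul (left_ne_zero_of_mul h')
  have h2 := right_ne_zero_of_mul (left_ne_zero_of_mul h')
  have h3 := right_ne_zero_of_mul h'
  have g1 := sT_pos_iff h1
  have g2 := sT_pos_iff h2
  have g3 := sT_pos_iff h3
  have g4 : Complex.normSq (z2 x) = x.1.im ^ 2 + x.2.im ^ 2 := by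
    rw [Complex.normSq_apply]; simp only [z2]; ring
  have e1 : x.1.re = -3 := flat_left hx.1 (abs_lt_two (by nlinarith [sq_nonneg x.2.im]))
    (by linarith)
  have e2 : x.2.re = -3 := flat_left hx.2 (abs_lt_two (by nlinarith [sq_nonneg x.1.im]))
    (by linarith)
  refine ⟨?_, ?_, ?_, ?_⟩
  · apply Prod.ext
    · apply Complex.ext
      · exact e1
      · simp [z2]
    · apply Complex.ext
      · exact e2
      · simp [z2]
  · rw [← Complex.normSq_eq_norm_sq]; linarith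
  · unfold b2
    rw [e1, e2, sT_one (t := - -3) (by norm_num), Complex.normSq_eq_norm_sq]
    ring
  · unfold b1
    have : Complex.normSq (z1 x) = 18 := by
      rw [Complex.normSq_apply]; simp only [z1]; rw [e1, e2]; norm_num
    rw [this, sT_zero (t := 2 - 18) (by norm_num), mul_zero]

lemma b_lt_one {x : ℂ × ℂ} (hx : x ∈ Theta) (h1 : x ∉ N1) (h2 : x ∉ N2) : b1 x + b2 x < 1 := by
  rcases eq_or_lt_of_le (b1_nonneg x) with g1 | g1
  · rcases eq_or_lt_of_le (b2_nonneg x) with g2 | g2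
    · rw [← g1, ← g2]; norm_num
    · obtain ⟨e, k1, k2, k3⟩ := b2_pos hx g2
      rw [k2, k3, zero_add]
      apply sT_lt
      have : 1 < ‖z2 x‖ := by
        by_contra hcon
        push Not at hcon
        apply h2
        refine ⟨?_, ?_, hcon⟩
        · rw [e]; norm_num
        · rw [e]; norm_num
      nlinarith
  · obtain ⟨e, k1, k2, k3⟩ := b1_pos hx g1
    rw [k2, k3, add_zero]
    apply sT_lt
    have : 1 < ‖z1 x‖ := by
      by_contra hcon
      push Not at hcon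
      apply h1
      refine ⟨?_, ?_, hcon⟩
      · rw [e]; norm_num
      · rw [e]; norm_num
    nlinarith

lemma not_N_of_lt {x : ℂ × ℂ} (hx : x ∈ Theta') (h : b1 x + b2 x < 1) : x ∉ N1 ∧ x ∉ N2 := by
  constructor
  · intro hN
    have e := N1_flat hx.1.1 hN
    have hge : ‖z1 x‖ ≥ 1 := by
      by_contra hcon
      push Not at hcon
      apply hx.1.2
      refine ⟨?_, ?_, hcon⟩
      · rw [e]; norm_num
      · rw [e]; norm_num
    have h1 : ‖z1 x‖ = 1 := le_antisymm hN.2.2 hge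
    have e1 : x.1.im = -3 := by rw [e]
    have e2 : x.2.im = -3 := by rw [e]
    have : b1 x = 1 := by
      unfold b1
      rw [e1, e2, Complex.normSq_eq_norm_sq, h1, sT_one (t := - -3) (by norm_num),
        sT_one (t := 2 - 1 ^ 2) (by norm_num)]
      norm_num
    have := b2_nonneg x
    linarith
  · intro hN
    have e := N2_flat hx.1.1 hN
    have hge : ‖z2 x‖ ≥ 1 := by
      by_contra hcon
      push Not at hcon
      apply hx.2
      refine ⟨?_, ?_, hcon⟩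
      · rw [e]; norm_num
      · rw [e]; norm_num
    have h1 : ‖z2 x‖ = 1 := le_antisymm hN.2.2 hge
    have e1 : x.1.re = -3 := by rw [e]
    have e2 : x.2.re = -3 := by rw [e]
    have : b2 x = 1 := by
      unfold b2
      rw [e1, e2, Complex.normSq_eq_norm_sq, h1, sT_one (t := - -3) (by norm_num),
        sT_one (t := 2 - 1 ^ 2) (by norm_num)]
      norm_num
    have := b1_nonneg x
    linarith

/-! ### the annulus patch -/

def UT : Set ℂ := {w | w ≠ 0 ∧ rad ‖w‖ ^ 2 < 2}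

lemma isOpen_UT : IsOpen UT := by
  have hc : ContinuousOn (fun w : ℂ => rad ‖w‖ ^ 2) {w | w ≠ 0} := by
    intro w hw
    have h1 : ContinuousAt rad ‖w‖ := rad_contAt (norm_pos_iff.mpr hw)
    have h2 : ContinuousAt (fun w : ℂ => rad ‖w‖) w :=
      ContinuousAt.comp (f := fun w : ℂ => ‖w‖) h1 continuous_norm.continuousAt
    exact (h2.pow 2).continuousWithinAt
  have h0 : IsOpen {w : ℂ | w ≠ 0} := isOpen_ne
  exact hc.isOpen_inter_preimage h0 (isOpen_Iio (a := 2))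

/-- points near the first rim -/
lemma near1 {z : ℂ} (hz : 1 ≤ ‖z‖) (hz2 : ‖z‖ ^ 2 < 2) :
    ((⟨z.re, -3⟩, ⟨z.im, -3⟩) : ℂ × ℂ) ∈ Theta' := by
  have h : z.re ^ 2 + z.im ^ 2 < 2 := by
    rw [← Complex.normSq_eq_norm_sq, Complex.normSq_apply] at hz2
    nlinarith
  have hz1 : z1 (⟨z.re, -3⟩, ⟨z.im, -3⟩) = z := rfl
  refine ⟨⟨⟨bottom_mem (abs_lt_two (by nlinarith [sq_nonneg z.im])),
    bottom_mem (abs_lt_two (by nlinarith [sq_nonneg z.re]))⟩, ?_⟩, ?_⟩
  · rintro ⟨_, _, h⟩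
    rw [hz1] at h
    linarith
  · rintro ⟨_, _, h⟩
    have h2 := (Complex.abs_re_le_norm _).trans_lt h
    simp [z2] at h2

/-- points near the second rim -/
lemma near2 {z : ℂ} (hz : 1 ≤ ‖z‖) (hz2 : ‖z‖ ^ 2 < 2) :
    ((⟨-3, -z.re⟩, ⟨-3, -z.im⟩) : ℂ × ℂ) ∈ Theta' := by
  have h : z.re ^ 2 + z.im ^ 2 < 2 := by
    rw [← Complex.normSq_eq_norm_sq, Complex.normSq_apply] at hz2
    nlinarith
  have hz1 : z2 (⟨-3, -z.re⟩, ⟨-3, -z.im⟩) = z := by
    unfold z2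
    apply Complex.ext <;> simp
  refine ⟨⟨⟨left_mem (by rw [abs_neg]; exact abs_lt_two (by nlinarith [sq_nonneg z.im])),
    left_mem (by rw [abs_neg]; exact abs_lt_two (by nlinarith [sq_nonneg z.re]))⟩, ?_⟩, ?_⟩
  · rintro ⟨_, _, h⟩
    have h2 := (Complex.abs_re_le_norm _).trans_lt h
    simp [z1] at h2
  · rintro ⟨_, _, h⟩
    rw [hz1] at h
    linarith

lemma norm_half_div {w : ℂ} (hw : w ≠ 0) : ‖Complex.I / 2 / w‖ = 1 / (2 * ‖w‖) := by
  have hn : 0 < ‖w‖ := norm_pos_iff.mpr hw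
  rw [norm_div, norm_div, Complex.norm_I]
  have : ‖(2 : ℂ)‖ = 2 := by norm_num
  rw [this]
  field_simp

lemma rad_inner {w : ℂ} (hw : w ≠ 0) (h : ‖w‖ ≤ 1 / 2) :
    rad ‖w‖ = -‖Complex.I / 2 / w‖ ∧ 1 ≤ ‖Complex.I / 2 / w‖ := by
  have hn : 0 < ‖w‖ := norm_pos_iff.mpr hw
  rw [norm_half_div hw, rad_of_le h]
  refine ⟨rfl, ?_⟩
  rw [le_div_iff₀ (by positivity)]
  linarith

lemma psT_mem {w : ℂ} (hw : w ∈ UT) : psT w ∈ Surf := by
  obtain ⟨h0, h2⟩ := hw
  rcases le_or_gt 1 ‖w‖ with h | h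
  · rw [rad_of_ge h] at h2
    rw [psT_outer h]
    exact Or.inl ⟨_, near1 h h2, rfl⟩
  · rcases le_or_gt ‖w‖ (1 / 2) with h' | h'
    · obtain ⟨e1, e2⟩ := rad_inner h0 h'
      rw [e1, neg_sq] at h2
      rw [psT_inner h0 h']
      exact Or.inl ⟨_, near2 e2 h2, rfl⟩
    · exact Or.inr ⟨w, ⟨h'.le, h.le⟩, rfl⟩

lemma Ann_UT {w : ℂ} (hw : w ∈ Ann) : w ∈ UT := by
  obtain ⟨h1, h2⟩ := Ann_rad hw
  exact ⟨Ann_ne hw, by nlinarith⟩

lemma Surf_pos {m : Amb} (hm : m ∈ Surf) (h : 0 < m.2.2.1) : ∃ w ∈ UT, m = psT w := by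
  rcases hm with ⟨x, hx, rfl⟩ | ⟨w, hw, rfl⟩
  · have hb : 0 < b1 x + b2 x := h
    rcases eq_or_lt_of_le (b1_nonneg x) with g1 | g1
    · have g2 : 0 < b2 x := by linarith
      obtain ⟨e, k1, k2, k3⟩ := b2_pos hx.1.1 g2
      have hge : 1 ≤ ‖z2 x‖ := by
        by_contra hcon
        push Not at hcon
        apply hx.2
        refine ⟨?_, ?_, hcon⟩
        · rw [e]; norm_num
        · rw [e]; norm_num
      have hz0 : z2 x ≠ 0 := norm_pos_iff.mp (by linarith)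
      have hI : Complex.I / 2 ≠ 0 := by simp
      have hw0 : Complex.I / 2 / z2 x ≠ 0 := div_ne_zero hI hz0
      have hwn : ‖Complex.I / 2 / z2 x‖ ≤ 1 / 2 := by
        rw [norm_half_div hz0, div_le_div_iff₀ (by positivity) (by norm_num)]
        linarith
      have hback : Complex.I / 2 / (Complex.I / 2 / z2 x) = z2 x := div_div_cancel₀ hI
      obtain ⟨e1, e2⟩ := rad_inner hw0 hwn
      refine ⟨Complex.I / 2 / z2 x, ⟨hw0, ?_⟩, ?_⟩
      · rw [e1, neg_sq, hback]; exact k1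
      · rw [psT_inner hw0 hwn, hback, ← e]
    · obtain ⟨e, k1, k2, k3⟩ := b1_pos hx.1.1 g1
      have hge : 1 ≤ ‖z1 x‖ := by
        by_contra hcon
        push Not at hcon
        apply hx.1.2
        refine ⟨?_, ?_, hcon⟩
        · rw [e]; norm_num
        · rw [e]; norm_num
      refine ⟨z1 x, ⟨norm_pos_iff.mp (by linarith), ?_⟩, ?_⟩
      · rw [rad_of_ge hge]; exact k1
      · rw [psT_outer hge, ← e]
  · exact ⟨w, Ann_UT hw, rfl⟩

/-- inverse of the annulus parametrisation -/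
def piT (m : Amb) : ℂ := (m.2.2.1)⁻¹ • m.2.2.2

lemma piT_psT {w : ℂ} (hw : w ∈ UT) : piT (psT w) = w := by
  have : 0 < sT (2 - rad ‖w‖ ^ 2) := sT_pos (by linarith [hw.2])
  unfold piT psT
  simp only
  rw [smul_smul, inv_mul_cancel₀ this.ne', one_smul]

def patchT : Patch Amb ℂ Surf where
  W := {m | 0 < m.2.2.1}
  U := UT
  pi := piT
  psi := psT
  isOpen_W := isOpen_lt continuous_const (by fun_prop)
  isOpen_U := isOpen_UT
  contDiffOn_pi := by
    intro m hm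
    have hm' : m.2.2.1 ≠ 0 := (show 0 < m.2.2.1 from hm).ne'
    have h1 : ContDiff ℝ ∞ fun m : Amb => m.2.2.1 := contDiff_fst.comp (contDiff_snd.comp
      contDiff_snd)
    have h2 : ContDiff ℝ ∞ fun m : Amb => m.2.2.2 := contDiff_snd.comp (contDiff_snd.comp
      contDiff_snd)
    exact ((h1.contDiffAt.inv hm').smul h2.contDiffAt).contDiffWithinAt
  contDiffOn_psi := fun w hw => (psT_contDiffAt hw.1).contDiffWithinAt
  psi_mem := fun _ hw => psT_mem hw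
  psi_mem_W := fun w hw => sT_pos (by linarith [hw.2])
  pi_mem := by
    intro m hm hW
    obtain ⟨w, hw, rfl⟩ := Surf_pos hm hW
    rw [piT_psT hw]
    exact hw
  left := fun _ hw => piT_psT hw
  right := by
    intro m hm hW
    obtain ⟨w, hw, rfl⟩ := Surf_pos hm hW
    rw [piT_psT hw]

/-! ### the patches over the product torus -/

/-- parametrisation over the product torus -/
def psG (g h : ℂ) (z : ℂ) : Amb := Phi (g * cor z.re, h * cor z.im)

/-- its inverse -/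
def piG (g h : ℂ) (m : Amb) : ℂ := ⟨pr (g⁻¹ * m.1), pr (h⁻¹ * m.2.1)⟩

lemma pr_contDiff : ContDiff ℝ ∞ pr := re_contDiff.sub im_contDiff

lemma isOpen_W0 : IsOpen W0 := by
  have : W0 = {ξ : ℂ | ξ.re < 2} ∩ {ξ | ξ.im < 2} := rfl
  rw [this]
  exact (isOpen_lt (by fun_prop) (by fun_prop)).inter (isOpen_lt (by fun_prop) (by fun_prop))

def patchG (g h : ℂ) (hg : g ^ 4 = 1) (hh : h ^ 4 = 1) : Patch Amb ℂ Surf where
  W := {m | g⁻¹ * m.1 ∈ W0 ∧ h⁻¹ * m.2.1 ∈ W0 ∧ m.2.2.1 < 1}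
  U := {z | z.re ∈ Ioo (-5) 5 ∧ z.im ∈ Ioo (-5) 5 ∧ (g * cor z.re, h * cor z.im) ∈ N1ᶜ ∧
    (g * cor z.re, h * cor z.im) ∈ N2ᶜ}
  pi := piG g h
  psi := psG g h
  isOpen_W := by
    apply IsOpen.inter (isOpen_W0.preimage (by fun_prop))
    apply IsOpen.inter (isOpen_W0.preimage (by fun_prop))
    exact (isOpen_Iio (a := (1 : ℝ))).preimage
      (show Continuous fun m : Amb => m.2.2.1 by fun_prop)
  isOpen_U := by
    have hc := cor_cont
    apply IsOpen.inter (isOpen_Ioo.preimage (by fun_prop))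
    apply IsOpen.inter (isOpen_Ioo.preimage (by fun_prop))
    apply IsOpen.inter
    · exact isClosed_N1.isOpen_compl.preimage (by fun_prop)
    · exact isClosed_N2.isOpen_compl.preimage (by fun_prop)
  contDiffOn_pi := by
    apply ContDiff.contDiffOn
    exact contDiff_mk (pr_contDiff.comp (contDiff_const.mul contDiff_fst))
      (pr_contDiff.comp (contDiff_const.mul (contDiff_fst.comp contDiff_snd)))
  contDiffOn_psi := by
    apply ContDiff.contDiffOn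
    exact Phi_contDiff.comp ((contDiff_const.mul (cor_contDiff.comp re_contDiff)).prodMk
      (contDiff_const.mul (cor_contDiff.comp im_contDiff)))
  psi_mem := by
    rintro z ⟨h1, h2, h3, h4⟩
    refine Or.inl ⟨_, ⟨⟨⟨?_, ?_⟩, ?_⟩, ?_⟩, rfl⟩
    · exact Cset_mul hg (cor_mem h1.1 h1.2)
    · exact Cset_mul hh (cor_mem h2.1 h2.2)
    · exact fun h => h3 (O1_sub_N1 h)
    · exact fun h => h4 (O2_sub_N2 h)
  psi_mem_W := by
    rintro z ⟨h1, h2, h3, h4⟩
    refine ⟨?_, ?_, ?_⟩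
    · unfold psG Phi
      simp only
      rw [inv_mul_cancel_left₀ (g4_ne hg)]
      exact cor_mem_W0 h1.1 h1.2
    · unfold psG Phi
      simp only
      rw [inv_mul_cancel_left₀ (g4_ne hh)]
      exact cor_mem_W0 h2.1 h2.2
    · exact b_lt_one ⟨Cset_mul hg (cor_mem h1.1 h1.2), Cset_mul hh (cor_mem h2.1 h2.2)⟩ h3 h4
  pi_mem := by
    rintro m hm ⟨h1, h2, h3⟩
    rcases hm with ⟨x, hx, rfl⟩ | ⟨w, hw, rfl⟩
    · have h1' : g⁻¹ * x.1 ∈ W0 := h1
      have h2' : h⁻¹ * x.2 ∈ W0 := h2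
      have h3' : b1 x + b2 x < 1 := h3
      have hgi : (g⁻¹) ^ 4 = 1 := by rw [inv_pow, hg, inv_one]
      have hhi : (h⁻¹) ^ 4 = 1 := by rw [inv_pow, hh, inv_one]
      obtain ⟨e1, f1, f2⟩ := Cset_W0 (Cset_mul hgi hx.1.1.1) h1'
      obtain ⟨e2, f3, f4⟩ := Cset_W0 (Cset_mul hhi hx.1.1.2) h2'
      obtain ⟨n1, n2⟩ := not_N_of_lt hx h3'
      have ex : (g * cor (pr (g⁻¹ * x.1)), h * cor (pr (h⁻¹ * x.2))) = x := by
        rw [← e1, ← e2, mul_inv_cancel_left₀ (g4_ne hg), mul_inv_cancel_left₀ (g4_ne hh)]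
      refine ⟨⟨f1, f2⟩, ⟨f3, f4⟩, ?_, ?_⟩
      · change (g * cor (pr (g⁻¹ * x.1)), h * cor (pr (h⁻¹ * x.2))) ∈ N1ᶜ
        rw [ex]; exact n1
      · change (g * cor (pr (g⁻¹ * x.1)), h * cor (pr (h⁻¹ * x.2))) ∈ N2ᶜ
        rw [ex]; exact n2
    · exfalso
      obtain ⟨g1, g2⟩ := Ann_rad hw
      have h3' : sT (2 - rad ‖w‖ ^ 2) < 1 := h3
      rw [sT_one (by nlinarith)] at h3'
      exact lt_irrefl _ h3'
  left := by
    rintro z _
    unfold piG psG Phi
    simp only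
    rw [inv_mul_cancel_left₀ (g4_ne hg), inv_mul_cancel_left₀ (g4_ne hh), pr_cor, pr_cor]
  right := by
    rintro m hm ⟨h1, h2, h3⟩
    rcases hm with ⟨x, hx, rfl⟩ | ⟨w, hw, rfl⟩
    · have h1' : g⁻¹ * x.1 ∈ W0 := h1
      have h2' : h⁻¹ * x.2 ∈ W0 := h2
      have hgi : (g⁻¹) ^ 4 = 1 := by rw [inv_pow, hg, inv_one]
      have hhi : (h⁻¹) ^ 4 = 1 := by rw [inv_pow, hh, inv_one]
      obtain ⟨e1, f1, f2⟩ := Cset_W0 (Cset_mul hgi hx.1.1.1) h1'
      obtain ⟨e2, f3, f4⟩ := Cset_W0 (Cset_mul hhi hx.1.1.2) h2'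
      have ex : (g * cor (pr (g⁻¹ * x.1)), h * cor (pr (h⁻¹ * x.2))) = x := by
        rw [← e1, ← e2, mul_inv_cancel_left₀ (g4_ne hg), mul_inv_cancel_left₀ (g4_ne hh)]
      change Phi (g * cor (pr (g⁻¹ * x.1)), h * cor (pr (h⁻¹ * x.2))) = Phi x
      rw [ex]
    · exfalso
      obtain ⟨g1, g2⟩ := Ann_rad hw
      have h3' : sT (2 - rad ‖w‖ ^ 2) < 1 := h3
      rw [sT_one (by nlinarith)] at h3'
      exact lt_irrefl _ h3'

/-- index set of the patches -/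
abbrev Idx := Option ({g : ℂ // g ^ 4 = 1} × {g : ℂ // g ^ 4 = 1})

/-- all patches -/
def patches : Idx → Patch Amb ℂ Surf
  | none => patchT
  | some (g, h) => patchG g.1 h.1 g.2 h.2

lemma patches_cov : ∀ m ∈ Surf, ∃ i, m ∈ (patches i).W := by
  intro m hm
  rcases lt_or_ge 0 m.2.2.1 with h | h
  · exact ⟨none, h⟩
  · rcases hm with ⟨x, hx, rfl⟩ | ⟨w, hw, rfl⟩
    · obtain ⟨g, hg, r, hr, e1⟩ := hx.1.1.1
      obtain ⟨g', hg', r', hr', e2⟩ := hx.1.1.2
      refine ⟨some (⟨g, hg⟩, ⟨g', hg'⟩), ?_, ?_, ?_⟩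
      · change g⁻¹ * x.1 ∈ W0
        rw [e1, inv_mul_cancel_left₀ (g4_ne hg)]
        exact cor_mem_W0 (by linarith [hr.1]) (by linarith [hr.2])
      · change g'⁻¹ * x.2 ∈ W0
        rw [e2, inv_mul_cancel_left₀ (g4_ne hg')]
        exact cor_mem_W0 (by linarith [hr'.1]) (by linarith [hr'.2])
      · exact lt_of_le_of_lt h one_pos
    · exfalso
      have h' : sT (2 - rad ‖w‖ ^ 2) ≤ 0 := h
      obtain ⟨g1, g2⟩ := Ann_rad hw
      rw [sT_one (by nlinarith)] at h'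
      linarith

end

end Pool.Agent.Lib.MP_d43ca8_gt
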