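import Pool.Agent.Lib.MP_d43ca8_gt.Level

set_option autoImplicit false

/-!
The surface is compact and all its half-space pieces are preconnected.
-/

namespace Pool.Agent.Lib.MP_d43ca8_gt

open Set Real
open scoped ContDiff

noncomputable section

lemma psT_outer {w : ℂ} (h : 1 ≤ ‖w‖) : psT w = Phi (⟨w.re, -3⟩, ⟨w.im, -3⟩) := by
  have h0 : ‖w‖ ≠ 0 := by linarith
  have e1 : (w / (‖w‖ : ℂ)).re = w.re / ‖w‖ := Complex.div_ofReal_re _ _
  have e2 : (w / (‖w‖ : ℂ)).im = w.im / ‖w‖ := Complex.div_ofReal_im _ _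
  have hz1 : z1 (⟨w.re, -3⟩, ⟨w.im, -3⟩) = w := rfl
  have hz2 : Complex.normSq (z2 (⟨w.re, -3⟩, ⟨w.im, -3⟩)) = 18 := by
    unfold z2; rw [Complex.normSq_mk]; norm_num
  have hb1 : b1 (⟨w.re, -3⟩, ⟨w.im, -3⟩) = sT (2 - ‖w‖ ^ 2) := by
    unfold b1
    rw [hz1, Complex.normSq_eq_norm_sq]
    rw [sT_one (t := - -3) (by norm_num)]
    ring
  have hb2 : b2 (⟨w.re, -3⟩, ⟨w.im, -3⟩) = 0 := by
    unfold b2
    rw [hz2, sT_zero (t := 2 - 18) (by norm_num), mul_zero]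
  unfold psT Phi hT hx hy
  rw [rad_of_ge h, hb1, hb2, hz1, a_of_ge h, B_of_ge h, D_of_ge h, e1, e2,
    mul_div_cancel₀ _ h0, mul_div_cancel₀ _ h0]
  simp

lemma inv2_of {z : ℂ} (h : 1 ≤ ‖z‖) : inv2 z = (Complex.I / 2) / z := by
  have h1 : 1 ≤ Complex.normSq z := by
    rw [Complex.normSq_eq_norm_sq]; nlinarith
  unfold inv2
  rw [sT_zero (by linarith), add_zero, div_eq_mul_inv (Complex.I / 2) z, Complex.inv_def,
    Complex.real_smul]
  push_cast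
  ring

lemma psT_inner {w : ℂ} (h0 : w ≠ 0) (h : ‖w‖ ≤ 1 / 2) :
    psT w = Phi (⟨-3, -((Complex.I / 2) / w).re⟩, ⟨-3, -((Complex.I / 2) / w).im⟩) := by
  have hn : 0 < ‖w‖ := norm_pos_iff.mpr h0
  have e1 : (w / (‖w‖ : ℂ)).re = w.re / ‖w‖ := Complex.div_ofReal_re _ _
  have e2 : (w / (‖w‖ : ℂ)).im = w.im / ‖w‖ := Complex.div_ofReal_im _ _
  set z : ℂ := (Complex.I / 2) / w with hz
  have hzn : ‖z‖ = 1 / (2 * ‖w‖) := by
    rw [hz, norm_div, norm_div, Complex.norm_I]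
    have : ‖(2 : ℂ)‖ = 2 := by norm_num
    rw [this]
    field_simp
  have hz1 : 1 ≤ ‖z‖ := by
    rw [hzn, le_div_iff₀ (by positivity)]
    linarith
  have hzw : z * w = Complex.I / 2 := div_mul_cancel₀ _ h0
  have hns : Complex.normSq w = ‖w‖ ^ 2 := Complex.normSq_eq_norm_sq w
  have hI1 : (Complex.I / 2).re = 0 := by simp
  have hI2 : (Complex.I / 2).im = 1 / 2 := by simp
  have hzre : z.re = w.im / (2 * ‖w‖ ^ 2) := by
    rw [hz, div_eq_mul_inv, Complex.mul_re, Complex.inv_re, Complex.inv_im, hns, hI1, hI2]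
    field_simp
    ring
  have hzim : z.im = w.re / (2 * ‖w‖ ^ 2) := by
    rw [hz, div_eq_mul_inv, Complex.mul_im, Complex.inv_re, Complex.inv_im, hns, hI1, hI2]
    field_simp
    ring
  have hr : rad ‖w‖ = -(1 / (2 * ‖w‖)) := rad_of_le h
  have hr1 : rad ‖w‖ ≤ -1 := by rw [hr, ← hzn]; linarith
  have hr2 : rad ‖w‖ ^ 2 = ‖z‖ ^ 2 := by rw [hr, hzn]; ring
  have hz2 : z2 (⟨-3, -z.re⟩, ⟨-3, -z.im⟩) = z := by
    unfold z2; apply Complex.ext <;> simp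
  have hz1' : Complex.normSq (z1 (⟨-3, -z.re⟩, ⟨-3, -z.im⟩)) = 18 := by
    unfold z1; rw [Complex.normSq_mk]; norm_num
  have hb1 : b1 (⟨-3, -z.re⟩, ⟨-3, -z.im⟩) = 0 := by
    unfold b1
    rw [hz1', sT_zero (t := 2 - 18) (by norm_num), mul_zero]
  have hb2 : b2 (⟨-3, -z.re⟩, ⟨-3, -z.im⟩) = sT (2 - ‖z‖ ^ 2) := by
    unfold b2
    rw [hz2, Complex.normSq_eq_norm_sq]
    rw [sT_one (t := - -3) (by norm_num)]
    ring
  have hinv : inv2 z = w := by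
    rw [inv2_of hz1, ← hzw]
    exact mul_div_cancel_left₀ _ (norm_pos_iff.mp (by linarith))
  have c1 : -(1 / (2 * ‖w‖)) * (w.im / ‖w‖) = -z.re := by
    rw [hzre]; field_simp
  have c2 : -(1 / (2 * ‖w‖)) * (w.re / ‖w‖) = -z.im := by
    rw [hzim]; field_simp
  unfold psT Phi hT hx hy
  rw [hr2, hb1, hb2, hz2, hinv, a_of_le hr1, B_of_le hr1, D_of_le hr1, e1, e2, hr]
  simp only [c1, c2, zero_sub, zero_mul, add_zero, neg_zero, zero_add, zero_smul]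

lemma lin_hT (α β α' β' r : ℝ) (o : ℂ) : lin α β α' β' (hT r o) =
    -3 * (α + α') + (α + α' - β - β') * a r +
      ((α * B r + β' * D r) * o.re + (α' * B r + β * D r) * o.im) := by
  unfold lin hT hx hy
  ring

lemma hT_cont : Continuous fun x : ℝ × ℂ => hT x.1 x.2 := by
  have ha : Continuous a := a_contDiff.continuous
  have hB : Continuous B := B_contDiff.continuous
  have hD : Continuous D := D_contDiff.continuous
  have e : (fun x : ℝ × ℂ => hT x.1 x.2) = fun x =>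
      (((hx x.1 x.2.re : ℝ) : ℂ) + ((hy x.1 x.2.im : ℝ) : ℂ) * Complex.I,
        ((hx x.1 x.2.im : ℝ) : ℂ) + ((hy x.1 x.2.re : ℝ) : ℂ) * Complex.I) := by
    funext x
    unfold hT
    apply Prod.ext <;> apply Complex.ext <;> simp
  rw [e]
  unfold hx hy
  fun_prop

lemma T_slab (α β α' β' c : ℝ) {s t : ℝ} (hs : 1 / 2 ≤ s) (ht : t ≤ 1)
    (hr : ∀ ϱ, s ≤ ϱ → ϱ ≤ t → c ≤ ridge α β α' β' (rad ϱ)) :
    IsPreconnected {x : ℝ × ℂ | x ∈ Icc s t ×ˢ Metric.sphere (0 : ℂ) 1 ∧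
      c ≤ lin α β α' β' (hT (rad x.1) x.2)} := by
  set S : Set (ℝ × ℂ) := {x : ℝ × ℂ | x ∈ Icc s t ×ˢ Metric.sphere (0 : ℂ) 1 ∧
      c ≤ lin α β α' β' (hT (rad x.1) x.2)} with hSdef
  have hK : IsCompact (Icc s t ×ˢ Metric.sphere (0 : ℂ) 1) :=
    isCompact_Icc.prod (isCompact_sphere _ _)
  have hradc : ContinuousOn rad (Icc s t) := fun x hx =>
    (rad_contAt (by linarith [hx.1])).continuousWithinAt
  have hc : ContinuousOn (fun x : ℝ × ℂ => lin α β α' β' (hT (rad x.1) x.2))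
      (Icc s t ×ˢ Metric.sphere (0 : ℂ) 1) := by
    have h1 : ContinuousOn (fun x : ℝ × ℂ => (rad x.1, x.2))
        (Icc s t ×ˢ Metric.sphere (0 : ℂ) 1) := by
      apply ContinuousOn.prodMk
      · exact hradc.comp continuous_fst.continuousOn (fun x hx => hx.1)
      · exact continuous_snd.continuousOn
    have h2 : Continuous (fun y : ℝ × ℂ => lin α β α' β' (hT y.1 y.2)) :=
      (lin_cont α β α' β').comp hT_cont
    have h3 := Continuous.comp_continuousOn h2 h1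
    simpa only [Function.comp_def] using h3
  have hScomp : IsCompact S := by
    have hcl := hc.preimage_isClosed_of_isClosed hK.isClosed (isClosed_Ici (a := c))
    exact hK.of_isClosed_subset hcl (fun x hx => hx.1)
  have hfst : Prod.fst '' S = Icc s t := by
    ext ϱ
    constructor
    · rintro ⟨x, hx, rfl⟩
      exact hx.1.1
    · intro hϱ
      obtain ⟨z, hz1, hz2⟩ := circle_max (α * B (rad ϱ) + β' * D (rad ϱ))
        (α' * B (rad ϱ) + β * D (rad ϱ))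
      refine ⟨(ϱ, z), ⟨⟨hϱ, by simpa using hz1⟩, ?_⟩, rfl⟩
      simp only
      rw [lin_hT, hz2]
      exact hr ϱ hϱ.1 hϱ.2
  apply preconn_of_fibers hScomp (f := Prod.fst) continuous_fst.continuousOn
  · rw [hfst]; exact isPreconnected_Icc
  · intro ϱ hϱ
    rw [hfst] at hϱ
    have himg : S ∩ Prod.fst ⁻¹' {ϱ} = (fun z : ℂ => (ϱ, z)) '' {z : ℂ | ‖z‖ = 1 ∧
        c - (-3 * (α + α') + (α + α' - β - β') * a (rad ϱ)) ≤
        (α * B (rad ϱ) + β' * D (rad ϱ)) * z.re + (α' * B (rad ϱ) + β * D (rad ϱ)) * z.im} := by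
      ext x
      constructor
      · rintro ⟨⟨h1, h2⟩, h3⟩
        have h3' : x.1 = ϱ := h3
        refine ⟨x.2, ⟨by simpa using h1.2, ?_⟩, by rw [← h3']⟩
        rw [lin_hT, h3'] at h2
        linarith
      · rintro ⟨z, ⟨h1, h2⟩, rfl⟩
        refine ⟨⟨⟨hϱ, by simpa using h1⟩, ?_⟩, rfl⟩
        simp only
        rw [lin_hT]
        linarith
    rw [himg]
    exact (circle_super _ _ _).image _ (by fun_prop)

lemma Ann_rad {w : ℂ} (hw : w ∈ Ann) : -1 ≤ rad ‖w‖ ∧ rad ‖w‖ ≤ 1 := by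
  have hp : 0 < ‖w‖ := by linarith [hw.1]
  constructor
  · rw [← rad_half]
    exact rad_strictMonoOn.monotoneOn (by norm_num) hp hw.1
  · rw [← rad_one]
    exact rad_strictMonoOn.monotoneOn hp (by norm_num) hw.2

/-- every point of a half-space piece of the handle is connected to its boundary -/
lemma T_chain (α β α' β' c : ℝ) {w : ℂ} (hw : w ∈ Ann)
    (hc : c ≤ lin α β α' β' (prj (psT w))) :
    ∃ t : Set ℂ, t ⊆ {w | w ∈ Ann ∧ c ≤ lin α β α' β' (prj (psT w))} ∧ w ∈ t ∧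
      IsPreconnected t ∧ ∃ w' ∈ t, ‖w'‖ = 1 ∨ ‖w'‖ = 1 / 2 := by
  have hp : 0 < ‖w‖ := by linarith [hw.1]
  have hp' : (‖w‖ : ℂ) ≠ 0 := by exact_mod_cast hp.ne'
  have hwo : ‖w / (‖w‖ : ℂ)‖ = 1 := by
    rw [norm_div, Complex.norm_real, norm_norm, div_self hp.ne']
  -- the ridge at `w`
  have hridge : c ≤ ridge α β α' β' (rad ‖w‖) := by
    rw [prj_psT, lin_hT] at hc
    refine hc.trans ?_
    unfold ridge amp
    have hcs : (α * B (rad ‖w‖) + β' * D (rad ‖w‖)) * (w / (‖w‖ : ℂ)).re +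
        (α' * B (rad ‖w‖) + β * D (rad ‖w‖)) * (w / (‖w‖ : ℂ)).im ≤
        √((α * B (rad ‖w‖) + β' * D (rad ‖w‖)) ^ 2 +
          (α' * B (rad ‖w‖) + β * D (rad ‖w‖)) ^ 2) := by
      apply Real.le_sqrt_of_sq_le
      have h1 := Complex.normSq_eq_norm_sq (w / (‖w‖ : ℂ))
      rw [hwo, Complex.normSq_apply] at h1
      set k := α * B (rad ‖w‖) + β' * D (rad ‖w‖)
      set l := α' * B (rad ‖w‖) + β * D (rad ‖w‖)
      set u := (w / (‖w‖ : ℂ)).re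
      set v := (w / (‖w‖ : ℂ)).im
      have h2 : k ^ 2 + l ^ 2 = (k ^ 2 + l ^ 2) * (u * u + v * v) := by rw [h1]; ring
      rw [h2]
      nlinarith [sq_nonneg (k * v - l * u)]
    linarith
  -- image of a slab
  have himg : ∀ s t : ℝ, 1 / 2 ≤ s → t ≤ 1 → s ≤ ‖w‖ → ‖w‖ ≤ t →
      (∀ ϱ, s ≤ ϱ → ϱ ≤ t → c ≤ ridge α β α' β' (rad ϱ)) → ∀ ϱ₁, ϱ₁ ∈ Icc s t →
      ∃ T : Set ℂ, T ⊆ {w | w ∈ Ann ∧ c ≤ lin α β α' β' (prj (psT w))} ∧ w ∈ T ∧
      IsPreconnected T ∧ ∃ w' ∈ T, ‖w'‖ = ϱ₁ := by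
    intro s t hs ht hsw hwt hr ϱ₁ hϱ₁
    set S : Set (ℝ × ℂ) := {x : ℝ × ℂ | x ∈ Icc s t ×ˢ Metric.sphere (0 : ℂ) 1 ∧
      c ≤ lin α β α' β' (hT (rad x.1) x.2)} with hSdef
    have hnorm : ∀ x : ℝ × ℂ, x ∈ S → ‖(x.1 : ℂ) * x.2‖ = x.1 ∧
        ((x.1 : ℂ) * x.2) / ((‖(x.1 : ℂ) * x.2‖ : ℝ) : ℂ) = x.2 := by
      intro x hx
      have h1 : ‖x.2‖ = 1 := by simpa using hx.1.2
      have h2 : 0 < x.1 := by linarith [hx.1.1.1]
      have h3 : ‖(x.1 : ℂ) * x.2‖ = x.1 := by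
        rw [norm_mul, h1, mul_one, Complex.norm_real, Real.norm_of_nonneg h2.le]
      refine ⟨h3, ?_⟩
      rw [h3]
      have : (x.1 : ℂ) ≠ 0 := by exact_mod_cast h2.ne'
      field_simp
    refine ⟨(fun x : ℝ × ℂ => (x.1 : ℂ) * x.2) '' S, ?_, ?_, ?_, ?_⟩
    · rintro _ ⟨x, hx, rfl⟩
      obtain ⟨h1, h2⟩ := hnorm x hx
      refine ⟨?_, ?_⟩
      · unfold Ann
        simp only [Set.mem_ofPred_eq]
        rw [h1]
        exact ⟨by linarith [hx.1.1.1], by linarith [hx.1.1.2]⟩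
      · rw [prj_psT]
        simp only
        rw [h2, h1]
        exact hx.2
    · refine ⟨(‖w‖, w / (‖w‖ : ℂ)), ⟨⟨⟨hsw, hwt⟩, by simpa using hwo⟩, ?_⟩, ?_⟩
      · simpa using hc
      · simp only
        exact mul_div_cancel₀ _ hp'
    · exact (T_slab α β α' β' c hs ht hr).image _ (by fun_prop)
    · obtain ⟨z, hz1, hz2⟩ := circle_max (α * B (rad ϱ₁) + β' * D (rad ϱ₁))
        (α' * B (rad ϱ₁) + β * D (rad ϱ₁))
      have hmem : ((ϱ₁, z) : ℝ × ℂ) ∈ S := by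
        refine ⟨⟨hϱ₁, by simpa using hz1⟩, ?_⟩
        simp only
        rw [lin_hT, hz2]
        exact hr ϱ₁ hϱ₁.1 hϱ₁.2
      exact ⟨_, ⟨_, hmem, rfl⟩, (hnorm _ hmem).1⟩
  rcases ridge_alt α β α' β' (rad ‖w‖) with h | h
  · have hr : ∀ ϱ, 1 / 2 ≤ ϱ → ϱ ≤ ‖w‖ → c ≤ ridge α β α' β' (rad ϱ) := by
      intro ϱ h1 h2
      have hϱ : (0 : ℝ) < ϱ := by linarith
      refine hridge.trans (h (rad ϱ) ?_ ?_)
      · rw [← rad_half]
        exact rad_strictMonoOn.monotoneOn (by norm_num) hϱ h1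
      · exact rad_strictMonoOn.monotoneOn hϱ hp h2
    obtain ⟨T, h1, h2, h3, w', h4, h5⟩ := himg (1 / 2) ‖w‖ (le_refl _) hw.2 hw.1 (le_refl _) hr
      (1 / 2) ⟨le_refl _, hw.1⟩
    exact ⟨T, h1, h2, h3, w', h4, Or.inr h5⟩
  · have hr : ∀ ϱ, ‖w‖ ≤ ϱ → ϱ ≤ 1 → c ≤ ridge α β α' β' (rad ϱ) := by
      intro ϱ h1 h2
      have hϱ : (0 : ℝ) < ϱ := by linarith
      refine hridge.trans (h (rad ϱ) ?_ ?_)
      · exact rad_strictMonoOn.monotoneOn hp hϱ h1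
      · rw [← rad_one]
        exact rad_strictMonoOn.monotoneOn hϱ (by norm_num) h2
    obtain ⟨T, h1, h2, h3, w', h4, h5⟩ := himg ‖w‖ 1 hw.1 (le_refl _) (le_refl _) hw.2 hr
      1 ⟨hw.2, le_refl _⟩
    exact ⟨T, h1, h2, h3, w', h4, Or.inl h5⟩

end

end Pool.Agent.Lib.MP_d43ca8_gt
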